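import Pool.Agent.W_bbc525_ends.L3

/-!
# The end `q → 1`: in terms of the degrees
-/

set_option autoImplicit false

namespace Pool.Agent.W_bbc525_ends

open MeasureTheory Finset Pool.Agent.W_MP_bbc525_pr Pool.Agent.W_bbc525_h89 Pool.Agent.W_bbc525_td

section graph

variable {V : Type*} [Fintype V] [DecidableEq V] {H : SimpleGraph V} [DecidableRel H.Adj]

theorem PsiV_zero_pos (hE : 0 < H.edgeFinset.card) (h2 : ∃ v, 2 ≤ H.degree v) :
    0 < PsiV H 0 := by
  have hE' : (0 : ℝ) < H.edgeFinset.card := by exact_mod_cast hE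
  obtain ⟨u, hu⟩ := h2
  have h1 : -(∑ v, ((0 : ℝ) ^ H.degree v - 1)) < 2 * H.edgeFinset.card := by
    have h := H.sum_degrees_eq_twice_card_edges
    have h' : ∑ v, (H.degree v : ℝ) = 2 * H.edgeFinset.card := by exact_mod_cast h
    rw [← h', ← Finset.sum_neg_distrib]
    apply Finset.sum_lt_sum
    · intro v _
      rcases Nat.eq_zero_or_pos (H.degree v) with h0 | h0
      · rw [h0]
        norm_num
      · rw [zero_pow (by omega)]
        have : (1 : ℝ) ≤ H.degree v := by exact_mod_cast h0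
        linarith
    · refine ⟨u, mem_univ u, ?_⟩
      rw [zero_pow (by omega)]
      have : (2 : ℝ) ≤ H.degree u := by exact_mod_cast hu
      linarith
  unfold PsiV
  have h3 : 1 / (2 * (H.edgeFinset.card : ℝ)) * ∑ v, ((0 : ℝ) ^ H.degree v - 1) > -1 := by
    rw [one_div_mul_eq_div, gt_iff_lt, lt_div_iff₀ (by positivity)]
    linarith
  linarith

/-- **The end `q → 1`.** -/
theorem large_end' (hE : 0 < H.edgeFinset.card) (h2 : ∃ v, 2 ≤ H.degree v) :
    ∃ c : ℝ, 0 < c ∧ c < 1 ∧ ∀ p q : ℝ, 0 < p → p ≤ q → 1 - c ≤ q → q < 1 → Ncond H p q →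
      UniqueMinimizer H p q :=
  large_end hE (PsiV_zero_pos hE h2)

end graph

end Pool.Agent.W_bbc525_ends
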