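import Pool.Agent.W_bbc525_ends.SI

/-!
# Small densities: every graph
-/

set_option autoImplicit false

namespace Pool.Agent.W_bbc525_ends

open MeasureTheory Finset Pool.Agent.W_MP_bbc525_pr Pool.Agent.W_bbc525_h89 Pool.Agent.W_bbc525_td

section graph

variable {V : Type*} [Fintype V] [DecidableEq V] {H : SimpleGraph V} [DecidableRel H.Adj]

theorem feas_log {q : ℝ} (hq : 0 < q) (W : Graphon)
    (hW : q ^ H.edgeFinset.card ≤ homDensity H W) :
    (∀ e ∈ H.edgeFinset, 0 < mix W (mdeg H e) (ndeg H e) / q ^ mdeg H e) ∧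
    0 ≤ ∑ e ∈ H.edgeFinset,
      Real.log (mix W (mdeg H e) (ndeg H e) / q ^ mdeg H e) / (mdeg H e : ℝ) := by
  have h1 := hW.trans (homDensity_le_mix H W)
  have h2 : (1 : ℝ) ≤ ∏ e ∈ H.edgeFinset,
      (mix W (mdeg H e) (ndeg H e) / q ^ mdeg H e) ^ (1 / (mdeg H e : ℝ)) := by
    have e1 : ∏ e ∈ H.edgeFinset,
        (mix W (mdeg H e) (ndeg H e) / q ^ mdeg H e) ^ (1 / (mdeg H e : ℝ)) =
        (∏ e ∈ H.edgeFinset, mix W (mdeg H e) (ndeg H e) ^ (1 / (mdeg H e : ℝ))) /
          q ^ H.edgeFinset.card := by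
      rw [← Finset.prod_const, ← Finset.prod_div_distrib]
      refine Finset.prod_congr rfl fun e he => ?_
      have ha : (mdeg H e : ℝ) ≠ 0 := by exact_mod_cast (mdeg_pos H he).ne'
      rw [Real.div_rpow (mix_nonneg W _ _) (by positivity), ← Real.rpow_natCast q (mdeg H e),
        ← Real.rpow_mul hq.le, mul_one_div_cancel ha, Real.rpow_one]
    rw [e1, le_div_iff₀ (by positivity), one_mul]
    exact h1
  have hpos : ∀ e ∈ H.edgeFinset, 0 < mix W (mdeg H e) (ndeg H e) / q ^ mdeg H e := by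
    intro e he
    have ht : 0 ≤ mix W (mdeg H e) (ndeg H e) / q ^ mdeg H e :=
      div_nonneg (mix_nonneg W _ _) (by positivity)
    rcases ht.eq_or_lt with h | h
    · exfalso
      have ha : (0 : ℝ) < mdeg H e := by exact_mod_cast mdeg_pos H he
      have h3 : ∏ e ∈ H.edgeFinset,
          (mix W (mdeg H e) (ndeg H e) / q ^ mdeg H e) ^ (1 / (mdeg H e : ℝ)) = 0 := by
        apply Finset.prod_eq_zero he
        rw [← h, Real.zero_rpow (by positivity)]
      linarith
    · exact h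
  refine ⟨hpos, ?_⟩
  have h3 := Real.log_nonneg h2
  rw [Real.log_prod (fun e he => (Real.rpow_pos_of_pos (hpos e he) _).ne')] at h3
  refine h3.trans (le_of_eq ?_)
  refine Finset.sum_congr rfl fun e he => ?_
  rw [Real.log_rpow (hpos e he)]
  ring

theorem pow_le_quad (d : ℕ) {X : ℝ} (hX : 0 ≤ X) (hX1 : X ≤ 1) :
    X ^ (d + 1) ≤ 1 - ((d : ℝ) + 1) * (1 - X) + ((d : ℝ) + 1) * d / 2 * (1 - X) ^ 2 := by
  induction d with
  | zero => simp
  | succ n ih =>
    have h1 := mul_le_mul_of_nonneg_right ih hX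
    rw [pow_succ]
    push_cast
    have hn : (0 : ℝ) ≤ n := Nat.cast_nonneg n
    have h2 : 0 ≤ ((n : ℝ) + 1) * n / 2 * (1 - X) ^ 3 := by
      have : 0 ≤ (1 - X) ^ 3 := pow_nonneg (by linarith) 3
      positivity
    nlinarith

theorem gg_le {d : ℕ} (hd : 1 ≤ d) {X : ℝ} (hX : 0 ≤ X) (hX1 : X ≤ 1) :
    gg d X ≤ ((d : ℝ) - 1) / 2 * (1 - X) ^ 2 := by
  obtain ⟨n, rfl⟩ := Nat.exists_eq_succ_of_ne_zero (by omega : d ≠ 0)
  have h := pow_le_quad n hX hX1
  have hn : (0 : ℝ) < (n : ℝ) + 1 := by positivity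
  unfold gg
  push_cast
  have h2 : (X ^ (n + 1) - 1) / ((n : ℝ) + 1) ≤ -(1 - X) + n / 2 * (1 - X) ^ 2 := by
    rw [div_le_iff₀ hn]
    have e : (-(1 - X) + (n : ℝ) / 2 * (1 - X) ^ 2) * ((n : ℝ) + 1) =
        - ((n : ℝ) + 1) * (1 - X) + ((n : ℝ) + 1) * n / 2 * (1 - X) ^ 2 := by ring
    rw [e]
    linarith
  have e : (n : ℝ) + 1 - 1 = n := by ring
  rw [e]
  simp only [Nat.succ_eq_add_one]
  linarith

theorem gg_nonneg {d : ℕ} (hd : 0 < d) {X : ℝ} (hX : 0 ≤ X) : 0 ≤ gg d X :=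
  ps_nonneg hd hX

theorem PsiV_gg (hE : 0 < H.edgeFinset.card) (X : ℝ) :
    PsiV H X = 1 / (H.edgeFinset.card : ℝ) *
      ∑ e ∈ H.edgeFinset, (gg (mdeg H e) X + gg (ndeg H e) X) / 2 := by
  have hE' : (0:ℝ) < H.edgeFinset.card := by exact_mod_cast hE
  have h1 := sum_psi (H := H) (m := fun k => X ^ k) (by simp)
  unfold PsiV
  rw [← h1]
  have e1 : ∑ e ∈ H.edgeFinset, (gg (mdeg H e) X + gg (ndeg H e) X) / 2 =
      (1 / 2) * (∑ e ∈ H.edgeFinset, (psi (fun k => X ^ k) (mdeg H e) +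
        psi (fun k => X ^ k) (ndeg H e))) - H.edgeFinset.card * (X - 1) := by
    rw [Finset.mul_sum, ← nsmul_eq_mul, ← Finset.sum_const, ← Finset.sum_sub_distrib]
    refine Finset.sum_congr rfl fun e _ => ?_
    unfold gg psi
    ring
  rw [e1]
  field_simp

theorem wgt_one : wgt 1 1 = 0 := by
  unfold wgt
  norm_num

theorem wgt_eq (a b : ℕ) : wgt a b = ((a : ℝ) + b - 2) / 2 +
    2 * (if b < a then (b : ℝ) ^ 2 * Kt ((a : ℝ) / b) / a else 0) := by
  unfold wgt
  split_ifs
  · ring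
  · ring

/-- the weights are small -/
theorem wgt_sum (hE : 0 < H.edgeFinset.card) {p q : ℝ} (hp : 0 < p) (hpq : p ≤ q)
    (hq11 : q ≤ 1 / 11) (hN : Ncond H p q) :
    q * (logit q - logit p) / H.edgeFinset.card * ∑ e ∈ H.edgeFinset,
      wgt (mdeg H e) (ndeg H e) < q / (1 - q) := by
  have hq : 0 < q := lt_of_lt_of_le hp hpq
  have hq1 : q < 1 := by linarith
  have h1q : 0 < 1 - q := by linarith
  have hE' : (0:ℝ) < H.edgeFinset.card := by exact_mod_cast hE
  set T := q * (logit q - logit p) with hT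
  have hT0 : 0 ≤ T := mul_nonneg hq.le (logit_mono hp hpq hq1)
  set x := 1 / q with hx
  have hx11 : 11 ≤ x := by
    rw [hx, le_div_iff₀ hq]
    linarith
  have hlx : 0 < Real.log x := Real.log_pos (by linarith)
  have hs0 : 0 < q / (1 - q) := div_pos hq h1q
  have hsx : (x - 1) * (q / (1 - q)) = 1 := by
    rw [hx]
    field_simp
  have hψ := Ncond.psi hE hp hpq hq1 hN x (by linarith) le_rfl
  rw [← hT] at hψ
  have hdd : dd q x = Real.log x := by
    unfold dd relEnt
    have : q * x = 1 := by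
      rw [hx]
      field_simp
    rw [this]
    simp [hx]
  rw [hdd, PsiV_gg hE] at hψ
  have hcase : ∀ e ∈ H.edgeFinset, wgt (mdeg H e) (ndeg H e) * ((x - 1) * Real.log x) ≤
      (gg (mdeg H e) x + gg (ndeg H e) x) / 2 := by
    intro e he
    rcases Nat.lt_or_ge (mdeg H e) 2 with h | h
    · have h1 := ndeg_pos H he
      have h2 := ndeg_le_mdeg H e
      have ha : mdeg H e = 1 := by omega
      have hb : ndeg H e = 1 := by omega
      rw [ha, hb, wgt_one]
      unfold gg
      norm_num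
    · exact (wgt_lt (ndeg_pos H he) (ndeg_le_mdeg H e) h hx11).le
  by_cases hall : ∀ e ∈ H.edgeFinset, mdeg H e < 2
  · have h0 : ∑ e ∈ H.edgeFinset, wgt (mdeg H e) (ndeg H e) = 0 := by
      apply Finset.sum_eq_zero
      intro e he
      have h1 := ndeg_pos H he
      have h2 := ndeg_le_mdeg H e
      have h3 := hall e he
      have ha : mdeg H e = 1 := by omega
      have hb : ndeg H e = 1 := by omega
      rw [ha, hb, wgt_one]
    rw [h0, mul_zero]
    exact hs0
  · push Not at hall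
    obtain ⟨e0, he0, h0⟩ := hall
    rcases hT0.eq_or_lt with h | h
    · rw [← h]
      simpa using hs0
    · have hstrict : ∑ e ∈ H.edgeFinset, wgt (mdeg H e) (ndeg H e) * ((x - 1) * Real.log x) <
          ∑ e ∈ H.edgeFinset, (gg (mdeg H e) x + gg (ndeg H e) x) / 2 :=
        Finset.sum_lt_sum hcase ⟨e0, he0,
          wgt_lt (ndeg_pos H he0) (ndeg_le_mdeg H e0) h0 hx11⟩
      rw [← Finset.sum_mul] at hstrict
      have hTE : 0 < T / (H.edgeFinset.card : ℝ) := div_pos h hE'
      have h5 := mul_lt_mul_of_pos_left hstrict hTE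
      have e1 : T * (1 / (H.edgeFinset.card : ℝ) * ∑ e ∈ H.edgeFinset,
          (gg (mdeg H e) x + gg (ndeg H e) x) / 2) = T / (H.edgeFinset.card : ℝ) *
          ∑ e ∈ H.edgeFinset, (gg (mdeg H e) x + gg (ndeg H e) x) / 2 := by ring
      rw [e1] at hψ
      have h6 : (T / (H.edgeFinset.card : ℝ) * ∑ e ∈ H.edgeFinset,
          wgt (mdeg H e) (ndeg H e)) * (x - 1) * Real.log x < 1 * Real.log x := by
        have e2 : (T / (H.edgeFinset.card : ℝ) * ∑ e ∈ H.edgeFinset,
          wgt (mdeg H e) (ndeg H e)) * (x - 1) * Real.log x = T / (H.edgeFinset.card : ℝ) *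
          ((∑ e ∈ H.edgeFinset, wgt (mdeg H e) (ndeg H e)) * ((x - 1) * Real.log x)) := by ring
        rw [e2]
        linarith
      have h7 := lt_of_mul_lt_mul_right h6 hlx.le
      have h8 := mul_lt_mul_of_pos_right h7 hs0
      rw [mul_assoc, hsx, mul_one, one_mul] at h8
      exact h8

/-- **Small densities.** -/
theorem small_end (hE : 0 < H.edgeFinset.card) {p q : ℝ} (hp : 0 < p) (hpq : p ≤ q)
    (hq11 : q ≤ 1 / 11) (hN : Ncond H p q) : UniqueMinimizer H p q := by
  intro W hW hcost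
  have hq : 0 < q := lt_of_lt_of_le hp hpq
  have hq1 : q < 1 := by linarith
  have hp1 : p < 1 := by linarith
  have h1q : 0 < 1 - q := by linarith
  have hE' : (0:ℝ) < H.edgeFinset.card := by exact_mod_cast hE
  have hw := wgt_sum hE hp hpq hq11 hN
  have hstar := star_ineq hE hp hpq hq1 W hcost
  have hpsi := Ncond.psi hE hp hpq hq1 hN
  obtain ⟨hpos, hlog⟩ := feas_log hq W hW
  set T := q * (logit q - logit p) with hT
  have hT0 : 0 ≤ T := mul_nonneg hq.le (logit_mono hp hpq hq1)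
  have hTE : 0 ≤ T / (H.edgeFinset.card : ℝ) := div_nonneg hT0 hE'.le
  set s := q / (1 - q) with hs
  set D := dfc W q with hD
  have hD0 : 0 ≤ D := dfc_nonneg
  -- the excess
  have hexc : ∑ e ∈ H.edgeFinset, Exc W q (mdeg H e) (ndeg H e) / (mdeg H e : ℝ) ≤
      ∑ e ∈ H.edgeFinset, ((mix W (mdeg H e) (ndeg H e) / q ^ mdeg H e - 1) / (mdeg H e : ℝ) -
        Real.log (mix W (mdeg H e) (ndeg H e) / q ^ mdeg H e) / (mdeg H e : ℝ) +
        (if ndeg H e < mdeg H e then (ndeg H e : ℝ) ^ 2 *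
          Kt ((mdeg H e : ℝ) / (ndeg H e)) / (mdeg H e) else 0) * D ^ 2) := by
    apply Finset.sum_le_sum
    intro e he
    have ha : (0 : ℝ) < mdeg H e := by exact_mod_cast mdeg_pos H he
    have hb := ndeg_pos H he
    split_ifs with hlt
    · have h1 := exc_om hq hb hlt (hpos e he)
      rw [← hD] at h1
      have h2 := div_le_div_of_nonneg_right h1 ha.le
      refine h2.trans (le_of_eq ?_)
      field_simp
    · have heq : ndeg H e = mdeg H e := le_antisymm (ndeg_le_mdeg H e) (not_lt.1 hlt)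
      rw [heq, Exc_self _ (mdeg_pos H he)]
      have h1 := Real.log_le_sub_one_of_pos (hpos e he)
      rw [heq] at h1
      rw [zero_div, zero_mul, add_zero, ← sub_div]
      apply div_nonneg _ ha.le
      linarith
  rw [Finset.sum_add_distrib, Finset.sum_sub_distrib, ← Finset.sum_mul] at hexc
  have h1 := mul_le_mul_of_nonneg_left hexc hTE
  -- the lower bound
  set Q := ∑ e ∈ H.edgeFinset, ((mdeg H e : ℝ) + ndeg H e - 2) / 2 with hQ
  have hpt : ∀ X, 0 ≤ X → X ≤ 1 / q →
      (1 / 2) * (s - T / (H.edgeFinset.card : ℝ) * Q) * max (1 - X) 0 ^ 2 ≤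
        dd q X - T * PsiV H X := by
    intro X hX hX1
    rcases le_or_gt 1 X with h | h
    · rw [max_eq_right (by linarith)]
      have := hpsi X hX hX1
      simp only [ne_eq, OfNat.ofNat_ne_zero, not_false_eq_true, zero_pow, mul_zero]
      linarith
    · rw [max_eq_left (by linarith)]
      have h2 := dd_low hq (by linarith) hX h.le
      rw [← hs] at h2
      have h3 : PsiV H X ≤ (1 / (H.edgeFinset.card : ℝ)) * ((1 / 2) * Q * (1 - X) ^ 2) := by
        rw [PsiV_gg hE]
        apply mul_le_mul_of_nonneg_left _ (by positivity)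
        rw [hQ, Finset.mul_sum, Finset.sum_mul]
        apply Finset.sum_le_sum
        intro e he
        have g1 := gg_le (mdeg_pos H he) hX h.le
        have g2 := gg_le (ndeg_pos H he) hX h.le
        linarith
      have h4 := mul_le_mul_of_nonneg_left h3 hT0
      have e1 : T * ((1 / (H.edgeFinset.card : ℝ)) * ((1 / 2) * Q * (1 - X) ^ 2)) =
          (1 / 2) * (T / (H.edgeFinset.card : ℝ) * Q) * (1 - X) ^ 2 := by ring
      rw [e1] at h4
      linarith
  have hdf := BK.dfk (W := W) hq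
  have hdf2 : BK (fun x y => max (1 - W.W x y / q) 0 ^ 2) := hdf.pow 2
  have hint : (1 / 2) * (s - T / (H.edgeFinset.card : ℝ) * Q) *
      (∫ x, ∫ y, max (1 - W.W x y / q) 0 ^ 2) ≤
      ∫ x, ∫ y, (dd q (W.W x y / q) - T * PsiV H (W.W x y / q)) := by
    have h2 := BK.int_mono (BK.const_mul ((1 / 2) * (s - T / (H.edgeFinset.card : ℝ) * Q)) hdf2)
      ((BK.dd hq hq1 W).sub (BK.const_mul T (BK.psiV (H := H) hq W)))
      (fun x y => hpt (W.W x y / q) (div_nonneg (W.nonneg _ _) hq.le) (XX_le hq x y))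
    rw [BK.int_mul] at h2
    exact h2
  have hsq := hdf.sq_int
  change D ^ 2 ≤ _ at hsq
  -- the weights
  have hwsum : ∑ e ∈ H.edgeFinset, wgt (mdeg H e) (ndeg H e) = Q +
      2 * ∑ e ∈ H.edgeFinset, (if ndeg H e < mdeg H e then (ndeg H e : ℝ) ^ 2 *
          Kt ((mdeg H e : ℝ) / (ndeg H e)) / (mdeg H e) else 0) := by
    rw [hQ, Finset.mul_sum, ← Finset.sum_add_distrib]
    exact Finset.sum_congr rfl fun e _ => wgt_eq _ _
  rw [hwsum] at hw
  set C := ∑ e ∈ H.edgeFinset, (if ndeg H e < mdeg H e then (ndeg H e : ℝ) ^ 2 *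
          Kt ((mdeg H e : ℝ) / (ndeg H e)) / (mdeg H e) else 0) with hC
  have hC0 : 0 ≤ C := by
    apply Finset.sum_nonneg
    intro e he
    split_ifs with hlt
    · have hK : 0 ≤ Kt ((mdeg H e : ℝ) / (ndeg H e)) := by
        unfold Kt
        split_ifs with h
        · norm_num
        · have h' := not_le.1 h
          have : 0 ≤ ((mdeg H e : ℝ) / (ndeg H e)) ^ 2 - (mdeg H e : ℝ) / (ndeg H e) + 2 := by
            nlinarith
          have : 0 ≤ (mdeg H e : ℝ) / (ndeg H e) := by linarith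
          positivity
      positivity
    · exact le_rfl
  have hκ : 0 < s - T / (H.edgeFinset.card : ℝ) * (Q + 2 * C) := by linarith
  have hκ1 : 0 < s - T / (H.edgeFinset.card : ℝ) * Q := by
    have : 0 ≤ T / (H.edgeFinset.card : ℝ) * (2 * C) := mul_nonneg hTE (by linarith)
    nlinarith
  have h2 : (1 / 2) * (s - T / (H.edgeFinset.card : ℝ) * Q) * D ^ 2 ≤
      T / (H.edgeFinset.card : ℝ) * (C * D ^ 2) := by
    have h3 := mul_le_mul_of_nonneg_left hsq
      (by linarith : 0 ≤ (1 / 2) * (s - T / (H.edgeFinset.card : ℝ) * Q))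
    have h4 := mul_nonneg hTE hlog
    have e1 : T / (H.edgeFinset.card : ℝ) *
        (∑ e ∈ H.edgeFinset, (mix W (mdeg H e) (ndeg H e) / q ^ mdeg H e - 1) / (mdeg H e : ℝ) -
        ∑ e ∈ H.edgeFinset, Real.log (mix W (mdeg H e) (ndeg H e) / q ^ mdeg H e) /
          (mdeg H e : ℝ) + C * D ^ 2) =
        T / (H.edgeFinset.card : ℝ) *
        (∑ e ∈ H.edgeFinset, (mix W (mdeg H e) (ndeg H e) / q ^ mdeg H e - 1) /
          (mdeg H e : ℝ)) - T / (H.edgeFinset.card : ℝ) *
        (∑ e ∈ H.edgeFinset, Real.log (mix W (mdeg H e) (ndeg H e) / q ^ mdeg H e) /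
          (mdeg H e : ℝ)) + T / (H.edgeFinset.card : ℝ) * (C * D ^ 2) := by ring
    rw [e1] at h1
    linarith
  have hDz : D = 0 := by
    by_contra hne
    have hDp : 0 < D := lt_of_le_of_ne hD0 (Ne.symm hne)
    have : 0 < (s - T / (H.edgeFinset.card : ℝ) * (Q + 2 * C)) * D ^ 2 := by positivity
    nlinarith
  -- the mean
  have hmean : q ≤ W.mean := by
    have h3 := BK.int_mono ((BK.const 1).sub (BK.XX (W := W) hq)) hdf
      (fun x y => le_max_left _ _)
    rw [BK.int_sub (BK.const 1) (BK.XX (W := W) hq)] at h3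
    have h4 : ∫ x, ∫ y, max (1 - W.W x y / q) 0 = 0 := hDz
    rw [h4] at h3
    have h5 : ∫ x, ∫ y, W.W x y / q = W.mean / q := by
      have := YY_mom (W := W) hq 1
      unfold YY at this
      simpa only [pow_one, Graphon.mom_one] using this
    rw [h5] at h3
    simp only [integral_const, probReal_univ, smul_eq_mul, one_mul] at h3
    have h6 : 1 ≤ W.mean / q := by linarith
    rwa [le_div_iff₀ hq, one_mul] at h6
  have h3 := cost_shift hp hp1 hq hq1 W
  have h4 : 0 ≤ (logit q - logit p) * (W.mean - q) :=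
    mul_nonneg (logit_mono hp hpq hq1) (by linarith)
  apply full_unique_self H hq hq1 W hW
  rw [relEnt_self hq hq1]
  linarith

end graph

end Pool.Agent.W_bbc525_ends
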