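import Pool.Agent.W_bbc525_ends.D0

/-!
# Inequality of Jensen for `Δ_n`, `1 < n ≤ 2`

For a bounded measurable `s ≥ 0` on the unit interval with mean `μ`:
`∬ Δ_n(1 + s(x), 1 + s(y)) ≤ Δ_n(1 + μ, 1 + μ)`.

PROOF. For `a ≥ 0` fixed the function `t ↦ Δ_n(1 + a, 1 + t) = (1 + a + t)^n - (1 + a)^n -
(1 + t)^n + 1` on `[0, ∞)` is concave: its derivative `n [(1 + a + t)^(n-1) - (1 + t)^(n-1)]` is
antitone in `t` because `0 < n - 1 ≤ 1`. So for every `x`
`∫ Δ_n(1 + s(x), 1 + s(y)) dy ≤ Δ_n(1 + s(x), 1 + μ)` (Jensen, `ConcaveOn.le_map_integral`, or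
integrate the tangent inequality at `t = μ`), and once more, by symmetry,
`∫ Δ_n(1 + s(x), 1 + μ) dx ≤ Δ_n(1 + μ, 1 + μ)`. The volume of the unit interval is `1`.
(`BF`, `BK`: bounded measurable functions, kernels, file Ker.lean: `BF.integrable`, `BF.mono`,
`BK.mono`, `BF.rpow` are there.)
-/

set_option autoImplicit false

namespace Pool.Agent.W_bbc525_ends

open MeasureTheory

/-- the function of the proof -/
noncomputable def SD_f (n a t : ℝ) : ℝ := (1 + a + t) ^ n - (1 + a) ^ n - (1 + t) ^ n + 1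

theorem SD_f_eq {n a t : ℝ} (ha : 0 ≤ a) (ht : 0 ≤ t) : Dl n (1 + a) (1 + t) = SD_f n a t := by
  unfold Dl SD_f
  have h : (1 + a) + (1 + t) - 1 = 1 + a + t := by ring
  rw [h, max_eq_left (by linarith)]

theorem SD_concave {n a : ℝ} (h1 : 1 < n) (h2 : n ≤ 2) (ha : 0 ≤ a) :
    ConcaveOn ℝ (Set.Ici (0 : ℝ)) (SD_f n a) := by
  apply concaveOn_of_hasDerivWithinAt2_nonpos (convex_Ici 0)
    (f' := fun t => n * (1 + a + t) ^ (n - 1) - n * (1 + t) ^ (n - 1))
    (f'' := fun t => n * ((n - 1) * (1 + a + t) ^ (n - 2)) - n * ((n - 1) * (1 + t) ^ (n - 2)))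
  · unfold SD_f
    apply ContinuousOn.add _ continuousOn_const
    apply ContinuousOn.sub
    · apply ContinuousOn.sub _ continuousOn_const
      apply ContinuousOn.rpow_const (by fun_prop)
      intro x hx
      exact Or.inr (by linarith)
    · apply ContinuousOn.rpow_const (by fun_prop)
      intro x hx
      exact Or.inr (by linarith)
  · intro x hx
    rw [interior_Ici] at hx
    have hx : 0 < x := hx
    apply HasDerivAt.hasDerivWithinAt
    unfold SD_f
    have e1 : HasDerivAt (fun t : ℝ => (1 + a + t) ^ n) (1 * n * (1 + a + x) ^ (n - 1)) x :=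
      HasDerivAt.rpow_const ((hasDerivAt_id x).const_add (1 + a)) (Or.inl (by
        have : 0 < 1 + a + x := by linarith
        exact this.ne'))
    have e2 : HasDerivAt (fun t : ℝ => (1 + t) ^ n) (1 * n * (1 + x) ^ (n - 1)) x :=
      HasDerivAt.rpow_const ((hasDerivAt_id x).const_add 1) (Or.inl (by
        have : 0 < 1 + x := by linarith
        exact this.ne'))
    have e3 := ((e1.sub_const ((1 + a) ^ n)).sub e2).add_const 1
    exact e3.congr_deriv (by ring)
  · intro x hx
    rw [interior_Ici] at hx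
    have hx : 0 < x := hx
    apply HasDerivAt.hasDerivWithinAt
    have e1 : HasDerivAt (fun t : ℝ => (1 + a + t) ^ (n - 1))
        (1 * (n - 1) * (1 + a + x) ^ (n - 1 - 1)) x :=
      HasDerivAt.rpow_const ((hasDerivAt_id x).const_add (1 + a)) (Or.inl (by
        have : 0 < 1 + a + x := by linarith
        exact this.ne'))
    have e2 : HasDerivAt (fun t : ℝ => (1 + t) ^ (n - 1))
        (1 * (n - 1) * (1 + x) ^ (n - 1 - 1)) x :=
      HasDerivAt.rpow_const ((hasDerivAt_id x).const_add 1) (Or.inl (by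
        have : 0 < 1 + x := by linarith
        exact this.ne'))
    have e3 := (e1.const_mul n).sub (e2.const_mul n)
    have e4 : n - 1 - 1 = n - 2 := by ring
    rw [e4] at e3
    exact e3.congr_deriv (by ring)
  · intro x hx
    rw [interior_Ici] at hx
    have hx : 0 < x := hx
    have hle : (1 + a + x) ^ (n - 2) ≤ (1 + x) ^ (n - 2) :=
      Real.rpow_le_rpow_of_nonpos (by linarith) (by linarith) (by linarith)
    have hn : 0 ≤ n * (n - 1) := mul_nonneg (by linarith) (by linarith)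
    have := mul_le_mul_of_nonneg_left hle hn
    nlinarith [this]

theorem SD_cont {n a : ℝ} (h1 : 1 < n) : ContinuousOn (SD_f n a) (Set.Ici (0 : ℝ)) := by
  unfold SD_f
  apply ContinuousOn.add _ continuousOn_const
  apply ContinuousOn.sub
  · apply ContinuousOn.sub _ continuousOn_const
    apply ContinuousOn.rpow_const (by fun_prop)
    intro x hx
    exact Or.inr (by linarith)
  · apply ContinuousOn.rpow_const (by fun_prop)
    intro x hx
    exact Or.inr (by linarith)

theorem SD_row {n : ℝ} (h1 : 1 < n) {s : unitInterval → ℝ} (hs : BF s) (h0 : ∀ x, 0 ≤ s x)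
    {a : ℝ} (ha : 0 ≤ a) : BF (fun y => SD_f n a (s y)) := by
  have e1 : BF (fun y => (1 + a + s y) ^ n) :=
    BF.rpow ((BF.const (1 + a)).add hs) (fun x => by have := h0 x; linarith) (by linarith)
  have e2 : BF (fun y => (1 + s y) ^ n) :=
    BF.rpow ((BF.const 1).add hs) (fun x => by have := h0 x; linarith) (by linarith)
  exact ((e1.sub (BF.const ((1 + a) ^ n))).sub e2).add (BF.const 1)

theorem SD_jensen {n : ℝ} (h1 : 1 < n) (h2 : n ≤ 2) {s : unitInterval → ℝ} (hs : BF s)
    (h0 : ∀ x, 0 ≤ s x) {a : ℝ} (ha : 0 ≤ a) :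
    ∫ y, SD_f n a (s y) ≤ SD_f n a (∫ y, s y) :=
  ConcaveOn.le_map_integral (SD_concave h1 h2 ha) (SD_cont h1) isClosed_Ici
    (Filter.Eventually.of_forall h0) hs.integrable (SD_row h1 hs h0 ha).integrable

theorem jensen_dl {n : ℝ} (h1 : 1 < n) (h2 : n ≤ 2) {s : unitInterval → ℝ} (hs : BF s)
    (h0 : ∀ x, 0 ≤ s x) :
    ∫ x, ∫ y, Dl n (1 + s x) (1 + s y) ≤ Dl n (1 + ∫ x, s x) (1 + ∫ x, s x) := by
  have hm : 0 ≤ ∫ x, s x := integral_nonneg h0
  have hL : (∫ x, ∫ y, Dl n (1 + s x) (1 + s y)) = ∫ x, ∫ y, SD_f n (s x) (s y) := by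
    congr 1
    ext x
    congr 1
    ext y
    exact SD_f_eq (h0 x) (h0 y)
  rw [hL, SD_f_eq hm hm]
  have hBK : BK (fun x y => SD_f n (s x) (s y)) := by
    have e1 : BK (fun x y => (1 + s x + s y) ^ n) :=
      BK.rpow (((BK.const 1).add (BK.left hs)).add (BK.right hs))
        (fun x y => by have := h0 x; have := h0 y; linarith) (by linarith)
    have e2 : BF (fun y => (1 + s y) ^ n) :=
      BF.rpow ((BF.const 1).add hs) (fun x => by have := h0 x; linarith) (by linarith)
    exact ((e1.sub (BK.left e2)).sub (BK.right e2)).add (BK.const 1)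
  have hsym : ∀ x, SD_f n (s x) (∫ y, s y) = SD_f n (∫ y, s y) (s x) := by
    intro x
    unfold SD_f
    have : 1 + s x + (∫ y, s y) = 1 + (∫ y, s y) + s x := by ring
    rw [this]
    ring
  calc (∫ x, ∫ y, SD_f n (s x) (s y)) ≤ ∫ x, SD_f n (∫ y, s y) (s x) := by
        apply integral_mono hBK.iter'.integrable (SD_row h1 hs h0 hm).integrable
        intro x
        simp only
        rw [← hsym x]
        exact SD_jensen h1 h2 hs h0 (h0 x)
    _ ≤ SD_f n (∫ x, s x) (∫ x, s x) := SD_jensen h1 h2 hs h0 hm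

end Pool.Agent.W_bbc525_ends
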