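import Pool.Agent.W_bbc525_ends.D0

/-!
# Pointwise bounds for `Δ_n`, `1 < n ≤ 2`, when one variable is at least one

`Δ_n(u, v) ≤ n (u^(n-1) - 1) (v - 1)` for `u ≥ 1`, `v ≥ 0` (both for `v ≥ 1` and for `v ≤ 1`).

PROOF. Put `k = n - 1 ∈ (0, 1]` and
`G(v) = n (u^k - 1)(v - 1) - (u + v - 1)^n + u^n + v^n - 1` for `v ≥ 0` (note `u + v - 1 ≥ 0`).
`G(1) = 0` and `G'(v) = n { (u^k - 1) - ((u + v - 1)^k - v^k) }`. Since `t ↦ t^k` is concave on
`[0, ∞)`, its increment over an interval of length `u - 1` decreases with the starting point: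
for `v ≥ 1`: `(v + (u-1))^k - v^k ≤ (1 + (u-1))^k - 1`, so `G' ≥ 0`; for `0 < v ≤ 1` the
opposite inequality, `G' ≤ 0`. Hence `G ≥ G(1) = 0` everywhere.
-/

set_option autoImplicit false

namespace Pool.Agent.W_bbc525_ends

theorem SF_incr {f : ℝ → ℝ} (hf : ConcaveOn ℝ (Set.Ici 0) f) {a b h : ℝ} (ha : 0 ≤ a)
    (hab : a ≤ b) (hh : 0 ≤ h) : f (b + h) + f a ≤ f (a + h) + f b := by
  rcases eq_or_lt_of_le (show 0 ≤ b - a + h by linarith) with h0 | h0
  · have e1 : b = a := by linarith
    subst e1
    exact le_refl _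
  · have hbh : (0 : ℝ) ≤ b + h := by linarith
    have ht0 : 0 ≤ h / (b - a + h) := div_nonneg hh h0.le
    have ht1 : h / (b - a + h) ≤ 1 := by rw [div_le_one h0]; linarith
    have hs0 : 0 ≤ (b - a) / (b - a + h) := div_nonneg (by linarith) h0.le
    have hst : (b - a) / (b - a + h) + h / (b - a + h) = 1 := by
      rw [← add_div, div_self h0.ne']
    have k1 := hf.2 (show a ∈ Set.Ici (0 : ℝ) from ha) (show b + h ∈ Set.Ici (0 : ℝ) from hbh)
      hs0 ht0 hst
    have k2 := hf.2 (show a ∈ Set.Ici (0 : ℝ) from ha) (show b + h ∈ Set.Ici (0 : ℝ) from hbh)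
      ht0 hs0 (by rw [add_comm]; exact hst)
    simp only [smul_eq_mul] at k1 k2
    have e1 : (b - a) / (b - a + h) * a + h / (b - a + h) * (b + h) = a + h := by
      field_simp
      ring
    have e2 : h / (b - a + h) * a + (b - a) / (b - a + h) * (b + h) = b := by
      field_simp
      ring
    rw [e1] at k1
    rw [e2] at k2
    have e3 : ((b - a) / (b - a + h) + h / (b - a + h)) * (f a + f (b + h)) =
        f a + f (b + h) := by rw [hst, one_mul]
    linarith

theorem SF_deriv {n u v : ℝ} (hu : 1 ≤ u) (hv : 0 < v) :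
    HasDerivAt (fun v : ℝ => n * (u ^ (n - 1) - 1) * (v - 1) - (u + v - 1) ^ n + u ^ n +
      v ^ n - 1) (n * ((u ^ (n - 1) - 1) - ((u + v - 1) ^ (n - 1) - v ^ (n - 1)))) v := by
  have h1 : HasDerivAt (fun v : ℝ => n * (u ^ (n - 1) - 1) * (v - 1))
      (n * (u ^ (n - 1) - 1)) v := by
    simpa using ((hasDerivAt_id v).sub_const 1).const_mul (n * (u ^ (n - 1) - 1))
  have h2 : HasDerivAt (fun v : ℝ => u + v - 1) 1 v := by
    simpa using ((hasDerivAt_id v).const_add u).sub_const 1
  have h3 : HasDerivAt (fun v : ℝ => (u + v - 1) ^ n) (1 * n * (u + v - 1) ^ (n - 1)) v :=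
    h2.rpow_const (Or.inl (by linarith))
  have h4 : HasDerivAt (fun v : ℝ => v ^ n) (n * v ^ (n - 1)) v :=
    Real.hasDerivAt_rpow_const (Or.inl hv.ne')
  have h5 := (((h1.sub h3).add_const (u ^ n)).add h4).sub_const 1
  refine h5.congr_deriv ?_
  ring

theorem dl_le_one {n u v : ℝ} (h1 : 1 < n) (h2 : n ≤ 2) (hu : 1 ≤ u) (hv : 0 ≤ v) :
    Dl n u v ≤ n * (u ^ (n - 1) - 1) * (v - 1) := by
  have hn0 : n ≠ 0 := by linarith
  have hmax : max (u + v - 1) 0 = u + v - 1 := max_eq_left (by linarith)
  unfold Dl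
  rw [hmax]
  set G : ℝ → ℝ := fun v => n * (u ^ (n - 1) - 1) * (v - 1) - (u + v - 1) ^ n + u ^ n +
      v ^ n - 1 with hG
  have hG1 : G 1 = 0 := by
    simp only [hG]
    rw [Real.one_rpow]
    have : u + 1 - 1 = u := by ring
    rw [this]
    ring
  have hcc : ConcaveOn ℝ (Set.Ici 0) (fun x : ℝ => x ^ (n - 1)) :=
    Real.concaveOn_rpow (by linarith) (by linarith)
  have hcont : ContinuousOn G (Set.Ici 0) := by
    intro x hx
    have hx0 : (0 : ℝ) ≤ x := hx
    apply ContinuousAt.continuousWithinAt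
    have c1 : ContinuousAt (fun v : ℝ => (u + v - 1) ^ n) x :=
      ContinuousAt.rpow_const (by fun_prop) (Or.inr (by linarith))
    have c2 : ContinuousAt (fun v : ℝ => v ^ n) x :=
      ContinuousAt.rpow_const (by fun_prop) (Or.inr (by linarith))
    have c3 : ContinuousAt (fun v : ℝ => n * (u ^ (n - 1) - 1) * (v - 1)) x := by fun_prop
    exact (((c3.sub c1).add continuousAt_const).add c2).sub continuousAt_const
  have hGv : 0 ≤ G v := by
    rcases le_total 1 v with hv1 | hv1
    · have hm : MonotoneOn G (Set.Ici 1) := by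
        apply monotoneOn_of_deriv_nonneg (convex_Ici 1)
        · exact hcont.mono (Set.Ici_subset_Ici.2 zero_le_one)
        · intro x hx
          rw [interior_Ici] at hx
          have hx1 : (1 : ℝ) < x := hx
          exact (SF_deriv hu (by linarith)).differentiableAt.differentiableWithinAt
        · intro x hx
          rw [interior_Ici] at hx
          have hx1 : (1 : ℝ) < x := hx
          rw [(SF_deriv (n := n) hu (show (0 : ℝ) < x by linarith)).deriv]
          have k := SF_incr hcc (zero_le_one) hx1.le (show 0 ≤ u - 1 by linarith)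
          simp only [Real.one_rpow] at k
          have e1 : x + (u - 1) = u + x - 1 := by ring
          have e2 : 1 + (u - 1) = u := by ring
          rw [e1, e2] at k
          apply mul_nonneg (by linarith)
          linarith
      rw [← hG1]
      exact hm (Set.mem_Ici.2 le_rfl) (Set.mem_Ici.2 hv1) hv1
    · have hm : AntitoneOn G (Set.Icc 0 1) := by
        apply antitoneOn_of_deriv_nonpos (convex_Icc 0 1)
        · exact hcont.mono Set.Icc_subset_Ici_self
        · intro x hx
          rw [interior_Icc] at hx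
          exact (SF_deriv hu hx.1).differentiableAt.differentiableWithinAt
        · intro x hx
          rw [interior_Icc] at hx
          rw [(SF_deriv (n := n) hu hx.1).deriv]
          have k := SF_incr hcc hx.1.le hx.2.le (show 0 ≤ u - 1 by linarith)
          simp only [Real.one_rpow] at k
          have e1 : x + (u - 1) = u + x - 1 := by ring
          have e2 : 1 + (u - 1) = u := by ring
          rw [e1, e2] at k
          apply mul_nonpos_of_nonneg_of_nonpos (by linarith)
          linarith
      rw [← hG1]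
      exact hm ⟨hv, hv1⟩ ⟨zero_le_one, le_rfl⟩ hv1
  simp only [hG] at hGv
  linarith

end Pool.Agent.W_bbc525_ends
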