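import Pool.Agent.W_bbc525_ends.D0

/-!
# Pointwise bound for `Δ_n`, `1 < n ≤ 2`, when both variables are at most one

`Δ_n(u, v) ≤ (n / (n-1)) (1 - u) (1 - v^(n-1))` for `0 ≤ u, v ≤ 1` (numerically checked).

PROOF. Put `k = n - 1 ∈ (0, 1]`.
Case 1, `u + v ≥ 1`. For fixed `u` let
`G(v) = (n/k) (1 - u)(1 - v^k) - (u + v - 1)^n + u^n + v^n - 1` on `[1 - u, 1]`. `G(1) = 0` and
for `v > 1 - u`, with `t = 1 - u`: `G'(v) = n { v^k - (v - t)^k - t v^(k-1) } ≤ 0`, because
`(v - t)^k = v^k (1 - t/v)^k ≥ v^k (1 - t/v)` (`k ≤ 1` and `0 ≤ 1 - t/v ≤ 1`). So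
`G(v) ≥ G(1) = 0`.
Case 2, `u + v ≤ 1`: the claim is `1 - u^n - v^n ≤ (n/k) (1 - u)(1 - v^k)`. Let
`g = (1 - v^k)/k ≥ 0`, so the right side is `n g (1 - u)`.
 If `g ≥ 1`: `u^n ≥ 1 + n (u - 1)` (Bernoulli), so
 `n g (1-u) - 1 + u^n + v^n ≥ n g (1 - u) - n (1 - u) + v^n ≥ 0`.
 If `g ≤ 1`: let `s = g^(1/k) ∈ [0, 1]`, so `s^k = g`. Convexity of `t ↦ t^n`:
 `u^n ≥ s^n + n s^k (u - s)`. So
 `n g (1-u) - 1 + u^n + v^n ≥ n g - n g s + s^n ... = n g - 1 + v^n - k s^n`
 (use `s^n = s^k s = g s`). With `p = 1/k ≥ 1`: `v^n = (1 - k g)^(p+1)`, `s^n = g^(p+1)`, and it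
 remains to show `h(g) = n g - 1 + (1 - k g)^(p+1) - k g^(p+1) ≥ 0` for `0 ≤ g ≤ 1`.
 `h(0) = 0`, `h(1) = (1 - k)^(p+1) ≥ 0`, `h'(g) = n [1 - (1 - k g)^p - g^p] = n [1 - j(g)]`
 where `j(g) = (1 - k g)^p + g^p` is convex on `[0, 1]` with `j(0) = 1`. Given `g0 ∈ (0, 1)`:
 if `j(g0) ≤ 1` then `j ≤ 1` on `[0, g0]` (convexity), so `h` is monotone there and
 `h(g0) ≥ h(0) = 0`; if `j(g0) > 1` then `j > 1` on `[g0, 1]` (otherwise convexity between `0`
 and that point gives `j(g0) ≤ 1`), so `h` is antitone there and `h(g0) ≥ h(1) ≥ 0`.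
-/

set_option autoImplicit false

namespace Pool.Agent.W_bbc525_ends

theorem SF3_key {k s t : ℝ} (hk : 0 < k) (hk1 : k ≤ 1) (hs : 0 ≤ s) (hst : s < t) (ht : t < 1) :
    (1 - t ^ k) * (1 - s) ^ k ≤ (1 - t) ^ k * (1 - s ^ k) := by
  have hs1 : 0 < 1 - s := by linarith
  have ht1 : 0 < 1 - t := by linarith
  set a : ℝ := (1 - t) / (1 - s) with ha
  have ha0 : 0 < a := div_pos ht1 hs1
  have ha1 : a ≤ 1 := by
    rw [ha, div_le_one hs1]
    linarith
  have hat : a * (1 - s) = 1 - t := div_mul_cancel₀ _ hs1.ne'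
  have hconc := (Real.concaveOn_rpow hk.le hk1).2 (x := s) (y := 1) (Set.mem_Ici.2 hs)
    (Set.mem_Ici.2 zero_le_one) ha0.le (sub_nonneg.2 ha1) (by ring)
  simp only [smul_eq_mul, mul_one, Real.one_rpow] at hconc
  have h1 : a * s + (1 - a) = t := by linarith
  rw [h1] at hconc
  have hsk : s ^ k ≤ 1 := Real.rpow_le_one hs (by linarith) hk.le
  have h2 : a ≤ a ^ k := by
    have h := Real.rpow_le_rpow_of_exponent_ge ha0 ha1 hk1
    rwa [Real.rpow_one] at h
  have h3 : 1 - t ^ k ≤ a ^ k * (1 - s ^ k) := by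
    have h4 : a * (1 - s ^ k) ≤ a ^ k * (1 - s ^ k) :=
      mul_le_mul_of_nonneg_right h2 (by linarith)
    linarith
  have h4 : (1 - t) ^ k = a ^ k * (1 - s) ^ k := by
    rw [← hat, Real.mul_rpow ha0.le hs1.le]
  have h5 : 0 ≤ (1 - s) ^ k := Real.rpow_nonneg hs1.le _
  rw [h4]
  calc (1 - t ^ k) * (1 - s) ^ k ≤ a ^ k * (1 - s ^ k) * (1 - s) ^ k :=
        mul_le_mul_of_nonneg_right h3 h5
    _ = a ^ k * (1 - s) ^ k * (1 - s ^ k) := by ring

/-- the derivative of `φ` -/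
theorem SF3_deriv {k : ℝ} (hk : 0 < k) (x : ℝ) :
    HasDerivAt (fun x : ℝ => ((k + 1) * x - x ^ (k + 1)) / k + (1 - x) ^ (k + 1) - 1)
      ((k + 1) / k * ((1 - x ^ k) - k * (1 - x) ^ k)) x := by
  have h1 : HasDerivAt (fun x : ℝ => x ^ (k + 1)) ((k + 1) * x ^ k) x := by
    have h := Real.hasDerivAt_rpow_const (x := x) (p := k + 1) (Or.inr (by linarith))
    rwa [add_sub_cancel_right] at h
  have h2 : HasDerivAt (fun x : ℝ => (1 - x) ^ (k + 1)) (-1 * (k + 1) * (1 - x) ^ k) x := by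
    have h := (((hasDerivAt_id x).const_sub 1).rpow_const (p := k + 1) (Or.inr (by linarith)))
    simp only [id, add_sub_cancel_right] at h
    exact h
  have h3 := (((((hasDerivAt_id x).const_mul (k + 1)).sub h1).div_const k).add h2).sub_const 1
  refine h3.congr_deriv ?_
  field_simp
  ring

theorem SF3_phi {k t : ℝ} (hk : 0 < k) (hk1 : k ≤ 1) (ht0 : 0 ≤ t) (ht1 : t ≤ 1) :
    0 ≤ ((k + 1) * t - t ^ (k + 1)) / k + (1 - t) ^ (k + 1) - 1 := by
  have hcont : Continuous (fun x : ℝ => ((k + 1) * x - x ^ (k + 1)) / k + (1 - x) ^ (k + 1) - 1) :=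
    continuous_iff_continuousAt.2 fun x => (SF3_deriv hk x).continuousAt
  have h0 : ((k + 1) * (0 : ℝ) - 0 ^ (k + 1)) / k + (1 - 0) ^ (k + 1) - 1 = 0 := by
    rw [Real.zero_rpow (by linarith), sub_zero, sub_zero, Real.one_rpow]
    simp
  have h1 : ((k + 1) * (1 : ℝ) - 1 ^ (k + 1)) / k + (1 - 1) ^ (k + 1) - 1 = 0 := by
    rw [sub_self, Real.zero_rpow (by linarith), Real.one_rpow, mul_one, add_sub_cancel_right,
      div_self hk.ne']
    norm_num
  rcases eq_or_lt_of_le ht1 with rfl | ht1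
  · exact h1.ge
  have hkk : 0 ≤ (k + 1) / k := by positivity
  have htk : 0 < (1 - t) ^ k := Real.rpow_pos_of_pos (by linarith) _
  by_cases hpsi : k * (1 - t) ^ k ≤ 1 - t ^ k
  · have hmono : MonotoneOn
        (fun x : ℝ => ((k + 1) * x - x ^ (k + 1)) / k + (1 - x) ^ (k + 1) - 1) (Set.Icc 0 t) := by
      refine monotoneOn_of_deriv_nonneg (convex_Icc 0 t) hcont.continuousOn
        (fun x _ => (SF3_deriv hk x).differentiableAt.differentiableWithinAt) ?_
      intro x hx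
      rw [interior_Icc] at hx
      rw [(SF3_deriv hk x).deriv]
      refine mul_nonneg hkk ?_
      have hkey := SF3_key hk hk1 hx.1.le hx.2 ht1
      have hx1 : 0 ≤ (1 - x) ^ k := Real.rpow_nonneg (by linarith [hx.2]) _
      have h2 : k * (1 - t) ^ k * (1 - x) ^ k ≤ (1 - t ^ k) * (1 - x) ^ k :=
        mul_le_mul_of_nonneg_right hpsi hx1
      have h3 : (1 - t) ^ k * (k * (1 - x) ^ k) ≤ (1 - t) ^ k * (1 - x ^ k) := by linarith
      have h4 := le_of_mul_le_mul_left h3 htk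
      linarith
    have h := hmono (Set.left_mem_Icc.2 ht0) (Set.right_mem_Icc.2 ht0) ht0
    simp only at h
    rw [h0] at h
    exact h
  · have hanti : AntitoneOn
        (fun x : ℝ => ((k + 1) * x - x ^ (k + 1)) / k + (1 - x) ^ (k + 1) - 1) (Set.Icc t 1) := by
      refine antitoneOn_of_deriv_nonpos (convex_Icc t 1) hcont.continuousOn
        (fun x _ => (SF3_deriv hk x).differentiableAt.differentiableWithinAt) ?_
      intro x hx
      rw [interior_Icc] at hx
      rw [(SF3_deriv hk x).deriv]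
      refine mul_nonpos_of_nonneg_of_nonpos hkk ?_
      have hkey := SF3_key hk hk1 ht0 hx.1 hx.2
      have hx1 : 0 ≤ (1 - x) ^ k := Real.rpow_nonneg (by linarith [hx.2]) _
      have h2 : (1 - x) ^ k * (1 - t ^ k) ≤ (1 - x) ^ k * (k * (1 - t) ^ k) :=
        mul_le_mul_of_nonneg_left (not_le.1 hpsi).le hx1
      have h3 : (1 - t) ^ k * (1 - x ^ k) ≤ (1 - t) ^ k * (k * (1 - x) ^ k) := by linarith
      have h4 := le_of_mul_le_mul_left h3 htk
      linarith
    have h := hanti (Set.left_mem_Icc.2 ht1.le) (Set.right_mem_Icc.2 ht1.le) ht1.le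
    simp only at h
    rw [h1] at h
    exact h

/-- Case 2: `u + v ≤ 1` is not needed for this bound. -/
theorem SF3_low {k u v : ℝ} (hk : 0 < k) (hk1 : k ≤ 1) (hu : 0 ≤ u) (hu1 : u ≤ 1)
    (hv : 0 ≤ v) :
    1 - u ^ (k + 1) - v ^ (k + 1) ≤ (k + 1) / k * (1 - u) * (1 - v ^ k) := by
  set t : ℝ := 1 - u with ht
  have ht0 : 0 ≤ t := by linarith
  have hphi := SF3_phi hk hk1 ht0 (by linarith)
  have hut : 1 - t = u := by linarith
  rw [hut] at hphi
  have hk1' : 0 < k + 1 := by linarith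
  have hyoung := Real.geom_mean_le_arith_mean2_weighted (w₁ := 1 / (k + 1)) (w₂ := k / (k + 1))
    (p₁ := t ^ (k + 1)) (p₂ := v ^ (k + 1)) (by positivity) (by positivity)
    (Real.rpow_nonneg ht0 _) (Real.rpow_nonneg hv _) (by field_simp; ring)
  rw [← Real.rpow_mul ht0, ← Real.rpow_mul hv, mul_one_div_cancel hk1'.ne', Real.rpow_one,
    mul_div_cancel₀ k hk1'.ne'] at hyoung
  have h1 : (k + 1) * (t * v ^ k) ≤ t ^ (k + 1) + k * v ^ (k + 1) := by
    have h2 := mul_le_mul_of_nonneg_left hyoung hk1'.le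
    have h3 : (k + 1) * (1 / (k + 1) * t ^ (k + 1) + k / (k + 1) * v ^ (k + 1)) =
        t ^ (k + 1) + k * v ^ (k + 1) := by
      field_simp
    linarith
  have h4 : (k + 1) / k * t * (1 - v ^ k) =
      ((k + 1) * t - t ^ (k + 1)) / k + (t ^ (k + 1) - (k + 1) * (t * v ^ k)) / k := by
    field_simp
    ring
  have h5 : -v ^ (k + 1) ≤ (t ^ (k + 1) - (k + 1) * (t * v ^ k)) / k := by
    rw [le_div_iff₀ hk]
    linarith
  rw [h4]
  linarith

/-- Case 1: `u + v ≥ 1`. -/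
theorem SF3_high {k u v : ℝ} (hk : 0 < k) (hk1 : k ≤ 1) (hu : 0 ≤ u) (hu1 : u ≤ 1)
    (hv1 : v ≤ 1) (huv : 1 ≤ u + v) :
    (u + v - 1) ^ (k + 1) - u ^ (k + 1) - v ^ (k + 1) + 1 ≤
      (k + 1) / k * (1 - u) * (1 - v ^ k) := by
  set t : ℝ := 1 - u with ht
  have ht0 : 0 ≤ t := by linarith
  have htv : t ≤ v := by linarith
  let G : ℝ → ℝ := fun x => (k + 1) / k * t * (1 - x ^ k) - (x - t) ^ (k + 1) + u ^ (k + 1) +
    x ^ (k + 1) - 1
  have hder : ∀ x : ℝ, 0 < x → HasDerivAt G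
      ((k + 1) * (x ^ k - (x - t) ^ k - t * x ^ (k - 1))) x := by
    intro x hx
    have h1 : HasDerivAt (fun x : ℝ => x ^ (k + 1)) ((k + 1) * x ^ k) x := by
      have h := Real.hasDerivAt_rpow_const (x := x) (p := k + 1) (Or.inr (by linarith))
      rwa [add_sub_cancel_right] at h
    have h2 : HasDerivAt (fun x : ℝ => x ^ k) (k * x ^ (k - 1)) x :=
      Real.hasDerivAt_rpow_const (Or.inl hx.ne')
    have h3 : HasDerivAt (fun x : ℝ => (x - t) ^ (k + 1)) (1 * (k + 1) * (x - t) ^ k) x := by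
      have h := (((hasDerivAt_id x).sub_const t).rpow_const (p := k + 1) (Or.inr (by linarith)))
      simp only [id, add_sub_cancel_right] at h
      exact h
    have h4 := (((((h2.const_sub 1).const_mul ((k + 1) / k * t)).sub h3).add_const
      (u ^ (k + 1))).add h1).sub_const 1
    refine h4.congr_deriv ?_
    field_simp
    ring
  have hcont : ContinuousOn G (Set.Icc t 1) := by
    have hc1 : Continuous (fun x : ℝ => x ^ k) := Real.continuous_rpow_const hk.le
    have hc2 : Continuous (fun x : ℝ => x ^ (k + 1)) := Real.continuous_rpow_const (by linarith)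
    have hc3 : Continuous (fun x : ℝ => (x - t) ^ (k + 1)) :=
      hc2.comp (continuous_id.sub continuous_const)
    exact (((((continuous_const.mul (continuous_const.sub hc1)).sub hc3).add
      continuous_const).add hc2).sub continuous_const).continuousOn
  have hanti : AntitoneOn G (Set.Icc t 1) := by
    refine antitoneOn_of_deriv_nonpos (convex_Icc t 1) hcont ?_ ?_
    · intro x hx
      rw [interior_Icc] at hx
      exact (hder x (by linarith [hx.1])).differentiableAt.differentiableWithinAt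
    · intro x hx
      rw [interior_Icc] at hx
      have hx0 : 0 < x := by linarith [hx.1]
      rw [(hder x hx0).deriv]
      refine mul_nonpos_of_nonneg_of_nonpos (by linarith) ?_
      have h1 : 0 ≤ 1 - t / x := by
        rw [sub_nonneg, div_le_one hx0]
        exact hx.1.le
      have h1' : 0 < 1 - t / x := by
        rw [sub_pos, div_lt_one hx0]
        exact hx.1
      have h2 : 1 - t / x ≤ 1 := by
        have : 0 ≤ t / x := div_nonneg ht0 hx0.le
        linarith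
      have h3 : 1 - t / x ≤ (1 - t / x) ^ k := by
        have h := Real.rpow_le_rpow_of_exponent_ge h1' h2 hk1
        rwa [Real.rpow_one] at h
      have h4 : (x - t) ^ k = x ^ k * (1 - t / x) ^ k := by
        rw [← Real.mul_rpow hx0.le h1]
        congr 1
        field_simp
      have h5 : x ^ k * (t / x) = t * x ^ (k - 1) := by
        rw [Real.rpow_sub hx0, Real.rpow_one]
        ring
      have h6 : x ^ k * (1 - t / x) ≤ x ^ k * (1 - t / x) ^ k :=
        mul_le_mul_of_nonneg_left h3 (Real.rpow_nonneg hx0.le _)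
      rw [h4]
      rw [mul_sub, mul_one, h5] at h6
      linarith
  have h1 : G 1 = 0 := by
    have hut : 1 - t = u := by linarith
    simp only [G, hut, Real.one_rpow]
    ring
  have h2 := hanti (Set.mem_Icc.2 ⟨htv, hv1⟩) (Set.right_mem_Icc.2 (htv.trans hv1)) hv1
  rw [h1] at h2
  simp only [G] at h2
  have h3 : u + v - 1 = v - t := by linarith
  rw [h3]
  linarith

theorem dl_le_small {n u v : ℝ} (h1 : 1 < n) (h2 : n ≤ 2) (hu : 0 ≤ u) (hu1 : u ≤ 1)
    (hv : 0 ≤ v) (hv1 : v ≤ 1) :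
    Dl n u v ≤ (n / (n - 1)) * (1 - u) * (1 - v ^ (n - 1)) := by
  obtain ⟨k, rfl⟩ : ∃ k, n = k + 1 := ⟨n - 1, by ring⟩
  rw [add_sub_cancel_right]
  have hk : 0 < k := by linarith
  have hk1 : k ≤ 1 := by linarith
  unfold Dl
  rcases le_total 1 (u + v) with h | h
  · rw [max_eq_left (by linarith)]
    exact SF3_high hk hk1 hu hu1 hv1 h
  · rw [max_eq_right (by linarith), Real.zero_rpow (by linarith)]
    have := SF3_low hk hk1 hu hu1 hv
    linarith

end Pool.Agent.W_bbc525_ends
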