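import Pool.Agent.W_bbc525_ends.SB
import Pool.Agent.W_bbc525_ends.SD
import Pool.Agent.W_bbc525_ends.SF
import Pool.Agent.W_bbc525_ends.SF3
import Pool.Agent.W_bbc525_ends.SG0

/-!
# The inequality of an edge, degree ratio larger than two
-/

set_option autoImplicit false

namespace Pool.Agent.W_bbc525_ends

open MeasureTheory

variable {Y : unitInterval → unitInterval → ℝ} {θ : ℝ}

theorem BF.maxz {g : unitInterval → ℝ} (hg : BF g) : BF (fun x => max (g x) 0) := by
  obtain ⟨C, hC⟩ := hg.bdd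
  refine ⟨hg.meas.max measurable_const, C, fun x => ?_⟩
  rw [abs_of_nonneg (le_max_right _ _)]
  exact max_le ((le_abs_self _).trans (hC x)) ((abs_nonneg _).trans (hC x))

theorem BK.maxz {g : unitInterval → unitInterval → ℝ} (hg : BK g) :
    BK (fun x y => max (g x y) 0) := by
  obtain ⟨C, hC⟩ := hg.bdd
  refine ⟨hg.meas.max measurable_const, C, fun x y => ?_⟩
  rw [abs_of_nonneg (le_max_right _ _)]
  exact max_le ((le_abs_self _).trans (hC x y)) ((abs_nonneg _).trans (hC x y))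

theorem BK.Dl {u : unitInterval → ℝ} (hu : BF u) (h0 : ∀ x, 0 ≤ u x) {n : ℝ} (hn : 0 ≤ n) :
    BK (fun x y => Dl n (u x) (u y)) :=
  (((BK.posp hu 1 hn).sub (BK.left (hu.rpow h0 hn))).sub (BK.right (hu.rpow h0 hn))).add
    (BK.const 1)

theorem Dl_int {u : unitInterval → ℝ} (hu : BF u) (h0 : ∀ x, 0 ≤ u x) {n : ℝ} (hn : 0 ≤ n) :
    ∫ x, ∫ y, Dl n (u x) (u y) = (∫ x, ∫ y, max (u x + u y - 1) 0 ^ n) -
      2 * (∫ x, u x ^ n) + 1 := by
  have h1 := BK.posp hu 1 hn
  have h2 := BK.left (hu.rpow h0 hn)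
  have h3 := BK.right (hu.rpow h0 hn)
  unfold Dl
  rw [BK.int_add ((h1.sub h2).sub h3) (BK.const 1), BK.int_sub (h1.sub h2) h3,
    BK.int_sub h1 h2, BK.int_left, BK.int_right]
  simp only [integral_const, probReal_univ, smul_eq_mul, one_mul]
  ring

section point

variable {r n : ℝ}

theorem pt_pow (hθ : 2 < θ) (hn : n = θ / (θ - 1)) (hr : 0 ≤ r) :
    (r ^ (θ - 1)) ^ (n - 1) = r ∧ (r ^ (θ - 1)) ^ n = r ^ θ := by
  have h1 : 0 < θ - 1 := by linarith
  constructor
  · rw [← Real.rpow_mul hr]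
    have : (θ - 1) * (n - 1) = 1 := by
      rw [hn]
      field_simp
      ring
    rw [this, Real.rpow_one]
  · rw [← Real.rpow_mul hr]
    have : (θ - 1) * n = θ := by
      rw [hn]
      field_simp
    rw [this]

theorem pt_up (hθ : 2 < θ) (hn : n = θ / (θ - 1)) (hr : 0 ≤ r) :
    (1 + max (r ^ (θ - 1) - 1) 0) ^ (n - 1) - 1 = max (r - 1) 0 := by
  rcases le_or_gt 1 r with h | h
  · have hu : 1 ≤ r ^ (θ - 1) := Real.one_le_rpow h (by linarith)
    rw [max_eq_left (by linarith), max_eq_left (by linarith)]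
    have e : 1 + (r ^ (θ - 1) - 1) = r ^ (θ - 1) := by ring
    rw [e, (pt_pow hθ hn hr).1]
  · have hu : r ^ (θ - 1) ≤ 1 := Real.rpow_le_one hr h.le (by linarith)
    rw [max_eq_right (by linarith), max_eq_right (by linarith)]
    simp

theorem pt_um (hθ : 2 < θ) (hr : 0 ≤ r) :
    max (1 - r ^ (θ - 1)) 0 ≤ (θ - 1) * max (1 - r) 0 := by
  rcases le_or_gt 1 r with h | h
  · have hu : 1 ≤ r ^ (θ - 1) := Real.one_le_rpow h (by linarith)
    rw [max_eq_right (by linarith), max_eq_right (by linarith)]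
    simp
  · have h1 := one_add_mul_self_le_rpow_one_add (s := r - 1) (by linarith)
      (p := θ - 1) (by linarith)
    rw [add_sub_cancel] at h1
    rw [max_eq_left (by linarith : 0 ≤ 1 - r)]
    apply max_le
    · linarith
    · exact mul_nonneg (by linarith) (by linarith)

theorem pt_P (hθ : 2 < θ) (hr : 0 ≤ r) :
    max (r - 1) 0 + max (r ^ (θ - 1) - 1) 0 ≤ max (r ^ θ - 1) 0 := by
  have e : r ^ θ = r ^ (θ - 1) * r := (rpow_sub_mul (by linarith) hr).symm
  rcases le_or_gt 1 r with h | h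
  · have hu : 1 ≤ r ^ (θ - 1) := Real.one_le_rpow h (by linarith)
    have hP : 1 ≤ r ^ θ := Real.one_le_rpow h (by linarith)
    rw [max_eq_left (by linarith), max_eq_left (by linarith), max_eq_left (by linarith), e]
    nlinarith
  · have hu : r ^ (θ - 1) ≤ 1 := Real.rpow_le_one hr h.le (by linarith)
    rw [max_eq_right (by linarith), max_eq_right (by linarith)]
    simp

theorem pt_Pm (hθ : 2 < θ) (hr : 0 ≤ r) :
    max (1 - r ^ θ) 0 ≤ max (1 - r ^ (θ - 1)) 0 + max (1 - r) 0 := by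
  have e : r ^ θ = r ^ (θ - 1) * r := (rpow_sub_mul (by linarith) hr).symm
  rcases le_or_gt 1 r with h | h
  · have hP : 1 ≤ r ^ θ := Real.one_le_rpow h (by linarith)
    rw [max_eq_right (by linarith)]
    exact add_nonneg (le_max_right _ _) (le_max_right _ _)
  · have hu : r ^ (θ - 1) ≤ 1 := Real.rpow_le_one hr h.le (by linarith)
    apply max_le
    · have h1 := le_max_left (1 - r ^ (θ - 1)) 0
      have h2 := le_max_left (1 - r) 0
      have h3 : 0 ≤ (1 - r ^ (θ - 1)) * (1 - r) := mul_nonneg (by linarith) (by linarith)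
      nlinarith
    · exact add_nonneg (le_max_right _ _) (le_max_right _ _)

theorem pt_split (r : ℝ) : r = 1 + max (r - 1) 0 - max (1 - r) 0 := by
  rcases le_or_gt 1 r with h | h
  · rw [max_eq_left (by linarith), max_eq_right (by linarith)]
    ring
  · rw [max_eq_right (by linarith), max_eq_left (by linarith)]
    ring

theorem pt_Pe (hθ : 2 < θ) (hn : n = θ / (θ - 1)) (hr : 0 ≤ r) :
    max (r ^ θ - 1) 0 = (1 + max (r ^ (θ - 1) - 1) 0) ^ n - 1 := by
  rcases le_or_gt 1 r with h | h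
  · have hu : 1 ≤ r ^ (θ - 1) := Real.one_le_rpow h (by linarith)
    have hP : 1 ≤ r ^ θ := Real.one_le_rpow h (by linarith)
    rw [max_eq_left (by linarith), max_eq_left (by linarith)]
    have e : 1 + (r ^ (θ - 1) - 1) = r ^ (θ - 1) := by ring
    rw [e, (pt_pow hθ hn hr).2]
  · have hu : r ^ (θ - 1) ≤ 1 := Real.rpow_le_one hr h.le (by linarith)
    have hP : r ^ θ ≤ 1 := Real.rpow_le_one hr h.le (by linarith)
    rw [max_eq_right (by linarith), max_eq_right (by linarith)]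
    simp

theorem Dl_one (n : ℝ) {w : ℝ} (hw : 0 ≤ w) : Dl n w 1 = 0 := by
  unfold Dl
  rw [add_sub_cancel_right, max_eq_left hw, Real.one_rpow]
  ring

/-- the pointwise bound of the kernel -/
theorem pt_Dl (hθ : 2 < θ) (hn : n = θ / (θ - 1)) {s : ℝ} (hr : 0 ≤ r) (hs : 0 ≤ s) :
    Dl n (r ^ (θ - 1)) (s ^ (θ - 1)) ≤
      Dl n (1 + max (r ^ (θ - 1) - 1) 0) (1 + max (s ^ (θ - 1) - 1) 0) -
      (n * (max (r - 1) 0 * max (1 - s ^ (θ - 1)) 0) +
        n * (max (1 - r ^ (θ - 1)) 0 * max (s - 1) 0)) +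
      θ * (max (1 - r ^ (θ - 1)) 0 * max (1 - s) 0) := by
  have hθ1 : 0 < θ - 1 := by linarith
  have hn1 : 1 < n := by
    rw [hn, lt_div_iff₀ hθ1]
    linarith
  have hn2 : n ≤ 2 := by
    rw [hn, div_le_iff₀ hθ1]
    linarith
  have hnn : n / (n - 1) = θ := by
    have : n - 1 = n / θ := by
      rw [hn]
      field_simp
      ring
    rw [this]
    field_simp
  rcases le_or_gt 1 r with h | h
  · have hu : 1 ≤ r ^ (θ - 1) := Real.one_le_rpow h (by linarith)
    rw [max_eq_left (by linarith : 0 ≤ r ^ (θ - 1) - 1), max_eq_left (by linarith : 0 ≤ r - 1),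
      max_eq_right (by linarith : 1 - r ^ (θ - 1) ≤ 0)]
    rcases le_or_gt 1 s with h' | h'
    · have hv : 1 ≤ s ^ (θ - 1) := Real.one_le_rpow h' (by linarith)
      rw [max_eq_left (by linarith : 0 ≤ s ^ (θ - 1) - 1),
        max_eq_right (by linarith : 1 - s ^ (θ - 1) ≤ 0)]
      have e1 : 1 + (r ^ (θ - 1) - 1) = r ^ (θ - 1) := by ring
      have e2 : 1 + (s ^ (θ - 1) - 1) = s ^ (θ - 1) := by ring
      rw [e1, e2]
      simp
    · have hv : s ^ (θ - 1) ≤ 1 := Real.rpow_le_one hs h'.le (by linarith)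
      have hv0 : 0 ≤ s ^ (θ - 1) := Real.rpow_nonneg hs _
      rw [max_eq_right (by linarith : s ^ (θ - 1) - 1 ≤ 0),
        max_eq_left (by linarith : 0 ≤ 1 - s ^ (θ - 1)), add_zero, Dl_one n (by linarith)]
      have h1 := dl_le_one hn1 hn2 hu hv0
      rw [(pt_pow hθ hn hr).1] at h1
      nlinarith
  · have hu : r ^ (θ - 1) ≤ 1 := Real.rpow_le_one hr h.le (by linarith)
    have hu0 : 0 ≤ r ^ (θ - 1) := Real.rpow_nonneg hr _
    rw [max_eq_right (by linarith : r ^ (θ - 1) - 1 ≤ 0), max_eq_right (by linarith : r - 1 ≤ 0),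
      max_eq_left (by linarith : 0 ≤ 1 - r ^ (θ - 1)), add_zero]
    rcases le_or_gt 1 s with h' | h'
    · have hv : 1 ≤ s ^ (θ - 1) := Real.one_le_rpow h' (by linarith)
      rw [max_eq_left (by linarith : 0 ≤ s ^ (θ - 1) - 1), max_eq_left (by linarith : 0 ≤ s - 1),
        max_eq_right (by linarith : 1 - s ^ (θ - 1) ≤ 0),
        max_eq_right (by linarith : 1 - s ≤ 0), Dl_symm n 1, Dl_one n (by linarith)]
      have h1 := dl_le_one hn1 hn2 hv hu0
      rw [(pt_pow hθ hn hs).1, Dl_symm] at h1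
      nlinarith
    · have hv : s ^ (θ - 1) ≤ 1 := Real.rpow_le_one hs h'.le (by linarith)
      have hv0 : 0 ≤ s ^ (θ - 1) := Real.rpow_nonneg hs _
      rw [max_eq_right (by linarith : s ^ (θ - 1) - 1 ≤ 0),
        max_eq_left (by linarith : 0 ≤ 1 - s ^ (θ - 1)), max_eq_right (by linarith : s - 1 ≤ 0),
        max_eq_left (by linarith : 0 ≤ 1 - s), add_zero, Dl_one n (by norm_num)]
      have h1 := dl_le_small hn1 hn2 hu0 hu hv0 hv
      rw [(pt_pow hθ hn hs).1, hnn] at h1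
      nlinarith

end point

/-- **The inequality of an edge, ratio larger than two.** -/
theorem key_gt_two {m : ℝ} (hY : BK Y) (h0 : ∀ x y, 0 ≤ Y x y) (hsym : ∀ x y, Y x y = Y y x)
    (hθ : 2 < θ) (hm : m = ∫ x, ∫ y, Y x y) (hR0 : 0 < ∫ x, (∫ y, Y x y) ^ θ) {D : ℝ}
    (hD : ∫ x, ∫ y, max (1 - Y x y) 0 ≤ D) :
    Real.log (∫ x, (∫ y, Y x y) ^ θ) ≤ (1 / 2) * ((∫ x, ∫ y, Y x y ^ θ) - 1) +
      (1 / 2) * θ * (m - 1) + (θ * (θ ^ 2 - θ + 2) / 2) * D ^ 2 := by
  have hθ1 : 0 < θ - 1 := by linarith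
  obtain ⟨n, hn⟩ : ∃ n, n = θ / (θ - 1) := ⟨_, rfl⟩
  have hn1 : 1 < n := by
    rw [hn, lt_div_iff₀ hθ1]
    linarith
  have hn2 : n ≤ 2 := by
    rw [hn, div_le_iff₀ hθ1]
    linarith
  have hn0 : 0 ≤ n := by linarith
  have hd := dual_le hY h0 hsym (by linarith : 1 < θ) 1
  rw [← hm, ← hn] at hd
  obtain ⟨r, hrdef⟩ : ∃ r : unitInterval → ℝ, r = fun x => ∫ y, Y x y := ⟨_, rfl⟩
  have hr' : ∀ x, (∫ y, Y x y) = r x := fun x => by rw [hrdef]
  have hr : BF r := by rw [hrdef]; exact hY.iter'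
  have hr0 : ∀ x, 0 ≤ r x := fun x => by
    rw [← hr']
    exact integral_nonneg fun y => h0 x y
  simp only [hr'] at hd hR0 ⊢
  have hrt : BF (fun x => r x ^ θ) := hr.rpow hr0 (by linarith)
  have hu : BF (fun x => r x ^ (θ - 1)) := hr.rpow hr0 hθ1.le
  have hu0 : ∀ x, 0 ≤ r x ^ (θ - 1) := fun x => Real.rpow_nonneg (hr0 x) _
  have hup : BF (fun x => max (r x ^ (θ - 1) - 1) 0) := (hu.sub (BF.const 1)).maxz
  have hum : BF (fun x => max (1 - r x ^ (θ - 1)) 0) := ((BF.const 1).sub hu).maxz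
  have hrp : BF (fun x => max (r x - 1) 0) := (hr.sub (BF.const 1)).maxz
  have hrm : BF (fun x => max (1 - r x) 0) := ((BF.const 1).sub hr).maxz
  have hPp : BF (fun x => max (r x ^ θ - 1) 0) := (hrt.sub (BF.const 1)).maxz
  have hPm : BF (fun x => max (1 - r x ^ θ) 0) := ((BF.const 1).sub hrt).maxz
  have hup1 : BF (fun x => 1 + max (r x ^ (θ - 1) - 1) 0) := (BF.const 1).add hup
  have hup0 : ∀ x, 0 ≤ 1 + max (r x ^ (θ - 1) - 1) 0 := fun x =>
    add_nonneg zero_le_one (le_max_right _ _)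
  -- the integrals
  obtain ⟨ρ, hρ⟩ : ∃ ρ, ρ = ∫ x, max (r x - 1) 0 := ⟨_, rfl⟩
  obtain ⟨μ, hμ⟩ : ∃ μ, μ = ∫ x, max (r x ^ (θ - 1) - 1) 0 := ⟨_, rfl⟩
  obtain ⟨τ, hτ⟩ : ∃ τ, τ = ∫ x, max (1 - r x ^ (θ - 1)) 0 := ⟨_, rfl⟩
  obtain ⟨d, hdd⟩ : ∃ d, d = ∫ x, max (1 - r x) 0 := ⟨_, rfl⟩
  obtain ⟨P, hP⟩ : ∃ P, P = ∫ x, max (r x ^ θ - 1) 0 := ⟨_, rfl⟩
  obtain ⟨Pm, hPmdef⟩ : ∃ Pm, Pm = ∫ x, max (1 - r x ^ θ) 0 := ⟨_, rfl⟩
  obtain ⟨R, hR⟩ : ∃ R, R = ∫ x, r x ^ θ := ⟨_, rfl⟩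
  obtain ⟨E, hE⟩ : ∃ E, E = ∫ x, ∫ y, Dl n (1 + max (r x ^ (θ - 1) - 1) 0)
    (1 + max (r y ^ (θ - 1) - 1) 0) := ⟨_, rfl⟩
  have hρ0 : 0 ≤ ρ := by rw [hρ]; exact integral_nonneg fun x => le_max_right _ _
  have hμ0 : 0 ≤ μ := by rw [hμ]; exact integral_nonneg fun x => le_max_right _ _
  have hτ0 : 0 ≤ τ := by rw [hτ]; exact integral_nonneg fun x => le_max_right _ _
  have hd0 : 0 ≤ d := by rw [hdd]; exact integral_nonneg fun x => le_max_right _ _
  have hE1 : E ≤ Dl n (1 + μ) (1 + μ) := by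
    rw [hE, hμ]
    exact jensen_dl hn1 hn2 hup fun x => le_max_right _ _
  have hE2 : E ≤ n * ρ * μ := by
    have h1 : E ≤ ∫ x, ∫ y, n * (max (r x - 1) 0 * max (r y ^ (θ - 1) - 1) 0) := by
      rw [hE]
      apply BK.int_mono (BK.Dl hup1 hup0 hn0) (BK.const_mul _ ((BK.left hrp).mul (BK.right hup)))
      intro x y
      have h2 := dl_le_one hn1 hn2 (u := 1 + max (r x ^ (θ - 1) - 1) 0)
        (v := 1 + max (r y ^ (θ - 1) - 1) 0)
        (by have := le_max_right (r x ^ (θ - 1) - 1) 0; linarith) (hup0 y)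
      rw [pt_up hθ hn (hr0 x)] at h2
      linarith
    rw [BK.int_mul, BK.int_prod, ← hρ, ← hμ] at h1
    linarith
  have hP1 : ρ + μ ≤ P := by
    rw [hρ, hμ, hP, ← integral_add hrp.integrable hup.integrable]
    exact integral_mono (hrp.add hup).integrable hPp.integrable fun x => pt_P hθ (hr0 x)
  have hP2 : (1 + μ) ^ n - 1 ≤ P := by
    have h1 : ∫ x, ((1 + μ) ^ n + n * (1 + μ) ^ (n - 1) *
        (max (r x ^ (θ - 1) - 1) 0 - μ) - 1) ≤ P := by
      rw [hP]
      apply integral_mono _ hPp.integrable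
      · intro x
        simp only
        rw [pt_Pe hθ hn (hr0 x)]
        have h2 := slk_nonneg hn1 (by linarith : 0 ≤ 1 + μ) (hup0 x)
        unfold slk at h2
        have h3 : (1 + μ) ^ (n - 1) * (1 + μ) = (1 + μ) ^ n := rpow_sub_mul hn1 (by linarith)
        nlinarith
      · exact ((BF.const _).add ((BF.const_mul _ (hup.sub (BF.const μ)))) |>.sub
          (BF.const 1)).integrable
    rw [integral_sub ((BF.const _).add (BF.const_mul _ (hup.sub (BF.const μ)))).integrable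
      (BF.const 1).integrable, integral_add (BF.const _).integrable
      (BF.const_mul _ (hup.sub (BF.const μ))).integrable, integral_const_mul,
      integral_sub hup.integrable (BF.const μ).integrable, ← hμ] at h1
    simpa using h1
  have hPm1 : Pm ≤ τ + d := by
    rw [hPmdef, hτ, hdd, ← integral_add hum.integrable hrm.integrable]
    exact integral_mono hPm.integrable (hum.add hrm).integrable fun x => pt_Pm hθ (hr0 x)
  have hτd : τ ≤ (θ - 1) * d := by
    rw [hτ, hdd, ← integral_const_mul]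
    exact integral_mono hum.integrable (BF.const_mul _ hrm).integrable fun x => pt_um hθ (hr0 x)
  have hRP : R = 1 + P - Pm := by
    have h1 : ∀ x, r x ^ θ = 1 + max (r x ^ θ - 1) 0 - max (1 - r x ^ θ) 0 := fun x =>
      pt_split _
    rw [hR]
    calc ∫ x, r x ^ θ = ∫ x, (1 + max (r x ^ θ - 1) 0 - max (1 - r x ^ θ) 0) := by
          congr 1
          ext x
          exact h1 x
      _ = 1 + P - Pm := by
          rw [integral_sub ((BF.const 1).add hPp).integrable hPm.integrable,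
            integral_add (BF.const 1).integrable hPp.integrable, ← hP, ← hPmdef]
          simp
  rw [← hR] at hR0
  have hfin := fin_scalar hθ hn hρ0 hμ0 hτ0 hd0 hE1 hE2 hP1 hP2 hPm1 hτd hRP hR0
  -- the kernel
  have hK : ∫ x, ∫ y, Dl n (r x ^ (θ - 1)) (r y ^ (θ - 1)) ≤
      E - 2 * n * ρ * τ + θ * (τ * d) := by
    have h1 : ∫ x, ∫ y, Dl n (r x ^ (θ - 1)) (r y ^ (θ - 1)) ≤ ∫ x, ∫ y,
        ((Dl n (1 + max (r x ^ (θ - 1) - 1) 0) (1 + max (r y ^ (θ - 1) - 1) 0) -
        (n * (max (r x - 1) 0 * max (1 - r y ^ (θ - 1)) 0) +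
        n * (max (1 - r x ^ (θ - 1)) 0 * max (r y - 1) 0))) +
        θ * (max (1 - r x ^ (θ - 1)) 0 * max (1 - r y) 0)) := by
      apply BK.int_mono (BK.Dl hu hu0 hn0)
      · exact ((BK.Dl hup1 hup0 hn0).sub ((BK.const_mul n ((BK.left hrp).mul (BK.right hum))).add
          (BK.const_mul n ((BK.left hum).mul (BK.right hrp))))).add
          (BK.const_mul θ ((BK.left hum).mul (BK.right hrm)))
      · intro x y
        exact pt_Dl hθ hn (hr0 x) (hr0 y)
    rw [BK.int_add ((BK.Dl hup1 hup0 hn0).sub ((BK.const_mul n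
        ((BK.left hrp).mul (BK.right hum))).add
          (BK.const_mul n ((BK.left hum).mul (BK.right hrp)))))
          (BK.const_mul θ ((BK.left hum).mul (BK.right hrm))),
      BK.int_sub (BK.Dl hup1 hup0 hn0) ((BK.const_mul n ((BK.left hrp).mul (BK.right hum))).add
          (BK.const_mul n ((BK.left hum).mul (BK.right hrp)))),
      BK.int_add (BK.const_mul n ((BK.left hrp).mul (BK.right hum)))
          (BK.const_mul n ((BK.left hum).mul (BK.right hrp))),
      BK.int_mul, BK.int_mul, BK.int_mul, BK.int_prod, BK.int_prod, BK.int_prod, ← hE, ← hρ,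
      ← hτ, ← hdd] at h1
    linarith
  have hI := Dl_int hu hu0 hn0
  have e1 : ∫ x, (r x ^ (θ - 1)) ^ n = R := by
    rw [hR]
    congr 1
    ext x
    exact (pt_pow hθ hn (hr0 x)).2
  rw [e1] at hI
  rw [hI] at hK
  rw [← hR] at hd ⊢
  have hdD : d ≤ D := by
    refine le_trans ?_ hD
    have hδ : BK (fun x y => max (1 - Y x y) 0) := ((BK.const 1).sub hY).maxz
    rw [hdd]
    apply integral_mono hrm.integrable hδ.iter'.integrable
    intro x
    simp only
    apply max_le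
    · rw [← hr' x]
      have h1 : ∫ y, (1 - Y x y) ≤ ∫ y, max (1 - Y x y) 0 :=
        integral_mono (((BF.const 1).sub (hY.row x))).integrable (hδ.row x).integrable
          fun y => le_max_left _ _
      rw [integral_sub (BF.const 1).integrable (hY.row x).integrable] at h1
      simpa using h1
    · exact integral_nonneg fun y => le_max_right _ _
  have hK0 : 0 ≤ θ * (θ ^ 2 - θ + 2) / 2 := by
    have : 0 ≤ θ ^ 2 - θ + 2 := by nlinarith
    positivity
  have hdD2 : (θ * (θ ^ 2 - θ + 2) / 2) * d ^ 2 ≤ (θ * (θ ^ 2 - θ + 2) / 2) * D ^ 2 :=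
    mul_le_mul_of_nonneg_left (pow_le_pow_left₀ hd0 hdD 2) hK0
  have hK2 := mul_le_mul_of_nonneg_left hK (by linarith : 0 ≤ (1 / 2) * (θ - 1))
  linarith

end Pool.Agent.W_bbc525_ends
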