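import Pool.Agent.W_bbc525_ends.Base

/-!
# The main inequality, in terms of the excess of the edges
-/

set_option autoImplicit false

namespace Pool.Agent.W_bbc525_ends

open MeasureTheory Finset Pool.Agent.W_MP_bbc525_pr Pool.Agent.W_bbc525_h89 Pool.Agent.W_bbc525_td

section one

variable (W : Graphon) (q : ℝ)

/-- `(W / q) ^ b` -/
noncomputable def YY (b : ℕ) (x y : unitInterval) : ℝ := (W.W x y / q) ^ b

variable {W q}

theorem YY_nonneg (hq : 0 < q) (b : ℕ) (x y : unitInterval) : 0 ≤ YY W q b x y :=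
  pow_nonneg (div_nonneg (W.nonneg _ _) hq.le) _

theorem YY_symm (b : ℕ) (x y : unitInterval) : YY W q b x y = YY W q b y x := by
  unfold YY
  rw [W.symm]

theorem XX_le (hq : 0 < q) (x y : unitInterval) : W.W x y / q ≤ 1 / q :=
  div_le_div_of_nonneg_right (W.le_one _ _) hq.le

theorem BK.XX (hq : 0 < q) : BK (fun x y => W.W x y / q) := by
  refine ⟨W.measurable.div_const q, 1 / q, fun x y => ?_⟩
  rw [abs_of_nonneg (div_nonneg (W.nonneg _ _) hq.le)]
  exact XX_le hq x y

theorem BK.YY (hq : 0 < q) (b : ℕ) : BK (YY W q b) := (BK.XX hq).pow b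

theorem YY_row (b : ℕ) (x : unitInterval) : ∫ y, YY W q b x y = inn W b x / q ^ b := by
  unfold YY inn
  simp only [div_pow]
  rw [integral_div]

theorem YY_mom (hq : 0 < q) (b : ℕ) : ∫ x, ∫ y, YY W q b x y = W.mom b / q ^ b := by
  simp only [YY_row]
  rw [integral_div, ← mom_eq_inn]

variable (W q)

/-- the excess of the mixed norm -/
noncomputable def Exc (a b : ℕ) : ℝ := (∫ x, zet ((a : ℝ) / b) (∫ y, YY W q b x y)) -
  (1 / 2) * ∫ x, ∫ y, zet ((a : ℝ) / b) (YY W q b x y)

variable {W q}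

theorem YY_rpow (hq : 0 < q) {a b : ℕ} (hb : 0 < b) (x y : unitInterval) :
    YY W q b x y ^ ((a : ℝ) / b) = YY W q a x y := by
  have hb' : (b : ℝ) ≠ 0 := by exact_mod_cast hb.ne'
  have h0 : 0 ≤ W.W x y / q := div_nonneg (W.nonneg _ _) hq.le
  unfold YY
  rw [← Real.rpow_natCast (W.W x y / q) b, ← Real.rpow_mul h0, mul_div_cancel₀ _ hb',
    Real.rpow_natCast]

theorem exc_eq (hq : 0 < q) {a b : ℕ} (hb : 0 < b) (hba : b ≤ a) :
    (mix W a b / q ^ a - 1) / a = (1 / 2) * ((W.mom a / q ^ a - 1) / a) +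
      (1 / 2) * ((W.mom b / q ^ b - 1) / b) + Exc W q a b / a := by
  have hb' : (0 : ℝ) < b := by exact_mod_cast hb
  have ha' : (0 : ℝ) < a := by exact_mod_cast lt_of_lt_of_le hb hba
  have hθ : 0 ≤ (a : ℝ) / b := by positivity
  have hY := BK.YY (W := W) hq b
  have h0 := YY_nonneg (W := W) hq b
  have hr : BF (fun x => ∫ y, YY W q b x y) := hY.iter'
  have hr0 : ∀ x, 0 ≤ ∫ y, YY W q b x y := fun x => integral_nonneg fun y => h0 x y
  have e1 : ∫ x, zet ((a : ℝ) / b) (∫ y, YY W q b x y) =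
      mix W a b / q ^ a - 1 - (a : ℝ) / b * (W.mom b / q ^ b - 1) := by
    unfold zet
    have i1 := hr.rpow hr0 hθ
    have h1 := (i1.sub (BF.const 1)).int_sub (BF.const_mul ((a : ℝ) / b) (hr.sub (BF.const 1)))
      Set.univ
    rw [i1.int_sub (BF.const 1), BF.int_mul, hr.int_sub (BF.const 1)] at h1
    simp only [Measure.restrict_univ] at h1
    rw [h1, YY_mom hq]
    have e2 : ∫ x, (∫ y, YY W q b x y) ^ ((a : ℝ) / b) = mix W a b / q ^ a := by
      have e3 : ∀ x, (∫ y, YY W q b x y) ^ ((a : ℝ) / b) = inn W b x ^ ((a : ℝ) / b) / q ^ a := by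
        intro x
        rw [YY_row, Real.div_rpow (inn_nonneg W b x) (by positivity), ← Real.rpow_natCast q b,
          ← Real.rpow_mul hq.le, mul_div_cancel₀ _ hb'.ne', Real.rpow_natCast]
      simp only [e3]
      rw [integral_div]
      rfl
    rw [e2]
    simp
  have e2 : ∫ x, ∫ y, zet ((a : ℝ) / b) (YY W q b x y) =
      W.mom a / q ^ a - 1 - (a : ℝ) / b * (W.mom b / q ^ b - 1) := by
    have e3 : ∀ x, ∫ y, zet ((a : ℝ) / b) (YY W q b x y) = (∫ y, YY W q a x y) - 1 -
        (a : ℝ) / b * ((∫ y, YY W q b x y) - 1) := by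
      intro x
      unfold zet
      have e4 : ∀ y, YY W q b x y ^ ((a : ℝ) / b) = YY W q a x y := fun y => YY_rpow hq hb x y
      simp only [e4]
      have hYa := (BK.YY (W := W) hq a).row x
      have hYb := (BK.YY (W := W) hq b).row x
      have h1 := (hYa.sub (BF.const 1)).int_sub
        (BF.const_mul ((a : ℝ) / b) (hYb.sub (BF.const 1))) Set.univ
      rw [hYa.int_sub (BF.const 1), BF.int_mul, hYb.int_sub (BF.const 1)] at h1
      simp only [Measure.restrict_univ] at h1
      rw [h1]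
      simp
    simp only [e3]
    have ha := (BK.YY (W := W) hq a).iter'
    have h1 := (ha.sub (BF.const 1)).int_sub
      (BF.const_mul ((a : ℝ) / b) (hr.sub (BF.const 1))) Set.univ
    rw [ha.int_sub (BF.const 1), BF.int_mul, hr.int_sub (BF.const 1)] at h1
    simp only [Measure.restrict_univ] at h1
    rw [h1, YY_mom hq, YY_mom hq]
    simp
  unfold Exc
  rw [e1, e2]
  field_simp
  ring

end one

section graph

variable {V : Type*} [Fintype V] [DecidableEq V] (H : SimpleGraph V) [DecidableRel H.Adj]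

/-- the potential `Ψ(X) = (1 / 2e) ∑_v (X ^ {d_v} - 1) - (X - 1)` -/
noncomputable def PsiV (X : ℝ) : ℝ :=
  1 / (2 * (H.edgeFinset.card : ℝ)) * ∑ v, (X ^ H.degree v - 1) - (X - 1)

variable {H}

theorem feas_mix {q : ℝ} (hq : 0 < q) (W : Graphon)
    (hW : q ^ H.edgeFinset.card ≤ homDensity H W) :
    0 ≤ ∑ e ∈ H.edgeFinset,
      (mix W (mdeg H e) (ndeg H e) / q ^ mdeg H e - 1) / (mdeg H e : ℝ) := by
  have h1 := hW.trans (homDensity_le_mix H W)
  have h2 : (1 : ℝ) ≤ ∏ e ∈ H.edgeFinset,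
      (mix W (mdeg H e) (ndeg H e) / q ^ mdeg H e) ^ (1 / (mdeg H e : ℝ)) := by
    have e1 : ∏ e ∈ H.edgeFinset,
        (mix W (mdeg H e) (ndeg H e) / q ^ mdeg H e) ^ (1 / (mdeg H e : ℝ)) =
        (∏ e ∈ H.edgeFinset, mix W (mdeg H e) (ndeg H e) ^ (1 / (mdeg H e : ℝ))) /
          q ^ H.edgeFinset.card := by
      rw [← Finset.prod_const, ← Finset.prod_div_distrib]
      refine Finset.prod_congr rfl fun e he => ?_
      have ha : (mdeg H e : ℝ) ≠ 0 := by exact_mod_cast (mdeg_pos H he).ne'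
      rw [Real.div_rpow (mix_nonneg W _ _) (by positivity), ← Real.rpow_natCast q (mdeg H e),
        ← Real.rpow_mul hq.le, mul_one_div_cancel ha, Real.rpow_one]
    rw [e1, le_div_iff₀ (by positivity), one_mul]
    exact h1
  have h3 : ∏ e ∈ H.edgeFinset,
      (mix W (mdeg H e) (ndeg H e) / q ^ mdeg H e) ^ (1 / (mdeg H e : ℝ)) ≤
      ∏ e ∈ H.edgeFinset,
        Real.exp ((mix W (mdeg H e) (ndeg H e) / q ^ mdeg H e - 1) / (mdeg H e : ℝ)) := by
    refine Finset.prod_le_prod (fun e _ => Real.rpow_nonneg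
      (div_nonneg (mix_nonneg W _ _) (by positivity)) _) fun e he => ?_
    have ha : (0 : ℝ) < mdeg H e := by exact_mod_cast mdeg_pos H he
    have ht : 0 ≤ mix W (mdeg H e) (ndeg H e) / q ^ mdeg H e :=
      div_nonneg (mix_nonneg W _ _) (by positivity)
    rcases ht.eq_or_lt with h | h
    · rw [← h, Real.zero_rpow (by positivity)]
      exact (Real.exp_pos _).le
    · rw [Real.rpow_def_of_pos h]
      apply Real.exp_le_exp.2
      rw [mul_one_div]
      apply div_le_div_of_nonneg_right _ ha.le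
      exact Real.log_le_sub_one_of_pos h
  have h4 := h2.trans h3
  rw [← Real.exp_sum] at h4
  exact Real.one_le_exp_iff.1 h4

/-- the vertex condition in terms of `Ψ` -/
theorem Ncond.psi (hE : 0 < H.edgeFinset.card) {p q : ℝ} (hp : 0 < p) (hpq : p ≤ q)
    (hq1 : q < 1) (hN : Ncond H p q) :
    ∀ X, 0 ≤ X → X ≤ 1 / q → q * (logit q - logit p) * PsiV H X ≤ dd q X := by
  intro X hX hX'
  have hq : 0 < q := lt_of_lt_of_le hp hpq
  have hp1 : p < 1 := lt_of_le_of_lt hpq hq1
  have hE' : (0:ℝ) < H.edgeFinset.card := by exact_mod_cast hE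
  have h1 : q * X ≤ 1 := by
    rw [le_div_iff₀ hq] at hX'
    linarith
  have h2 := hN (q * X) (by positivity) h1
  rw [relEnt_shift hp hp1 hq hq1 (by positivity) h1, mul_div_cancel_left₀ _ hq.ne'] at h2
  unfold dd PsiV
  have e3 : q * (logit q - logit p) * (1 / (2 * (H.edgeFinset.card : ℝ)) *
      ∑ v, (X ^ H.degree v - 1) - (X - 1)) =
      q * (logit q - logit p) / (2 * (H.edgeFinset.card : ℝ)) * ∑ v, (X ^ H.degree v - 1) -
        (logit q - logit p) * (q * X - q) := by
    field_simp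
  rw [e3]
  linarith

theorem measurable_dd (q : ℝ) : Measurable (dd q) := by
  unfold dd relEnt
  fun_prop

theorem BK.dd {q : ℝ} (hq : 0 < q) (hq1 : q < 1) (W : Graphon) :
    BK (fun x y => dd q (W.W x y / q)) := by
  apply (BK.XX hq).comp (measurable_dd q)
  obtain ⟨C, hC⟩ := (isCompact_Icc (a := (0 : ℝ)) (b := 1 / q)).exists_bound_of_continuousOn
    (continuousOn_dd hq hq1)
  refine ⟨C, fun x y => ?_⟩
  have := hC (W.W x y / q) ⟨div_nonneg (W.nonneg _ _) hq.le, XX_le hq x y⟩
  rwa [Real.norm_eq_abs] at this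

theorem continuous_PsiV : Continuous (PsiV H) := by
  unfold PsiV
  fun_prop

theorem BK.psiV {q : ℝ} (hq : 0 < q) (W : Graphon) :
    BK (fun x y => PsiV H (W.W x y / q)) := by
  apply (BK.XX hq).comp continuous_PsiV.measurable
  obtain ⟨C, hC⟩ := (isCompact_Icc (a := (0 : ℝ)) (b := 1 / q)).exists_bound_of_continuousOn
    (continuous_PsiV (H := H)).continuousOn
  refine ⟨C, fun x y => ?_⟩
  have := hC (W.W x y / q) ⟨div_nonneg (W.nonneg _ _) hq.le, XX_le hq x y⟩
  rwa [Real.norm_eq_abs] at this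

theorem cost_eq_dd {q : ℝ} (hq : 0 < q) (hq1 : q < 1) (W : Graphon) :
    cost q W = ∫ x, ∫ y, dd q (W.W x y / q) := by
  rw [← (BK.dd hq hq1 W).prod]
  unfold cost dd
  simp only [mul_div_cancel₀ _ hq.ne']

theorem int_PsiV {q : ℝ} (hq : 0 < q) (W : Graphon) :
    ∫ x, ∫ y, PsiV H (W.W x y / q) = 1 / (2 * (H.edgeFinset.card : ℝ)) *
      ∑ v, (W.mom (H.degree v) / q ^ H.degree v - 1) - (W.mean / q - 1) := by
  rw [← (BK.psiV (H := H) hq W).prod]
  unfold PsiV
  have i1 : ∀ k : ℕ, Integrable (fun z : unitInterval × unitInterval =>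
      (W.W z.1 z.2 / q) ^ k - 1) := by
    intro k
    obtain ⟨C, hC⟩ := (((BK.XX (W := W) hq).pow k).sub (BK.const 1)).bdd
    exact Graphon.integrable_of_bdd (((BK.XX (W := W) hq).pow k).sub (BK.const 1)).meas
      (C := C) fun z => hC z.1 z.2
  have e1 : ∀ k : ℕ, ∫ z : unitInterval × unitInterval, ((W.W z.1 z.2 / q) ^ k - 1) =
      W.mom k / q ^ k - 1 := by
    intro k
    have h := (((BK.XX (W := W) hq).pow k)).prod
    have h2 := YY_mom (W := W) hq k
    unfold YY at h2
    rw [h2] at h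
    have i2 : Integrable (fun z : unitInterval × unitInterval => (W.W z.1 z.2 / q) ^ k) := by
      have := (i1 k).add (integrable_const 1)
      refine this.congr (Filter.Eventually.of_forall fun z => ?_)
      simp
    rw [integral_sub i2 (integrable_const 1), h]
    simp
  have e2 : ∫ z : unitInterval × unitInterval, (W.W z.1 z.2 / q - 1) = W.mean / q - 1 := by
    have := e1 1
    simp only [pow_one] at this
    rw [this, Graphon.mom_one]
  have i3 : Integrable (fun z : unitInterval × unitInterval => W.W z.1 z.2 / q - 1) := by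
    have := i1 1
    simpa only [pow_one] using this
  rw [integral_sub ((integrable_finsetSum _ fun v _ => i1 (H.degree v)).const_mul _) i3,
    integral_const_mul, integral_finsetSum _ fun v _ => i1 (H.degree v), e2]
  simp only [e1]

/-- **The main inequality.** -/
theorem star_ineq (hE : 0 < H.edgeFinset.card) {p q : ℝ} (hp : 0 < p) (hpq : p ≤ q)
    (hq1 : q < 1) (W : Graphon) (hc : cost p W ≤ relEnt p q) :
    (∫ x, ∫ y, (dd q (W.W x y / q) - q * (logit q - logit p) * PsiV H (W.W x y / q))) +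
      q * (logit q - logit p) / H.edgeFinset.card * ∑ e ∈ H.edgeFinset,
        (mix W (mdeg H e) (ndeg H e) / q ^ mdeg H e - 1) / (mdeg H e : ℝ) ≤
      q * (logit q - logit p) / H.edgeFinset.card * ∑ e ∈ H.edgeFinset,
        Exc W q (mdeg H e) (ndeg H e) / (mdeg H e : ℝ) := by
  have hq : 0 < q := lt_of_lt_of_le hp hpq
  have hp1 : p < 1 := lt_of_le_of_lt hpq hq1
  have hE' : (0:ℝ) < H.edgeFinset.card := by exact_mod_cast hE
  set T := q * (logit q - logit p) with hT
  set m : ℕ → ℝ := fun k => W.mom k / q ^ k with hm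
  have hm0 : m 0 = 1 := by
    rw [hm]
    simp [Graphon.mom]
  have h1 : ∫ x, ∫ y, (dd q (W.W x y / q) - T * PsiV H (W.W x y / q)) =
      cost q W - T * (1 / (2 * (H.edgeFinset.card : ℝ)) *
        ∑ v, (m (H.degree v) - 1) - (W.mean / q - 1)) := by
    have i1 := BK.dd hq hq1 W
    have i2 := BK.const_mul T (BK.psiV (H := H) hq W)
    have e1 : ∀ x, ∫ y, (dd q (W.W x y / q) - T * PsiV H (W.W x y / q)) =
        (∫ y, dd q (W.W x y / q)) - T * ∫ y, PsiV H (W.W x y / q) := by
      intro x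
      have := (i1.row x).int_sub (i2.row x) Set.univ
      simp only [Measure.restrict_univ] at this
      rw [this, integral_const_mul]
    simp only [e1]
    have := (i1.iter').int_sub (BF.const_mul T (BK.psiV (H := H) hq W).iter') Set.univ
    simp only [Measure.restrict_univ] at this
    rw [this, integral_const_mul, ← cost_eq_dd hq hq1, int_PsiV hq]
  have h2 : ∑ e ∈ H.edgeFinset, (mix W (mdeg H e) (ndeg H e) / q ^ mdeg H e - 1) /
      (mdeg H e : ℝ) = (1 / 2) * (∑ v, (m (H.degree v) - 1)) +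
      ∑ e ∈ H.edgeFinset, Exc W q (mdeg H e) (ndeg H e) / (mdeg H e : ℝ) := by
    rw [← sum_psi (H := H) hm0, Finset.mul_sum, ← Finset.sum_add_distrib]
    refine Finset.sum_congr rfl fun e he => ?_
    rw [exc_eq hq (ndeg_pos H he) (ndeg_le_mdeg H e)]
    unfold psi
    rw [hm]
    ring
  have h3 := cost_shift hp hp1 hq hq1 W
  have h4 : cost q W + T * (W.mean / q - 1) ≤ 0 := by
    have e1 : T * (W.mean / q - 1) = (logit q - logit p) * (W.mean - q) := by
      rw [hT]
      field_simp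
    rw [e1, ← h3]
    linarith
  rw [h1, h2]
  have e5 : T / (H.edgeFinset.card : ℝ) * ((1 / 2) * (∑ v, (m (H.degree v) - 1)) +
      ∑ e ∈ H.edgeFinset, Exc W q (mdeg H e) (ndeg H e) / (mdeg H e : ℝ)) =
      T * (1 / (2 * (H.edgeFinset.card : ℝ)) * ∑ v, (m (H.degree v) - 1)) +
      T / (H.edgeFinset.card : ℝ) *
        ∑ e ∈ H.edgeFinset, Exc W q (mdeg H e) (ndeg H e) / (mdeg H e : ℝ) := by
    field_simp
  rw [e5]
  have e6 : T * (1 / (2 * (H.edgeFinset.card : ℝ)) * ∑ v, (m (H.degree v) - 1) -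
      (W.mean / q - 1)) = T * (1 / (2 * (H.edgeFinset.card : ℝ)) *
        ∑ v, (m (H.degree v) - 1)) - T * (W.mean / q - 1) := by ring
  rw [e6]
  linarith

end graph

end Pool.Agent.W_bbc525_ends
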