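import Pool.Agent.W_bbc525_ends.Ker

/-!
# The excess of the mixed norm over the moments
-/

set_option autoImplicit false

namespace Pool.Agent.W_bbc525_ends

open MeasureTheory Finset Pool.Agent.W_MP_bbc525_pr Pool.Agent.W_bbc525_h89

/-- `ζ(y) = y ^ θ - 1 - θ (y - 1)` -/
noncomputable def zet (θ y : ℝ) : ℝ := y ^ θ - 1 - θ * (y - 1)

/-- the gap in the inequality of Young, `y ^ θ - θ r ^ (θ - 1) y + (θ - 1) r ^ θ` -/
noncomputable def slk (θ r y : ℝ) : ℝ := y ^ θ - θ * r ^ (θ - 1) * y + (θ - 1) * r ^ θ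

theorem zet_nonneg {θ y : ℝ} (hθ : 1 ≤ θ) (hy : 0 ≤ y) : 0 ≤ zet θ y := by
  have h := one_add_mul_self_le_rpow_one_add (s := y - 1) (by linarith) hθ
  unfold zet
  have e : 1 + (y - 1) = y := by ring
  rw [e] at h
  linarith

theorem slk_nonneg {θ r y : ℝ} (hθ : 1 < θ) (hr : 0 ≤ r) (hy : 0 ≤ y) : 0 ≤ slk θ r y := by
  rcases hr.eq_or_lt with h | h
  · subst h
    unfold slk
    rw [Real.zero_rpow (by linarith), Real.zero_rpow (by linarith)]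
    have := Real.rpow_nonneg hy θ
    linarith
  · have h1 := zet_nonneg hθ.le (div_nonneg hy hr)
    have h2 : 0 < r ^ θ := Real.rpow_pos_of_pos h θ
    have h3 := mul_nonneg h2.le h1
    unfold zet at h3
    rw [Real.div_rpow hy hr] at h3
    have e1 : r ^ (θ - 1) = r ^ θ / r := Real.rpow_sub_one h.ne' θ
    unfold slk
    rw [e1]
    have e2 : r ^ θ * (y ^ θ / r ^ θ - 1 - θ * (y / r - 1)) =
        y ^ θ - θ * (r ^ θ / r) * y + (θ - 1) * r ^ θ := by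
      field_simp
      ring
    rwa [e2] at h3

theorem rpow_sub_mul {θ r : ℝ} (hθ : 1 < θ) (hr : 0 ≤ r) : r ^ (θ - 1) * r = r ^ θ := by
  rcases hr.eq_or_lt with h | h
  · subst h
    rw [mul_zero, Real.zero_rpow (by linarith)]
  · rw [Real.rpow_sub_one h.ne']
    field_simp

/-- `θ r ^ (θ-1) y ≤ y ^ θ / 2 + C r ^ θ` -/
theorem young_half {θ r y : ℝ} (hθ : 1 < θ) (hr : 0 ≤ r) (hy : 0 ≤ y) :
    θ * r ^ (θ - 1) * y ≤ y ^ θ / 2 + θ * (2 * θ) ^ (1 / (θ - 1)) * r ^ θ := by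
  have hθ1 : 0 < θ - 1 := by linarith
  have hθ0 : 0 < θ := by linarith
  have hC : 0 < (2 * θ) ^ (1 / (θ - 1)) := Real.rpow_pos_of_pos (by linarith) _
  have hrθ : 0 ≤ r ^ θ := Real.rpow_nonneg hr θ
  have hyθ : 0 ≤ y ^ θ := Real.rpow_nonneg hy θ
  rcases le_or_gt (2 * θ * r ^ (θ - 1)) (y ^ (θ - 1)) with h | h
  · have h1 := mul_le_mul_of_nonneg_right h hy
    rw [rpow_sub_mul hθ hy] at h1
    have h2 : 0 ≤ θ * (2 * θ) ^ (1 / (θ - 1)) * r ^ θ := by positivity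
    linarith
  · have h1 : y ≤ (2 * θ) ^ (1 / (θ - 1)) * r := by
      have h2 := Real.rpow_le_rpow (Real.rpow_nonneg hy _) h.le
        (by positivity : 0 ≤ 1 / (θ - 1))
      rw [← Real.rpow_mul hy, mul_one_div_cancel hθ1.ne', Real.rpow_one,
        Real.mul_rpow (by linarith) (Real.rpow_nonneg hr _), ← Real.rpow_mul hr,
        mul_one_div_cancel hθ1.ne', Real.rpow_one] at h2
      exact h2
    have h2 : θ * r ^ (θ - 1) * y ≤ θ * r ^ (θ - 1) * ((2 * θ) ^ (1 / (θ - 1)) * r) :=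
      mul_le_mul_of_nonneg_left h1 (mul_nonneg hθ0.le (Real.rpow_nonneg hr _))
    have h3 : θ * r ^ (θ - 1) * ((2 * θ) ^ (1 / (θ - 1)) * r) =
        θ * (2 * θ) ^ (1 / (θ - 1)) * r ^ θ := by
      rw [← rpow_sub_mul hθ hr]
      ring
    linarith

/-- the constant of `young_half` -/
noncomputable def yc (θ : ℝ) : ℝ := θ * (2 * θ) ^ (1 / (θ - 1))

theorem yc_nonneg {θ : ℝ} (hθ : 1 < θ) : 0 ≤ yc θ :=
  mul_nonneg (by linarith) (Real.rpow_nonneg (by linarith) _)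

section kernel

variable {Y : unitInterval → unitInterval → ℝ} {θ : ℝ} {S : Set unitInterval}

theorem BK.zet (hY : BK Y) (h0 : ∀ x y, 0 ≤ Y x y) (hθ : 1 < θ) :
    BK (fun x y => zet θ (Y x y)) :=
  (((hY.rpow h0 (by linarith : 0 ≤ θ)).sub (BK.const 1)).sub
    (BK.const_mul θ (hY.sub (BK.const 1))))

theorem BF.zet {r : unitInterval → ℝ} (hr : BF r) (h0 : ∀ x, 0 ≤ r x) (hθ : 1 < θ) :
    BF (fun x => zet θ (r x)) :=
  (((hr.rpow h0 (by linarith : 0 ≤ θ)).sub (BF.const 1)).sub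
    (BF.const_mul θ (hr.sub (BF.const 1))))

theorem BK.slk (hY : BK Y) (h0 : ∀ x y, 0 ≤ Y x y) (hθ : 1 < θ) {r : unitInterval → ℝ}
    (hr : BF r) (hr0 : ∀ x, 0 ≤ r x) : BK (fun x y => slk θ (r x) (Y x y)) :=
  ((hY.rpow h0 (by linarith : 0 ≤ θ)).sub
    ((BK.const_mul θ (BK.left (hr.rpow hr0 (by linarith : 0 ≤ θ - 1)))).mul hY)).add
    (BK.const_mul (θ - 1) (BK.left (hr.rpow hr0 (by linarith : 0 ≤ θ))))

/-- the identity for one row -/
theorem row_id (hY : BK Y) (h0 : ∀ x y, 0 ≤ Y x y) (hθ : 1 < θ) (hS : MeasurableSet S)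
    (x : unitInterval) :
    zet θ (∫ y, Y x y) + ∫ y in Sᶜ, slk θ (∫ y, Y x y) (Y x y) =
      (∫ y in Sᶜ, zet θ (Y x y)) + θ * ((∫ y, Y x y) ^ (θ - 1) - 1) * (∫ y in S, Y x y) -
        (θ - 1) * ln S * ((∫ y, Y x y) ^ θ - 1) := by
  have hr0 : 0 ≤ ∫ y, Y x y := integral_nonneg fun y => h0 x y
  have hsp := hY.split hS x
  have hYr := hY.row x
  have hYt : BF (fun y => Y x y ^ θ) := (hY.rpow h0 (by linarith : 0 ≤ θ)).row x
  set r := ∫ y, Y x y with hr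
  have e1 : ∫ y in Sᶜ, slk θ r (Y x y) = (∫ y in Sᶜ, Y x y ^ θ) -
      θ * r ^ (θ - 1) * (∫ y in Sᶜ, Y x y) + (θ - 1) * r ^ θ * (1 - ln S) := by
    unfold slk
    have i2 := BF.const_mul (θ * r ^ (θ - 1)) hYr
    rw [(hYt.sub i2).int_add (BF.const _), hYt.int_sub i2, BF.int_mul, set_const, ln_compl hS]
    ring
  have e2 : ∫ y in Sᶜ, zet θ (Y x y) = (∫ y in Sᶜ, Y x y ^ θ) - θ * (∫ y in Sᶜ, Y x y) +
      (θ - 1) * (1 - ln S) := by
    unfold zet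
    have i3 := hYr.sub (BF.const 1)
    rw [(hYt.sub (BF.const 1)).int_sub (BF.const_mul θ i3), hYt.int_sub (BF.const 1), BF.int_mul,
      hYr.int_sub (BF.const 1), set_const, ln_compl hS]
    ring
  rw [e1, e2]
  unfold zet
  have e3 := rpow_sub_mul hθ hr0
  have e4 : (∫ y in Sᶜ, Y x y) = r - ∫ y in S, Y x y := by linarith
  rw [e4, ← e3]
  ring

/-- the inequality for one row -/
theorem row_le (hY : BK Y) (h0 : ∀ x y, 0 ≤ Y x y) (hθ : 1 < θ) (hS : MeasurableSet S)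
    (x : unitInterval) :
    zet θ (∫ y, Y x y) + ∫ y in Sᶜ, slk θ (∫ y, Y x y) (Y x y) ≤
      (∫ y in Sᶜ, zet θ (Y x y)) + (1 / 2) * (∫ y in S, zet θ (Y x y)) +
        (yc θ * ln S) * (∫ y, Y x y) ^ θ + (θ - 1) * ln S := by
  have hr0 : 0 ≤ ∫ y, Y x y := integral_nonneg fun y => h0 x y
  rw [row_id hY h0 hθ hS x]
  set r := ∫ y, Y x y with hr
  have hYr := hY.row x
  have h1 : θ * (r ^ (θ - 1) - 1) * (∫ y in S, Y x y) ≤
      (1 / 2) * (∫ y in S, zet θ (Y x y)) + yc θ * ln S * r ^ θ := by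
    have h2 : ∫ y in S, θ * (r ^ (θ - 1) - 1) * Y x y ≤
        ∫ y in S, ((1 / 2) * zet θ (Y x y) + yc θ * r ^ θ) := by
      apply BF.mono (BF.const_mul _ hYr) ((BF.const_mul _ ((BK.zet hY h0 hθ).row x)).add
        (BF.const _)) hS
      intro y _
      have h3 := young_half hθ hr0 (h0 x y)
      have h4 := h0 x y
      unfold zet yc
      nlinarith
    rw [BF.int_mul] at h2
    refine h2.trans (le_of_eq ?_)
    rw [(BF.const_mul _ ((BK.zet hY h0 hθ).row x)).int_add (BF.const _), BF.int_mul, set_const]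
    ring
  have h5 : 0 ≤ (θ - 1) * ln S * r ^ θ :=
    mul_nonneg (mul_nonneg (by linarith) (ln_nonneg S)) (Real.rpow_nonneg hr0 θ)
  linarith

/-- **The excess inequality.** -/
theorem exc_le (hY : BK Y) (h0 : ∀ x y, 0 ≤ Y x y) (hsym : ∀ x y, Y x y = Y y x) (hθ : 1 < θ)
    (hS : MeasurableSet S) :
    (∫ x, zet θ (∫ y, Y x y)) - (1 / 2) * ∫ x, ∫ y, zet θ (Y x y) ≤
      (yc θ * ln S) * (∫ x in S, (∫ y, Y x y) ^ θ) + (θ - 1) * ln S ^ 2 +
      (∫ x in Sᶜ, zet θ (∫ y, Y x y)) - (1 / 2) * (∫ x in Sᶜ, ∫ y in Sᶜ, zet θ (Y x y)) -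
      ∫ x in S, ∫ y in Sᶜ, slk θ (∫ y, Y x y) (Y x y) := by
  have hr : BF (fun x => ∫ y, Y x y) := hY.iter'
  have hr0 : ∀ x, 0 ≤ ∫ y, Y x y := fun x => integral_nonneg fun y => h0 x y
  have hZ := BK.zet hY h0 hθ
  have hz := BF.zet hr hr0 hθ
  have hSl := BK.slk hY h0 hθ hr hr0
  -- the rows of `S`
  have h1 : ∫ x in S, (zet θ (∫ y, Y x y) + ∫ y in Sᶜ, slk θ (∫ y, Y x y) (Y x y)) ≤
      ∫ x in S, ((∫ y in Sᶜ, zet θ (Y x y)) + (1 / 2) * (∫ y in S, zet θ (Y x y)) +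
        (yc θ * ln S) * (∫ y, Y x y) ^ θ + (θ - 1) * ln S) := by
    apply BF.mono (hz.add (hSl.iter _)) ((((hZ.iter _).add (BF.const_mul _ (hZ.iter _))).add
      (BF.const_mul _ (hr.rpow hr0 (by linarith : 0 ≤ θ)))).add (BF.const _)) hS
    intro x _
    exact row_le hY h0 hθ hS x
  rw [hz.int_add (hSl.iter _),
    (((hZ.iter _).add (BF.const_mul _ (hZ.iter _))).add
      (BF.const_mul _ (hr.rpow hr0 (by linarith : 0 ≤ θ)))).int_add (BF.const _),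
    ((hZ.iter _).add (BF.const_mul _ (hZ.iter _))).int_add
      (BF.const_mul _ (hr.rpow hr0 (by linarith : 0 ≤ θ))),
    (hZ.iter _).int_add (BF.const_mul _ (hZ.iter _)), BF.int_mul, BF.int_mul, set_const] at h1
  -- the decomposition of the double integral
  have h2 : ∫ x, ∫ y, zet θ (Y x y) = (∫ x in S, ∫ y in S, zet θ (Y x y)) +
      2 * (∫ x in S, ∫ y in Sᶜ, zet θ (Y x y)) + ∫ x in Sᶜ, ∫ y in Sᶜ, zet θ (Y x y) := by
    have e1 : ∀ x, ∫ y, zet θ (Y x y) = (∫ y in S, zet θ (Y x y)) +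
        ∫ y in Sᶜ, zet θ (Y x y) := fun x => hZ.split hS x
    simp only [e1]
    rw [((hZ.iter S).add (hZ.iter Sᶜ)).split hS, (hZ.iter S).int_add (hZ.iter Sᶜ),
      (hZ.iter S).int_add (hZ.iter Sᶜ)]
    have e2 : ∫ x in Sᶜ, ∫ y in S, zet θ (Y x y) = ∫ x in S, ∫ y in Sᶜ, zet θ (Y x y) := by
      rw [hZ.swap Sᶜ S]
      simp only [hsym]
    rw [e2]
    ring
  have h3 : ∫ x, zet θ (∫ y, Y x y) = (∫ x in S, zet θ (∫ y, Y x y)) +
      ∫ x in Sᶜ, zet θ (∫ y, Y x y) := hz.split hS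
  rw [h2, h3]
  have h4 : ln S * ((θ - 1) * ln S) = (θ - 1) * ln S ^ 2 := by ring
  rw [h4] at h1
  linarith

end kernel

end Pool.Agent.W_bbc525_ends
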