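import Pool.Agent.W_bbc525_ends.Asm

/-!
# Small densities: definitions
-/

set_option autoImplicit false

namespace Pool.Agent.W_bbc525_ends

/-- `Δ_n(u, v) = (u + v - 1)₊ ^ n - u ^ n - v ^ n + 1` -/
noncomputable def Dl (n u v : ℝ) : ℝ := max (u + v - 1) 0 ^ n - u ^ n - v ^ n + 1

/-- `ω(R) = R - 1 - log R` -/
noncomputable def om (R : ℝ) : ℝ := R - 1 - Real.log R

/-- the constant in the inequality of an edge with degree ratio `θ` -/
noncomputable def Kt (θ : ℝ) : ℝ := if θ ≤ 2 then 1 / 2 else θ * (θ ^ 2 - θ + 2) / 2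

/-- the weight of an edge with degrees `b ≤ a` -/
noncomputable def wgt (a b : ℕ) : ℝ := ((a : ℝ) + b - 2) / 2 +
  if b < a then 2 * (b : ℝ) ^ 2 * Kt ((a : ℝ) / b) / a else 0

/-- `g_d(x) = (x ^ d - 1) / d - (x - 1)` -/
noncomputable def gg (d : ℕ) (x : ℝ) : ℝ := (x ^ d - 1) / d - (x - 1)

theorem Dl_symm (n u v : ℝ) : Dl n u v = Dl n v u := by
  unfold Dl
  rw [add_comm u v]
  ring

end Pool.Agent.W_bbc525_ends
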