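import Pool.Agent.W_bbc525_gd.Main

/-!
# Bounded kernels on the unit square
-/

set_option autoImplicit false

namespace Pool.Agent.W_bbc525_ends

open MeasureTheory Finset Pool.Agent.W_MP_bbc525_pr

/-- bounded measurable kernels -/
structure BK (f : unitInterval → unitInterval → ℝ) : Prop where
  meas : Measurable (Function.uncurry f)
  bdd : ∃ C, ∀ x y, |f x y| ≤ C

/-- bounded measurable functions -/
structure BF (g : unitInterval → ℝ) : Prop where
  meas : Measurable g
  bdd : ∃ C, ∀ x, |g x| ≤ C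

namespace BF

variable {g h : unitInterval → ℝ}

theorem const (c : ℝ) : BF (fun _ => c) := ⟨measurable_const, |c|, fun _ => le_rfl⟩

theorem add (hg : BF g) (hh : BF h) : BF (fun x => g x + h x) := by
  obtain ⟨C, hC⟩ := hg.bdd
  obtain ⟨D, hD⟩ := hh.bdd
  exact ⟨hg.meas.add hh.meas, C + D, fun x => (abs_add_le _ _).trans (add_le_add (hC x) (hD x))⟩

theorem sub (hg : BF g) (hh : BF h) : BF (fun x => g x - h x) := by
  obtain ⟨C, hC⟩ := hg.bdd
  obtain ⟨D, hD⟩ := hh.bdd
  exact ⟨hg.meas.sub hh.meas, C + D, fun x => (abs_sub _ _).trans (add_le_add (hC x) (hD x))⟩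

theorem mul (hg : BF g) (hh : BF h) : BF (fun x => g x * h x) := by
  obtain ⟨C, hC⟩ := hg.bdd
  obtain ⟨D, hD⟩ := hh.bdd
  refine ⟨hg.meas.mul hh.meas, C * D, fun x => ?_⟩
  rw [abs_mul]
  exact mul_le_mul (hC x) (hD x) (abs_nonneg _) ((abs_nonneg _).trans (hC x))

theorem const_mul (c : ℝ) (hg : BF g) : BF (fun x => c * g x) := (const c).mul hg

theorem rpow (hg : BF g) (h0 : ∀ x, 0 ≤ g x) {s : ℝ} (hs : 0 ≤ s) : BF (fun x => g x ^ s) := by
  obtain ⟨C, hC⟩ := hg.bdd
  refine ⟨hg.meas.pow_const s, C ^ s, fun x => ?_⟩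
  rw [abs_of_nonneg (Real.rpow_nonneg (h0 x) s)]
  exact Real.rpow_le_rpow (h0 x) ((le_abs_self _).trans (hC x)) hs

theorem integrableOn (hg : BF g) (S : Set unitInterval) : IntegrableOn g S := by
  obtain ⟨C, hC⟩ := hg.bdd
  exact Graphon.integrable_of_bdd (μ := volume.restrict S) hg.meas (C := C) hC

theorem integrable (hg : BF g) : Integrable g := by
  obtain ⟨C, hC⟩ := hg.bdd
  exact Graphon.integrable_of_bdd hg.meas (C := C) hC

end BF

namespace BK

variable {f g : unitInterval → unitInterval → ℝ}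

theorem const (c : ℝ) : BK (fun _ _ => c) := ⟨measurable_const, |c|, fun _ _ => le_rfl⟩

theorem add (hf : BK f) (hg : BK g) : BK (fun x y => f x y + g x y) := by
  obtain ⟨C, hC⟩ := hf.bdd
  obtain ⟨D, hD⟩ := hg.bdd
  exact ⟨hf.meas.add hg.meas, C + D, fun x y =>
    (abs_add_le _ _).trans (add_le_add (hC x y) (hD x y))⟩

theorem sub (hf : BK f) (hg : BK g) : BK (fun x y => f x y - g x y) := by
  obtain ⟨C, hC⟩ := hf.bdd
  obtain ⟨D, hD⟩ := hg.bdd
  exact ⟨hf.meas.sub hg.meas, C + D, fun x y =>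
    (abs_sub _ _).trans (add_le_add (hC x y) (hD x y))⟩

theorem mul (hf : BK f) (hg : BK g) : BK (fun x y => f x y * g x y) := by
  obtain ⟨C, hC⟩ := hf.bdd
  obtain ⟨D, hD⟩ := hg.bdd
  refine ⟨hf.meas.mul hg.meas, C * D, fun x y => ?_⟩
  rw [abs_mul]
  exact mul_le_mul (hC x y) (hD x y) (abs_nonneg _) ((abs_nonneg _).trans (hC x y))

theorem const_mul (c : ℝ) (hf : BK f) : BK (fun x y => c * f x y) := (const c).mul hf

theorem rpow (hf : BK f) (h0 : ∀ x y, 0 ≤ f x y) {s : ℝ} (hs : 0 ≤ s) :
    BK (fun x y => f x y ^ s) := by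
  obtain ⟨C, hC⟩ := hf.bdd
  refine ⟨hf.meas.pow_const s, C ^ s, fun x y => ?_⟩
  rw [abs_of_nonneg (Real.rpow_nonneg (h0 x y) s)]
  exact Real.rpow_le_rpow (h0 x y) ((le_abs_self _).trans (hC x y)) hs

theorem pow (hf : BK f) (n : ℕ) : BK (fun x y => f x y ^ n) := by
  obtain ⟨C, hC⟩ := hf.bdd
  refine ⟨hf.meas.pow_const n, C ^ n, fun x y => ?_⟩
  rw [abs_pow]
  exact pow_le_pow_left₀ (abs_nonneg _) (hC x y) n

theorem left {h : unitInterval → ℝ} (hh : BF h) : BK (fun x _ => h x) := by
  obtain ⟨C, hC⟩ := hh.bdd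
  exact ⟨hh.meas.comp measurable_fst, C, fun x _ => hC x⟩

theorem right {h : unitInterval → ℝ} (hh : BF h) : BK (fun _ y => h y) := by
  obtain ⟨C, hC⟩ := hh.bdd
  exact ⟨hh.meas.comp measurable_snd, C, fun _ y => hC y⟩

/-- composition with a bounded measurable function of one variable -/
theorem comp (hf : BK f) {φ : ℝ → ℝ} (hφ : Measurable φ)
    (hb : ∃ C, ∀ x y, |φ (f x y)| ≤ C) : BK (fun x y => φ (f x y)) :=
  ⟨hφ.comp hf.meas, hb⟩

theorem swap' (hf : BK f) : BK (fun x y => f y x) := by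
  obtain ⟨C, hC⟩ := hf.bdd
  exact ⟨hf.meas.comp measurable_swap, C, fun x y => hC y x⟩

theorem row (hf : BK f) (x : unitInterval) : BF (f x) := by
  obtain ⟨C, hC⟩ := hf.bdd
  exact ⟨hf.meas.comp measurable_prodMk_left, C, hC x⟩

theorem iter (hf : BK f) (T : Set unitInterval) : BF (fun x => ∫ y in T, f x y) := by
  obtain ⟨C, hC⟩ := hf.bdd
  refine ⟨?_, C, fun x => ?_⟩
  · have h := hf.meas.stronglyMeasurable.integral_prod_right
      (ν := (volume : Measure unitInterval).restrict T)
    exact h.measurable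
  · have h1 : ‖∫ y in T, f x y‖ ≤ C * (volume : Measure unitInterval).real T :=
      norm_setIntegral_le_of_norm_le_const (measure_lt_top _ _) fun y _ => hC x y
    rw [Real.norm_eq_abs] at h1
    have hC0 : 0 ≤ C := (abs_nonneg _).trans (hC x x)
    have h2 : (volume : Measure unitInterval).real T ≤ 1 := measureReal_le_one
    nlinarith

theorem iter' (hf : BK f) : BF (fun x => ∫ y, f x y) := by
  have h := hf.iter Set.univ
  simpa using h

theorem swap (hf : BK f) (S T : Set unitInterval) :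
    ∫ x in S, ∫ y in T, f x y = ∫ y in T, ∫ x in S, f x y := by
  obtain ⟨C, hC⟩ := hf.bdd
  apply integral_integral_swap
  exact Graphon.integrable_of_bdd (μ := (volume.restrict S).prod (volume.restrict T)) hf.meas
    (C := C) fun z => hC z.1 z.2

theorem prod (hf : BK f) :
    ∫ z : unitInterval × unitInterval, f z.1 z.2 = ∫ x, ∫ y, f x y := by
  obtain ⟨C, hC⟩ := hf.bdd
  have h : Integrable (fun z : unitInterval × unitInterval => f z.1 z.2) :=
    Graphon.integrable_of_bdd hf.meas (C := C) fun z => hC z.1 z.2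
  rw [Measure.volume_eq_prod] at h ⊢
  rw [integral_prod _ h]

theorem split (hf : BK f) {T : Set unitInterval} (hT : MeasurableSet T) (x : unitInterval) :
    ∫ y, f x y = (∫ y in T, f x y) + ∫ y in Tᶜ, f x y :=
  (integral_add_compl hT (hf.row x).integrable).symm

end BK

theorem BF.split {g : unitInterval → ℝ} (hg : BF g) {T : Set unitInterval} (hT : MeasurableSet T) :
    ∫ y, g y = (∫ y in T, g y) + ∫ y in Tᶜ, g y :=
  (integral_add_compl hT hg.integrable).symm

theorem BF.int_add {f g : unitInterval → ℝ} (hf : BF f) (hg : BF g) (S : Set unitInterval) :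
    ∫ x in S, (f x + g x) = (∫ x in S, f x) + ∫ x in S, g x :=
  integral_add (hf.integrableOn S) (hg.integrableOn S)

theorem BF.int_sub {f g : unitInterval → ℝ} (hf : BF f) (hg : BF g) (S : Set unitInterval) :
    ∫ x in S, (f x - g x) = (∫ x in S, f x) - ∫ x in S, g x :=
  integral_sub (hf.integrableOn S) (hg.integrableOn S)

theorem BF.int_mul (c : ℝ) (f : unitInterval → ℝ) (S : Set unitInterval) :
    ∫ x in S, c * f x = c * ∫ x in S, f x := integral_const_mul c f

/-- monotonicity of iterated integrals -/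
theorem BK.mono {f g : unitInterval → unitInterval → ℝ} (hf : BK f) (hg : BK g)
    {S T : Set unitInterval} (hS : MeasurableSet S) (hT : MeasurableSet T)
    (h : ∀ x ∈ S, ∀ y ∈ T, f x y ≤ g x y) :
    ∫ x in S, ∫ y in T, f x y ≤ ∫ x in S, ∫ y in T, g x y := by
  apply setIntegral_mono_on ((hf.iter T).integrableOn S) ((hg.iter T).integrableOn S) hS
  intro x hx
  exact setIntegral_mono_on ((hf.row x).integrableOn T) ((hg.row x).integrableOn T) hT (h x hx)

theorem BF.mono {f g : unitInterval → ℝ} (hf : BF f) (hg : BF g)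
    {S : Set unitInterval} (hS : MeasurableSet S) (h : ∀ x ∈ S, f x ≤ g x) :
    ∫ x in S, f x ≤ ∫ x in S, g x :=
  setIntegral_mono_on (hf.integrableOn S) (hg.integrableOn S) hS h

/-- the length of a set -/
noncomputable abbrev ln (S : Set unitInterval) : ℝ := (volume : Measure unitInterval).real S

theorem ln_nonneg (S : Set unitInterval) : 0 ≤ ln S := measureReal_nonneg

theorem ln_le_one (S : Set unitInterval) : ln S ≤ 1 := measureReal_le_one

theorem ln_compl {S : Set unitInterval} (hS : MeasurableSet S) : ln Sᶜ = 1 - ln S := by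
  unfold ln
  rw [probReal_compl_eq_one_sub hS]

theorem set_const (S : Set unitInterval) (c : ℝ) : ∫ _ in S, c = ln S * c := by
  rw [setIntegral_const, smul_eq_mul]

/-- the inequality of Cauchy for a set -/
theorem sq_int_le {g : unitInterval → ℝ} (hg : BF g) {S : Set unitInterval}
    (hS : MeasurableSet S) : (∫ y in S, g y) ^ 2 ≤ ln S * ∫ y in S, g y ^ 2 := by
  rcases (ln_nonneg S).eq_or_lt with h0 | h0
  · have h1 : (volume : Measure unitInterval) S = 0 := by
      have := h0.symm
      unfold ln at this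
      rwa [measureReal_eq_zero_iff] at this
    rw [setIntegral_measure_zero _ h1, ← h0]
    simp
  · have hg2 : BF (fun y => g y ^ 2) := by
      have := hg.mul hg
      simpa only [← pow_two] using this
    have h1 : ∫ y in S, (2 * ((∫ y in S, g y) / ln S)) * g y -
        ((∫ y in S, g y) / ln S) ^ 2 ≤ ∫ y in S, g y ^ 2 := by
      apply BF.mono ((BF.const_mul _ hg).sub (BF.const _)) hg2 hS
      intro y _
      nlinarith [sq_nonneg (g y - (∫ y in S, g y) / ln S)]
    rw [integral_sub ((BF.const_mul _ hg).integrableOn S) ((BF.const _).integrableOn S),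
      integral_const_mul, set_const] at h1
    set I := ∫ y in S, g y with hI
    have h2 : 2 * (I / ln S) * I - ln S * (I / ln S) ^ 2 = I ^ 2 / ln S := by
      field_simp
      ring
    rw [h2, div_le_iff₀ h0] at h1
    linarith

end Pool.Agent.W_bbc525_ends
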