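import Pool.Agent.W_bbc525_ends.Asm

/-!
# The end `q → 1`: functions of one variable
-/

set_option autoImplicit false

namespace Pool.Agent.W_bbc525_ends

open MeasureTheory Finset Pool.Agent.W_MP_bbc525_pr Pool.Agent.W_bbc525_h89 Pool.Agent.W_bbc525_td

/-! ### the relative entropy -/

/-- `1 + q / (1 - q) = 1 / (1 - q)` -/
theorem L1_odds {q : ℝ} (hq1 : q < 1) : 1 + q / (1 - q) = 1 / (1 - q) := by
  have : 1 - q ≠ 0 := by linarith
  field_simp
  ring

theorem dd_zero_eq {q : ℝ} (hq1 : q < 1) : dd q 0 = Real.log (1 + q / (1 - q)) := by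
  have h : 0 < 1 - q := by linarith
  rw [L1_odds hq1]
  unfold dd relEnt
  simp

theorem L1_xlogx {x : ℝ} (hx : 0 ≤ x) : x - 1 ≤ x * Real.log x := by
  rcases hx.eq_or_lt with h | h
  · subst h
    simp
  · have h1 := Real.one_sub_inv_le_log_of_pos h
    have h2 := mul_le_mul_of_nonneg_left h1 h.le
    have e : x * (1 - x⁻¹) = x - 1 := by field_simp
    linarith

theorem L1_log_ge {x : ℝ} (hx : 0 < x) (hx1 : x ≤ 1) : (x - x⁻¹) / 2 ≤ Real.log x := by
  have h1 : Real.log x ≤ 0 := Real.log_nonpos hx.le hx1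
  have h2 := Real.sinh_le_self_iff.2 h1
  rw [Real.sinh_log hx] at h2
  exact h2

/-- `(1 - v) log (1 - v) ≥ - v + v ^ 2 / 2` -/
theorem L1_up {v : ℝ} (hv : 0 ≤ v) (hv1 : v ≤ 1) :
    -v + v ^ 2 / 2 ≤ (1 - v) * Real.log (1 - v) := by
  rcases hv1.eq_or_lt with h | h
  · subst h
    norm_num
  · have h0 : 0 < 1 - v := by linarith
    have h1 := mul_le_mul_of_nonneg_left (L1_log_ge h0 (by linarith)) h0.le
    have e : (1 - v) * ((1 - v - (1 - v)⁻¹) / 2) = -v + v ^ 2 / 2 := by
      field_simp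
      ring
    linarith

/-- the relative entropy above `1` -/
theorem dd_up {q X : ℝ} (hq : 1 / 2 ≤ q) (hq1 : q < 1) (hX : 1 ≤ X) (hX1 : X ≤ 1 / q) :
    q / (1 - q) / 4 * (X - 1) ^ 2 ≤ dd q X := by
  have hq0 : 0 < q := by linarith
  have h0 : 0 < 1 - q := by linarith
  have hqX : q * X ≤ 1 := by
    rw [le_div_iff₀ hq0] at hX1
    linarith
  set s := q / (1 - q) with hs
  have hs1 : 1 ≤ s := by
    rw [hs, le_div_iff₀ h0]
    linarith
  have hsq : (1 - q) * s = q := by
    rw [hs]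
    field_simp
  have hv0 : 0 ≤ s * (X - 1) := mul_nonneg (by linarith) (by linarith)
  have hv1 : s * (X - 1) ≤ 1 := by
    have h1 : (1 - q) * (s * (X - 1)) ≤ (1 - q) * 1 := by
      have e : (1 - q) * (s * (X - 1)) = q * X - q := by linear_combination (X - 1) * hsq
      rw [e]
      linarith
    exact le_of_mul_le_mul_left h1 h0
  have h1 := L1_up hv0 hv1
  have h2 := L1_xlogx (x := X) (by linarith)
  unfold dd relEnt
  rw [mul_div_cancel_left₀ _ hq0.ne']
  have e1 : (1 - q * X) / (1 - q) = 1 - s * (X - 1) := by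
    rw [div_eq_iff h0.ne']
    linear_combination (X - 1) * hsq
  have e2 : 1 - q * X = (1 - q) * (1 - s * (X - 1)) := by
    linear_combination (X - 1) * hsq
  rw [e1, e2]
  have h3 := mul_le_mul_of_nonneg_left h1 h0.le
  have h4 := mul_le_mul_of_nonneg_left h2 hq0.le
  have e3 : (1 - q) * (-(s * (X - 1)) + (s * (X - 1)) ^ 2 / 2) =
      - q * (X - 1) + q * s * (X - 1) ^ 2 / 2 := by
    linear_combination (-(X - 1) + s * (X - 1) ^ 2 / 2) * hsq
  have h5 : s / 4 * (X - 1) ^ 2 ≤ q * s * (X - 1) ^ 2 / 2 := by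
    have : 0 ≤ s * (X - 1) ^ 2 := mul_nonneg (by linarith) (sq_nonneg _)
    nlinarith
  linarith

/-- the relative entropy below `1` -/
theorem dd_down {q d : ℝ} (hq : 0 < q) (hq1 : q < 1) (hd1 : d ≤ 1) :
    (1 - q) * ((1 + q / (1 - q) * d) * Real.log (1 + q / (1 - q) * d) - q / (1 - q) * d) ≤
      dd q (1 - d) := by
  have h0 : 0 < 1 - q := by linarith
  set s := q / (1 - q) with hs
  have hsq : (1 - q) * s = q := by
    rw [hs]
    field_simp
  have h2 := L1_xlogx (x := 1 - d) (by linarith)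
  unfold dd relEnt
  rw [mul_div_cancel_left₀ _ hq.ne']
  have e1 : (1 - q * (1 - d)) / (1 - q) = 1 + s * d := by
    rw [div_eq_iff h0.ne']
    linear_combination - d * hsq
  have e2 : 1 - q * (1 - d) = (1 - q) * (1 + s * d) := by
    linear_combination - d * hsq
  rw [e1, e2]
  have h4 := mul_le_mul_of_nonneg_left h2 hq.le
  have e3 : (1 - q) * (s * d) = q * d := by linear_combination d * hsq
  nlinarith

/-- `u ^ 2 / (2 + u) ≤ (1 + u) log (1 + u) - u` -/
theorem L1_small {u : ℝ} (hu : 0 ≤ u) : u ^ 2 / (2 + u) ≤ (1 + u) * Real.log (1 + u) - u := by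
  have h1 := Real.le_log_one_add_of_nonneg hu
  have h2 := mul_le_mul_of_nonneg_left h1 (by linarith : 0 ≤ 1 + u)
  have e : (1 + u) * (2 * u / (u + 2)) = u ^ 2 / (2 + u) + u := by
    have : u + 2 ≠ 0 := by linarith
    have : 2 + u ≠ 0 := by linarith
    field_simp
    ring
  linarith

theorem L1_large {u : ℝ} (hu : 0 ≤ u) :
    u * (Real.log (1 + u) - 1) ≤ (1 + u) * Real.log (1 + u) - u := by
  have h1 : 0 ≤ Real.log (1 + u) := Real.log_nonneg (by linarith)
  nlinarith

/-- powers of the logarithm are small -/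
theorem log_pow_small (C : ℝ) (n : ℕ) :
    ∃ s₀ : ℝ, 1 ≤ s₀ ∧ ∀ s, s₀ ≤ s → C * Real.log (1 + s) ^ n ≤ s := by
  have h := Real.isLittleO_pow_log_id_atTop (n := n)
  have h2 := h.def (c := 1 / (2 * (|C| + 1))) (by positivity)
  rw [Filter.eventually_atTop] at h2
  obtain ⟨a, ha⟩ := h2
  refine ⟨max 1 a, le_max_left _ _, fun s hs => ?_⟩
  have hs1 : 1 ≤ s := (le_max_left _ _).trans hs
  have h3 := ha (1 + s) (by linarith [le_max_right 1 a])
  rw [Real.norm_eq_abs, Real.norm_eq_abs, id, abs_of_pos (by linarith : 0 < 1 + s)] at h3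
  have hl : 0 ≤ Real.log (1 + s) := Real.log_nonneg (by linarith)
  rw [abs_of_nonneg (pow_nonneg hl n)] at h3
  have h4 : 0 < 2 * (|C| + 1) := by positivity
  have h5 : 2 * (|C| + 1) * Real.log (1 + s) ^ n ≤ 1 + s := by
    have := mul_le_mul_of_nonneg_left h3 h4.le
    have e : 2 * (|C| + 1) * (1 / (2 * (|C| + 1)) * (1 + s)) = 1 + s := by
      field_simp
    linarith
  have h6 : C * Real.log (1 + s) ^ n ≤ (|C| + 1) * Real.log (1 + s) ^ n :=
    mul_le_mul_of_nonneg_right (by linarith [le_abs_self C]) (pow_nonneg hl n)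
  linarith

/-- the relative entropy beats the quadratic term just below `1` -/
theorem down_quad {K : ℝ} (hK : 0 < K) : ∃ d₁ s₀ : ℝ, 0 < d₁ ∧ d₁ ≤ 1 ∧ 1 ≤ s₀ ∧
    ∀ s d, s₀ ≤ s → 0 ≤ d → d ≤ d₁ →
      K * Real.log (1 + s) * d ^ 2 * (1 + s) ≤
        (1 + s * d) * Real.log (1 + s * d) - s * d := by
  obtain ⟨s₁, hs₁, h1⟩ := log_pow_small (36 * K ^ 2) 2
  obtain ⟨s₂, hs₂, h2⟩ := log_pow_small 1 1
  refine ⟨1 / (8 * (K + 1)), max s₁ 200, by positivity, ?_, le_trans hs₁ (le_max_left _ _), ?_⟩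
  · rw [div_le_one (by positivity)]
    linarith
  intro s d hs hd hd1
  have hss : s₁ ≤ s := (le_max_left _ _).trans hs
  have hs200 : (200 : ℝ) ≤ s := (le_max_right _ _).trans hs
  have hs0 : 0 < s := by linarith
  set u := s * d with hu
  have hu0 : 0 ≤ u := mul_nonneg hs0.le hd
  set l := Real.log (1 + s) with hl
  have hl0 : 0 ≤ l := Real.log_nonneg (by linarith)
  have e0 : K * l * d ^ 2 * (1 + s) = K * l * (1 + s) * u ^ 2 / s ^ 2 := by
    rw [hu]
    field_simp
  rw [e0]
  have hsq : 0 < Real.sqrt s := Real.sqrt_pos.2 hs0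
  have hsq2 : Real.sqrt s ^ 2 = s := Real.sq_sqrt hs0.le
  rcases le_or_gt u (Real.sqrt s) with hcase | hcase
  · refine le_trans ?_ (L1_small hu0)
    -- `K l (1 + s) (2 + u) ≤ s ^ 2`
    have h3 : 6 * K * l ≤ Real.sqrt s := by
      apply Real.le_sqrt_of_sq_le
      have := h1 s hss
      rw [← hl] at this
      nlinarith
    have h4 : K * l * (1 + s) * (2 + u) ≤ s ^ 2 := by
      have h5 : (1 + s) ≤ 2 * s := by linarith
      have h6 : (1 : ℝ) ≤ Real.sqrt s := by
        rw [Real.one_le_sqrt]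
        linarith
      have h7 : 2 + u ≤ 3 * Real.sqrt s := by linarith
      calc K * l * (1 + s) * (2 + u) ≤ K * l * (2 * s) * (3 * Real.sqrt s) := by
            apply mul_le_mul _ h7 (by linarith) (by positivity)
            exact mul_le_mul_of_nonneg_left h5 (by positivity)
        _ = 6 * K * l * Real.sqrt s * s := by ring
        _ ≤ Real.sqrt s * Real.sqrt s * s := by
            apply mul_le_mul_of_nonneg_right _ hs0.le
            exact mul_le_mul_of_nonneg_right h3 hsq.le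
        _ = s ^ 2 := by
            rw [← sq, hsq2]
            ring
    rw [div_le_div_iff₀ (by positivity) (by linarith)]
    have h8 := mul_le_mul_of_nonneg_left h4 (sq_nonneg u)
    linarith
  · refine le_trans ?_ (L1_large hu0)
    -- `log (1 + u) - 1 ≥ l / 4`
    have h3 : l / 4 ≤ Real.log (1 + u) - 1 := by
      have h4 : Real.log (Real.sqrt s) ≤ Real.log (1 + u) :=
        Real.log_le_log hsq (by linarith)
      rw [Real.log_sqrt hs0.le] at h4
      have h5 : l ≤ Real.log s + Real.log 2 := by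
        rw [← Real.log_mul hs0.ne' (by norm_num)]
        exact Real.log_le_log (by linarith) (by linarith)
      have h6 : Real.log 2 + 4 ≤ Real.log s := by
        have h7 : Real.log 2 + 4 ≤ Real.log 200 := by
          have e : (200 : ℝ) = 2 * 100 := by norm_num
          rw [e, Real.log_mul (by norm_num) (by norm_num)]
          have h8 : (4 : ℝ) ≤ Real.log 100 := by
            rw [Real.le_log_iff_exp_le (by norm_num)]
            have h9 := Real.exp_one_lt_d9
            have h10 : Real.exp 4 = Real.exp 1 ^ 4 := by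
              rw [← Real.exp_nat_mul]
              norm_num
            rw [h10]
            have h11 : Real.exp 1 ^ 4 ≤ (2.7182818286 : ℝ) ^ 4 :=
              pow_le_pow_left₀ (Real.exp_pos 1).le h9.le 4
            refine h11.trans ?_
            norm_num
          linarith
        exact h7.trans (Real.log_le_log (by norm_num) hs200)
      linarith
    have h4 : K * l * (1 + s) * u ^ 2 / s ^ 2 ≤ u * (l / 4) := by
      rw [div_le_iff₀ (by positivity)]
      have h5 : K * (1 + s) * u ≤ s ^ 2 / 4 := by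
        have h6 : u ≤ s * (1 / (8 * (K + 1))) := by
          rw [hu]
          exact mul_le_mul_of_nonneg_left hd1 hs0.le
        have h7 : K * (1 + s) * u ≤ K * (2 * s) * (s * (1 / (8 * (K + 1)))) := by
          apply mul_le_mul _ h6 hu0 (by positivity)
          exact mul_le_mul_of_nonneg_left (by linarith) hK.le
        refine h7.trans ?_
        have e : K * (2 * s) * (s * (1 / (8 * (K + 1)))) = s ^ 2 / 4 * (K / (K + 1)) := by
          field_simp
          ring
        rw [e]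
        have h8 : K / (K + 1) ≤ 1 := by
          rw [div_le_one (by linarith)]
          linarith
        have h9 : 0 ≤ s ^ 2 / 4 := by positivity
        nlinarith
      have h6 := mul_le_mul_of_nonneg_left h5 (mul_nonneg hl0 hu0)
      nlinarith
    exact h4.trans (mul_le_mul_of_nonneg_left h3 hu0)

/-! ### polynomials -/

/-- `X ^ n - 1 - n (X - 1)` -/
noncomputable def pp (n : ℕ) (X : ℝ) : ℝ := X ^ n - 1 - n * (X - 1)

theorem pp_succ (n : ℕ) (X : ℝ) : pp (n + 1) X = X * pp n X + n * (X - 1) ^ 2 := by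
  unfold pp
  push_cast
  ring

theorem pp_le {R : ℝ} (hR : 1 ≤ R) (n : ℕ) {X : ℝ} (hX : 0 ≤ X) (hXR : X ≤ R) :
    pp n X ≤ (2 * R) ^ n * (X - 1) ^ 2 := by
  induction n with
  | zero =>
    unfold pp
    simp
    positivity
  | succ n ih =>
    rw [pp_succ]
    have h1 : X * pp n X ≤ R * ((2 * R) ^ n * (X - 1) ^ 2) := by
      have h2 : X * pp n X ≤ X * ((2 * R) ^ n * (X - 1) ^ 2) := mul_le_mul_of_nonneg_left ih hX
      refine h2.trans (mul_le_mul_of_nonneg_right hXR (by positivity))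
    have h3 : (n : ℝ) ≤ R * (2 * R) ^ n := by
      have h4 : (n : ℝ) ≤ 2 ^ n := by exact_mod_cast (Nat.lt_two_pow_self (n := n)).le
      have h5 : (2 : ℝ) ^ n ≤ (2 * R) ^ n := pow_le_pow_left₀ (by norm_num) (by linarith) n
      have h6 : 0 ≤ (2 * R) ^ n := by positivity
      nlinarith
    have h7 := mul_le_mul_of_nonneg_right h3 (sq_nonneg (X - 1))
    rw [pow_succ (2 * R) n]
    nlinarith

/-- `b X ^ (b + 1) - (b + 1) X ^ b + 1 ≥ (1 - X) ^ 2` -/
theorem qq_ge (b : ℕ) (hb : 1 ≤ b) {X : ℝ} (hX : 0 ≤ X) :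
    (1 - X) ^ 2 ≤ b * X ^ (b + 1) - (b + 1) * X ^ b + 1 := by
  induction b, hb using Nat.le_induction with
  | base =>
    norm_num
    nlinarith
  | succ b hb ih =>
    have e : ((b + 1 : ℕ) : ℝ) * X ^ (b + 1 + 1) - (((b + 1 : ℕ) : ℝ) + 1) * X ^ (b + 1) + 1 =
        (b * X ^ (b + 1) - (b + 1) * X ^ b + 1) + (b + 1) * X ^ b * (1 - X) ^ 2 := by
      push_cast
      ring
    rw [e]
    have : 0 ≤ ((b : ℝ) + 1) * X ^ b * (1 - X) ^ 2 := by positivity
    linarith

/-- `(X ^ n - 1) / n` is monotone in `n` -/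
theorem div_mono {b a : ℕ} (hb : 1 ≤ b) (hba : b ≤ a) {X : ℝ} (hX : 0 ≤ X) :
    (X ^ b - 1) / b ≤ (X ^ a - 1) / a := by
  induction a, hba using Nat.le_induction with
  | base => exact le_rfl
  | succ a ha ih =>
    refine ih.trans ?_
    have ha1 : 1 ≤ a := hb.trans ha
    have ha0 : (0 : ℝ) < a := by exact_mod_cast ha1
    rw [div_le_div_iff₀ ha0 (by positivity)]
    have h := qq_ge a ha1 hX
    have := sq_nonneg (1 - X)
    push_cast
    nlinarith

theorem zet_pow {a b : ℕ} (hb : 0 < b) {X : ℝ} (hX : 0 ≤ X) :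
    zet ((a : ℝ) / b) (X ^ b) = X ^ a - 1 - (a : ℝ) / b * (X ^ b - 1) := by
  have hb' : (b : ℝ) ≠ 0 := by exact_mod_cast hb.ne'
  unfold zet
  rw [← Real.rpow_natCast X b, ← Real.rpow_mul hX, mul_div_cancel₀ _ hb', Real.rpow_natCast,
    Real.rpow_natCast]

/-- the lower bound for `ζ` -/
theorem zet_ge {a b N : ℕ} (hb : 1 ≤ b) (hba : b < a) (haN : a ≤ N) {X : ℝ} (hX : 0 ≤ X) :
    1 / (N : ℝ) * (X - 1) ^ 2 ≤ zet ((a : ℝ) / b) (X ^ b) := by
  have hb0 : (0 : ℝ) < b := by exact_mod_cast hb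
  have ha0 : (0 : ℝ) < a := by exact_mod_cast (by omega : 0 < a)
  have hN0 : (0 : ℝ) < N := by exact_mod_cast (by omega : 0 < N)
  rw [zet_pow (by omega) hX]
  have h1 := div_mono (b := b + 1) (a := a) (by omega) (by omega) hX
  have h2 := qq_ge b hb hX
  have h3 : (X ^ (b + 1) - 1) / ((b + 1 : ℕ) : ℝ) - (X ^ b - 1) / b =
      (b * X ^ (b + 1) - (b + 1) * X ^ b + 1) / (b * (b + 1)) := by
    push_cast
    field_simp
    ring
  have h4 : (X - 1) ^ 2 / (b * (b + 1)) ≤ (X ^ a - 1) / a - (X ^ b - 1) / b := by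
    have h5 : (X - 1) ^ 2 / (b * (b + 1)) ≤
        (b * X ^ (b + 1) - (b + 1) * X ^ b + 1) / (b * (b + 1)) := by
      apply div_le_div_of_nonneg_right _ (by positivity)
      have e : (X - 1) ^ 2 = (1 - X) ^ 2 := by ring
      rw [e]
      exact h2
    linarith
  have h5 := mul_le_mul_of_nonneg_left h4 ha0.le
  have e1 : (a : ℝ) * ((X ^ a - 1) / a - (X ^ b - 1) / b) =
      X ^ a - 1 - (a : ℝ) / b * (X ^ b - 1) := by
    field_simp
  rw [e1] at h5
  refine le_trans ?_ h5
  have h6 : 1 / (N : ℝ) ≤ a / (b * (b + 1)) := by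
    have hba' : ((b : ℝ) + 1) ≤ a := by exact_mod_cast hba
    have haN' : (b : ℝ) ≤ N := by exact_mod_cast (by omega : b ≤ N)
    rw [div_le_div_iff₀ hN0 (by positivity)]
    nlinarith
  have h7 := mul_le_mul_of_nonneg_right h6 (sq_nonneg (X - 1))
  refine h7.trans (le_of_eq ?_)
  ring

/-- the upper bound for `ζ` -/
theorem zet_le {θ R : ℝ} {n : ℕ} (hθ : 1 ≤ θ) (hn : θ ≤ n) (hR : 1 ≤ R) {y : ℝ} (hy : 0 ≤ y)
    (hyR : y ≤ R) : zet θ y ≤ (2 * R) ^ n * (y - 1) ^ 2 := by
  refine le_trans ?_ (pp_le hR n hy hyR)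
  have hn1 : (1 : ℝ) ≤ n := hθ.trans hn
  rcases hn1.eq_or_lt with h | h
  · have : θ = 1 := le_antisymm (h ▸ hn) hθ
    subst this
    have hn' : n = 1 := by exact_mod_cast h.symm
    subst hn'
    unfold zet pp
    rw [Real.rpow_one, pow_one]
    norm_num
  · -- `θ = l + (1 - l) n`
    set l := ((n : ℝ) - θ) / (n - 1) with hl
    have hn0 : 0 < (n : ℝ) - 1 := by linarith
    have hl0 : 0 ≤ l := div_nonneg (by linarith) hn0.le
    have hl1 : 0 ≤ 1 - l := by
      rw [sub_nonneg, hl, div_le_one hn0]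
      linarith
    have e1 : l + (1 - l) * n = θ := by
      rw [hl]
      field_simp
      ring
    have h1 := Real.geom_mean_le_arith_mean2_weighted hl0 hl1 hy (pow_nonneg hy n) (by ring)
    have e2 : y ^ l * (y ^ n) ^ (1 - l) = y ^ θ := by
      rw [← Real.rpow_natCast y n, ← Real.rpow_mul hy]
      rcases hy.eq_or_lt with h0 | h0
      · rw [← h0, Real.zero_rpow (by linarith : θ ≠ 0)]
        rcases hl0.eq_or_lt with h2 | h2
        · rw [← h2]
          have : (n : ℝ) * (1 - 0) ≠ 0 := by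
            have : (n : ℝ) ≠ 0 := by linarith
            simpa using this
          rw [Real.zero_rpow this, mul_zero]
        · rw [Real.zero_rpow h2.ne', zero_mul]
      · rw [← Real.rpow_add h0]
        congr 1
        linarith
    rw [e2] at h1
    have h2 : zet θ y ≤ (1 - l) * pp n y := by
      unfold zet pp
      have e3 : θ * (y - 1) = l * (y - 1) + (1 - l) * (n * (y - 1)) := by
        rw [← e1]
        ring
      rw [e3]
      linarith
    refine h2.trans ?_
    have h3 : 0 ≤ pp n y := by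
      have h4 := one_add_mul_le_pow (a := y - 1) (by linarith) n
      unfold pp
      have e4 : 1 + (y - 1) = y := by ring
      rw [e4] at h4
      linarith
    have h4 : 1 - l ≤ 1 := by linarith
    nlinarith

/-- the difference of powers -/
theorem abs_pow_sub_le (b : ℕ) {X : ℝ} (hX : 0 ≤ X) (hX2 : X ≤ 2) :
    |X ^ b - 1| ≤ b * 2 ^ b * |X - 1| := by
  induction b with
  | zero => simp
  | succ b ih =>
    have e : X ^ (b + 1) - 1 = X * (X ^ b - 1) + (X - 1) := by ring
    rw [e]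
    refine (abs_add_le _ _).trans ?_
    rw [abs_mul, abs_of_nonneg hX]
    have h1 : X * |X ^ b - 1| ≤ 2 * (b * 2 ^ b * |X - 1|) :=
      mul_le_mul hX2 ih (abs_nonneg _) (by norm_num)
    have h2 : 0 ≤ |X - 1| := abs_nonneg _
    have h3 : (1 : ℝ) ≤ 2 ^ (b + 1) := one_le_pow₀ (by norm_num)
    push_cast
    rw [pow_succ] at h3 ⊢
    nlinarith

end Pool.Agent.W_bbc525_ends
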