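import Pool.Agent.W_bbc525_ends.L1

/-!
# The end `q → 1`: the excess of an edge
-/

set_option autoImplicit false

namespace Pool.Agent.W_bbc525_ends

open MeasureTheory Finset Pool.Agent.W_MP_bbc525_pr Pool.Agent.W_bbc525_h89 Pool.Agent.W_bbc525_td

/-- `(X - 1) ^ 2` where `1 - X ≤ d₁` -/
noncomputable def fA (d₁ X : ℝ) : ℝ := if 1 - X ≤ d₁ then (X - 1) ^ 2 else 0

/-- `(X - 1) ^ 2` where `1 - X > d₁` -/
noncomputable def fB (d₁ X : ℝ) : ℝ := if 1 - X ≤ d₁ then 0 else (X - 1) ^ 2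

/-- `|X - 1|` where `1 - X ≤ d₁` -/
noncomputable def fa (d₁ X : ℝ) : ℝ := if 1 - X ≤ d₁ then |X - 1| else 0

/-- `|X - 1|` where `1 - X > d₁` -/
noncomputable def fb (d₁ X : ℝ) : ℝ := if 1 - X ≤ d₁ then 0 else |X - 1|

/-- `(1 - X)_+` -/
noncomputable def dn (X : ℝ) : ℝ := max (1 - X) 0

/-- `(X - 1)_+` -/
noncomputable def up (X : ℝ) : ℝ := max (X - 1) 0

theorem measurable_fA (d₁ : ℝ) : Measurable (fA d₁) := by
  unfold fA
  exact Measurable.ite (measurableSet_le (by fun_prop) (by fun_prop)) (by fun_prop) (by fun_prop)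

theorem measurable_fB (d₁ : ℝ) : Measurable (fB d₁) := by
  unfold fB
  exact Measurable.ite (measurableSet_le (by fun_prop) (by fun_prop)) (by fun_prop) (by fun_prop)

theorem measurable_fa (d₁ : ℝ) : Measurable (fa d₁) := by
  unfold fa
  exact Measurable.ite (measurableSet_le (by fun_prop) (by fun_prop)) (by fun_prop) (by fun_prop)

theorem measurable_fb (d₁ : ℝ) : Measurable (fb d₁) := by
  unfold fb
  exact Measurable.ite (measurableSet_le (by fun_prop) (by fun_prop)) (by fun_prop) (by fun_prop)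

theorem measurable_dn : Measurable dn := by
  unfold dn
  fun_prop

theorem measurable_up : Measurable up := by
  unfold up
  fun_prop

section bounds

variable {d₁ X : ℝ}

theorem fA_nonneg : 0 ≤ fA d₁ X := by
  unfold fA
  split_ifs
  · positivity
  · exact le_rfl

theorem fB_nonneg : 0 ≤ fB d₁ X := by
  unfold fB
  split_ifs
  · exact le_rfl
  · positivity

theorem fa_nonneg : 0 ≤ fa d₁ X := by
  unfold fa
  split_ifs
  · positivity
  · exact le_rfl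

theorem fb_nonneg : 0 ≤ fb d₁ X := by
  unfold fb
  split_ifs
  · exact le_rfl
  · positivity

theorem dn_nonneg : 0 ≤ dn X := le_max_right _ _

theorem up_nonneg : 0 ≤ up X := le_max_right _ _

theorem fa_sq : fa d₁ X ^ 2 = fA d₁ X := by
  unfold fa fA
  split_ifs
  · rw [sq_abs]
  · norm_num

theorem fb_sq : fb d₁ X ^ 2 = fB d₁ X := by
  unfold fb fB
  split_ifs
  · norm_num
  · rw [sq_abs]

theorem fa_add_fb : fa d₁ X + fb d₁ X = |X - 1| := by
  unfold fa fb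
  split_ifs <;> ring

theorem up_sub_dn : up X - dn X = X - 1 := by
  unfold up dn
  rcases le_total X 1 with h | h
  · rw [max_eq_right (by linarith), max_eq_left (by linarith)]
    ring
  · rw [max_eq_left (by linarith), max_eq_right (by linarith)]
    ring

theorem abs_le_of_XX (hX : 0 ≤ X) (hX2 : X ≤ 2) : |X - 1| ≤ 1 := by
  rw [abs_le]
  constructor <;> linarith

theorem abs_fA_le (hX : 0 ≤ X) (hX2 : X ≤ 2) : |fA d₁ X| ≤ 1 := by
  rw [abs_of_nonneg fA_nonneg]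
  unfold fA
  split_ifs
  · nlinarith
  · norm_num

theorem abs_fB_le (hX : 0 ≤ X) (hX2 : X ≤ 2) : |fB d₁ X| ≤ 1 := by
  rw [abs_of_nonneg fB_nonneg]
  unfold fB
  split_ifs
  · norm_num
  · nlinarith

theorem abs_fa_le (hX : 0 ≤ X) (hX2 : X ≤ 2) : |fa d₁ X| ≤ 1 := by
  rw [abs_of_nonneg fa_nonneg]
  unfold fa
  split_ifs
  · exact abs_le_of_XX hX hX2
  · norm_num

theorem abs_fb_le (hX : 0 ≤ X) (hX2 : X ≤ 2) : |fb d₁ X| ≤ 1 := by
  rw [abs_of_nonneg fb_nonneg]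
  unfold fb
  split_ifs
  · norm_num
  · exact abs_le_of_XX hX hX2

theorem abs_dn_le (hX : 0 ≤ X) : |dn X| ≤ 1 := by
  rw [abs_of_nonneg dn_nonneg]
  unfold dn
  exact max_le (by linarith) (by norm_num)

theorem abs_up_le (hX2 : X ≤ 2) : |up X| ≤ 1 := by
  rw [abs_of_nonneg up_nonneg]
  unfold up
  exact max_le (by linarith) (by norm_num)

/-- the pointwise inequality for the Cauchy inequality on the support -/
theorem fb_young (hd : 0 < d₁) {t : ℝ} :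
    2 * t * fb d₁ X - t ^ 2 * (dn X / d₁) ≤ fB d₁ X := by
  rw [← fb_sq]
  unfold fb
  split_ifs with h
  · have : 0 ≤ t ^ 2 * (dn X / d₁) := by
      have := dn_nonneg (X := X)
      positivity
    linarith
  · push Not at h
    have h1 : 1 ≤ dn X / d₁ := by
      rw [le_div_iff₀ hd, one_mul]
      exact h.le.trans (le_max_left _ _)
    have h2 : t ^ 2 ≤ t ^ 2 * (dn X / d₁) := le_mul_of_one_le_right (sq_nonneg t) h1
    nlinarith [sq_nonneg (|X - 1| - t)]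

end bounds

section kernel

variable {W : Graphon} {q : ℝ}

theorem XX_nonneg (hq : 0 < q) (x y : unitInterval) : 0 ≤ W.W x y / q :=
  div_nonneg (W.nonneg _ _) hq.le

theorem XX_le_two (hq : 1 / 2 ≤ q) (x y : unitInterval) : W.W x y / q ≤ 2 := by
  have hq0 : 0 < q := by linarith
  refine (XX_le hq0 x y).trans ?_
  rw [div_le_iff₀ hq0]
  linarith

variable (hq : 1 / 2 ≤ q) (d₁ : ℝ)
include hq

theorem BK.fA : BK (fun x y => fA d₁ (W.W x y / q)) :=
  (BK.XX (by linarith)).comp (measurable_fA d₁)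
    ⟨1, fun x y => abs_fA_le (XX_nonneg (by linarith) x y) (XX_le_two hq x y)⟩

theorem BK.fB : BK (fun x y => fB d₁ (W.W x y / q)) :=
  (BK.XX (by linarith)).comp (measurable_fB d₁)
    ⟨1, fun x y => abs_fB_le (XX_nonneg (by linarith) x y) (XX_le_two hq x y)⟩

theorem BK.fa : BK (fun x y => fa d₁ (W.W x y / q)) :=
  (BK.XX (by linarith)).comp (measurable_fa d₁)
    ⟨1, fun x y => abs_fa_le (XX_nonneg (by linarith) x y) (XX_le_two hq x y)⟩

theorem BK.fb : BK (fun x y => fb d₁ (W.W x y / q)) :=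
  (BK.XX (by linarith)).comp (measurable_fb d₁)
    ⟨1, fun x y => abs_fb_le (XX_nonneg (by linarith) x y) (XX_le_two hq x y)⟩

theorem BK.dn : BK (fun x y => dn (W.W x y / q)) :=
  (BK.XX (by linarith)).comp measurable_dn
    ⟨1, fun x y => abs_dn_le (XX_nonneg (by linarith) x y)⟩

theorem BK.up : BK (fun x y => up (W.W x y / q)) :=
  (BK.XX (by linarith)).comp measurable_up
    ⟨1, fun x y => abs_up_le (XX_le_two hq x y)⟩

end kernel

/-- the integral over a subset -/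
theorem BF.int_subset {g : unitInterval → ℝ} (hg : BF g) (h0 : ∀ x, 0 ≤ g x)
    (S : Set unitInterval) : ∫ x in S, g x ≤ ∫ x, g x :=
  setIntegral_le_integral hg.integrable (Filter.Eventually.of_forall h0)

/-- the rows with a large deficit -/
def Sd (W : Graphon) (q ε₁ : ℝ) : Set unitInterval := {x | ε₁ < ∫ y, dn (W.W x y / q)}

section kernel2

variable {W : Graphon} {q : ℝ} (hq : 1 / 2 ≤ q)
include hq

theorem measurableSet_Sd (ε₁ : ℝ) : MeasurableSet (Sd W q ε₁) :=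
  measurableSet_lt measurable_const (BK.dn (W := W) hq).iter'.meas

/-- the Cauchy inequality on the support -/
theorem fb_int {ε₁ d₁ : ℝ} (hε : 0 < ε₁) (hd : 0 < d₁) {S : Set unitInterval}
    (hS : MeasurableSet S) {x : unitInterval} (hx : ∫ y, dn (W.W x y / q) ≤ ε₁) :
    (∫ y in S, fb d₁ (W.W x y / q)) ^ 2 ≤ ε₁ / d₁ * ∫ y in S, fB d₁ (W.W x y / q) := by
  set G := ∫ y in S, fb d₁ (W.W x y / q) with hG
  have hb := (BK.fb (W := W) hq d₁).row x
  have hdn := (BK.dn (W := W) hq).row x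
  have hB := (BK.fB (W := W) hq d₁).row x
  set t := G * d₁ / ε₁ with ht
  have h1 : ∫ y in S, (2 * t * fb d₁ (W.W x y / q) - t ^ 2 / d₁ * dn (W.W x y / q)) ≤
      ∫ y in S, fB d₁ (W.W x y / q) := by
    apply BF.mono ((BF.const_mul _ hb).sub (BF.const_mul _ hdn)) hB hS
    intro y _
    have := fb_young (X := W.W x y / q) hd (t := t)
    have e : t ^ 2 / d₁ * dn (W.W x y / q) = t ^ 2 * (dn (W.W x y / q) / d₁) := by ring
    rw [e]
    exact this
  rw [(BF.const_mul _ hb).int_sub (BF.const_mul _ hdn), BF.int_mul, BF.int_mul, ← hG] at h1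
  have h2 : ∫ y in S, dn (W.W x y / q) ≤ ε₁ :=
    (BF.int_subset hdn (fun _ => dn_nonneg) S).trans hx
  have h3 : t ^ 2 / d₁ * ∫ y in S, dn (W.W x y / q) ≤ t ^ 2 / d₁ * ε₁ :=
    mul_le_mul_of_nonneg_left h2 (by positivity)
  have h4 : 2 * t * G - t ^ 2 / d₁ * ε₁ = G ^ 2 * (d₁ / ε₁) := by
    rw [ht]
    field_simp
    ring
  have h5 : G ^ 2 * (d₁ / ε₁) ≤ ∫ y in S, fB d₁ (W.W x y / q) := by linarith
  have h6 := mul_le_mul_of_nonneg_left h5 (by positivity : 0 ≤ ε₁ / d₁)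
  have e : ε₁ / d₁ * (G ^ 2 * (d₁ / ε₁)) = G ^ 2 := by
    field_simp
  linarith

/-- the row inequality -/
theorem row_sq {b : ℕ} {ε₁ d₁ : ℝ} (hε : 0 < ε₁) (hd : 0 < d₁)
    {S : Set unitInterval} (hS : MeasurableSet S) {x : unitInterval}
    (hx : ∫ y, dn (W.W x y / q) ≤ ε₁) :
    ((∫ y, YY W q b x y) - 1) ^ 2 ≤ 3 * ((2 : ℝ) ^ b) ^ 2 * ln S ^ 2 +
      3 * (b * 2 ^ b) ^ 2 * (∫ y, fA d₁ (W.W x y / q)) +
      3 * (b * 2 ^ b) ^ 2 * (ε₁ / d₁) * ∫ y in Sᶜ, fB d₁ (W.W x y / q) := by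
  have hq0 : 0 < q := by linarith
  have hY := (BK.YY (W := W) hq0 b).row x
  have ha := (BK.fa (W := W) hq d₁).row x
  have hb' := (BK.fb (W := W) hq d₁).row x
  have hA := (BK.fA (W := W) hq d₁).row x
  have hYb : ∀ y, |YY W q b x y - 1| ≤ 2 ^ b := by
    intro y
    have h0 := YY_nonneg (W := W) hq0 b x y
    have h1 : YY W q b x y ≤ 2 ^ b :=
      pow_le_pow_left₀ (XX_nonneg hq0 x y) (XX_le_two hq x y) b
    have h2 : (1 : ℝ) ≤ 2 ^ b := one_le_pow₀ (by norm_num)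
    rw [abs_le]
    constructor <;> linarith
  have hYL : ∀ y, |YY W q b x y - 1| ≤
      b * 2 ^ b * (fa d₁ (W.W x y / q) + fb d₁ (W.W x y / q)) := by
    intro y
    rw [fa_add_fb]
    exact abs_pow_sub_le b (XX_nonneg hq0 x y) (XX_le_two hq x y)
  -- the part of `S`
  have e0 : (∫ y, YY W q b x y) - 1 = (∫ y in S, (YY W q b x y - 1)) +
      ∫ y in Sᶜ, (YY W q b x y - 1) := by
    rw [← (hY.sub (BF.const 1)).split hS]
    have := hY.int_sub (BF.const 1) Set.univ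
    simp only [Measure.restrict_univ] at this
    rw [this]
    simp
  have hY1 := hY.sub (BF.const 1)
  have h1 : |∫ y in S, (YY W q b x y - 1)| ≤ 2 ^ b * ln S := by
    rw [abs_le]
    constructor
    · have := BF.mono (BF.const (-2 ^ b)) hY1 hS (fun y _ => (abs_le.1 (hYb y)).1)
      rw [set_const] at this
      linarith
    · have := BF.mono hY1 (BF.const (2 ^ b)) hS (fun y _ => (abs_le.1 (hYb y)).2)
      rw [set_const] at this
      linarith
  have hab := BF.const_mul (b * 2 ^ b : ℝ) (ha.add hb')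
  have e1 : ∫ y in Sᶜ, (b * 2 ^ b : ℝ) * (fa d₁ (W.W x y / q) + fb d₁ (W.W x y / q)) =
      b * 2 ^ b * ((∫ y in Sᶜ, fa d₁ (W.W x y / q)) + ∫ y in Sᶜ, fb d₁ (W.W x y / q)) := by
    rw [BF.int_mul, ha.int_add hb']
  have h2 : |∫ y in Sᶜ, (YY W q b x y - 1)| ≤
      b * 2 ^ b * ((∫ y in Sᶜ, fa d₁ (W.W x y / q)) + ∫ y in Sᶜ, fb d₁ (W.W x y / q)) := by
    rw [← e1, abs_le]
    constructor
    · have h3 := BF.mono (BF.const_mul (-1) hab) hY1 hS.compl (fun y _ => by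
        have := (abs_le.1 (hYL y)).1
        linarith)
      rw [BF.int_mul] at h3
      linarith
    · exact BF.mono hY1 hab hS.compl (fun y _ => (abs_le.1 (hYL y)).2)
  -- squares
  have h3 : (∫ y in Sᶜ, fa d₁ (W.W x y / q)) ^ 2 ≤ ∫ y, fA d₁ (W.W x y / q) := by
    refine (sq_int_le ha hS.compl).trans ?_
    have e2 : ∫ y in Sᶜ, fa d₁ (W.W x y / q) ^ 2 = ∫ y in Sᶜ, fA d₁ (W.W x y / q) := by
      simp only [fa_sq]
    rw [e2]
    have h4 := BF.int_subset hA (fun _ => fA_nonneg) Sᶜ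
    have h5 : 0 ≤ ∫ y in Sᶜ, fA d₁ (W.W x y / q) :=
      setIntegral_nonneg hS.compl fun _ _ => fA_nonneg
    have h6 := ln_le_one Sᶜ
    have h7 := ln_nonneg Sᶜ
    nlinarith
  have h4 := fb_int (W := W) hq hε hd hS.compl hx
  rw [e0]
  set P := ∫ y in S, (YY W q b x y - 1)
  set Q := ∫ y in Sᶜ, (YY W q b x y - 1)
  set A := ∫ y in Sᶜ, fa d₁ (W.W x y / q)
  set B := ∫ y in Sᶜ, fb d₁ (W.W x y / q)
  have hP : P ^ 2 ≤ (2 ^ b * ln S) ^ 2 := sq_le_sq' (by linarith [(abs_le.1 h1).1]) (abs_le.1 h1).2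
  have hQ : Q ^ 2 ≤ (b * 2 ^ b * (A + B)) ^ 2 := sq_le_sq' (by linarith [(abs_le.1 h2).1])
    (abs_le.1 h2).2
  have h5 : (P + Q) ^ 2 ≤ 3 * P ^ 2 + (3 / 2) * Q ^ 2 := by nlinarith [sq_nonneg (2 * P - Q)]
  have h6 : (A + B) ^ 2 ≤ 2 * A ^ 2 + 2 * B ^ 2 := by nlinarith [sq_nonneg (A - B)]
  have h7 : (b * 2 ^ b * (A + B)) ^ 2 ≤ (b * 2 ^ b) ^ 2 * (2 * A ^ 2 + 2 * B ^ 2) := by
    rw [mul_pow]
    exact mul_le_mul_of_nonneg_left h6 (sq_nonneg _)
  have h8 : (b * 2 ^ b : ℝ) ^ 2 * (2 * A ^ 2 + 2 * B ^ 2) ≤ (b * 2 ^ b) ^ 2 *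
      (2 * (∫ y, fA d₁ (W.W x y / q)) + 2 * (ε₁ / d₁ * ∫ y in Sᶜ, fB d₁ (W.W x y / q))) := by
    apply mul_le_mul_of_nonneg_left _ (sq_nonneg _)
    linarith
  nlinarith

end kernel2

/-- **The excess of an edge.** -/
theorem exc_small' {a b : ℕ} (hb : 1 ≤ b) (hba : b < a) : ∃ C K : ℝ, 0 ≤ C ∧ 1 ≤ K ∧
    ∀ (W : Graphon) (q ε₁ d₁ : ℝ), 1 / 2 ≤ q → 0 < ε₁ → 0 < d₁ → K * ε₁ ≤ d₁ →
      Exc W q a b ≤ C * ((∫ x, ∫ y, fA d₁ (W.W x y / q)) + ln (Sd W q ε₁) ^ 2) := by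
  have hb0 : (0 : ℝ) < b := by exact_mod_cast hb
  have ha0 : (0 : ℝ) < a := by exact_mod_cast (by omega : 0 < a)
  have hba' : (b : ℝ) < a := by exact_mod_cast hba
  obtain ⟨θ, hθe⟩ : ∃ θ, θ = (a : ℝ) / b := ⟨_, rfl⟩
  have hθ : 1 < θ := by
    rw [hθe, lt_div_iff₀ hb0]
    linarith
  have hθa : θ ≤ a := by
    rw [hθe, div_le_iff₀ hb0]
    have : (1 : ℝ) ≤ b := by exact_mod_cast hb
    nlinarith
  obtain ⟨R, hR⟩ : ∃ R : ℝ, R = 2 ^ b := ⟨_, rfl⟩
  have hR1 : 1 ≤ R := hR ▸ one_le_pow₀ (by norm_num)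
  obtain ⟨C₂, hC₂⟩ : ∃ C₂ : ℝ, C₂ = (2 * R) ^ a := ⟨_, rfl⟩
  have hC₂0 : 0 ≤ C₂ := hC₂ ▸ by positivity
  obtain ⟨L, hL⟩ : ∃ L : ℝ, L = (b * 2 ^ b) ^ 2 := ⟨_, rfl⟩
  have hL0 : 0 ≤ L := hL ▸ by positivity
  have hyc := yc_nonneg hθ
  have hRθ : 0 ≤ R ^ θ := Real.rpow_nonneg (by linarith) _
  refine ⟨yc θ * R ^ θ + (θ - 1) + 3 * C₂ * R ^ 2 + 3 * C₂ * L, 6 * a * C₂ * L + 1,
    ?_, ?_, ?_⟩
  · have h1 : 0 ≤ yc θ * R ^ θ := mul_nonneg hyc hRθ
    have h2 : 0 ≤ 3 * C₂ * R ^ 2 := by positivity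
    have h3 : 0 ≤ 3 * C₂ * L := by positivity
    linarith
  · have : 0 ≤ 6 * a * C₂ * L := by positivity
    linarith
  intro W q ε₁ d₁ hq hε hd hK
  have hq0 : 0 < q := by linarith
  set S := Sd W q ε₁ with hSdef
  have hS : MeasurableSet S := measurableSet_Sd hq ε₁
  have hY := BK.YY (W := W) hq0 b
  have h0 := YY_nonneg (W := W) hq0 b
  have hr : BF (fun x => ∫ y, YY W q b x y) := hY.iter'
  have hr0 : ∀ x, 0 ≤ ∫ y, YY W q b x y := fun x => integral_nonneg fun y => h0 x y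
  have hrR : ∀ x, ∫ y, YY W q b x y ≤ R := by
    intro x
    have h1 : ∫ y, YY W q b x y ≤ ∫ _ : unitInterval, R := by
      apply integral_mono (hY.row x).integrable (integrable_const _)
      intro y
      rw [hR]
      exact pow_le_pow_left₀ (XX_nonneg hq0 x y) (XX_le_two hq x y) b
    simpa using h1
  have hmain := exc_le hY h0 (YY_symm b) hθ hS
  have hslk : 0 ≤ ∫ x in S, ∫ y in Sᶜ, slk θ (∫ y, YY W q b x y) (YY W q b x y) :=
    setIntegral_nonneg hS fun x _ => setIntegral_nonneg hS.compl fun y _ =>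
      slk_nonneg hθ (hr0 x) (h0 x y)
  -- first term
  have t1 : (yc θ * ln S) * (∫ x in S, (∫ y, YY W q b x y) ^ θ) ≤
      yc θ * R ^ θ * ln S ^ 2 := by
    have h1 : ∫ x in S, (∫ y, YY W q b x y) ^ θ ≤ ∫ x in S, R ^ θ := by
      apply BF.mono (hr.rpow hr0 (by linarith)) (BF.const _) hS
      intro x _
      exact Real.rpow_le_rpow (hr0 x) (hrR x) (by linarith)
    rw [set_const] at h1
    have h2 := mul_le_mul_of_nonneg_left h1 (mul_nonneg hyc (ln_nonneg S))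
    refine h2.trans (le_of_eq ?_)
    ring
  -- the rows outside `S`
  have hA := BK.fA (W := W) hq d₁
  have hB := BK.fB (W := W) hq d₁
  have hAi : BF (fun x => ∫ y, fA d₁ (W.W x y / q)) := hA.iter'
  have hBi : BF (fun x => ∫ y in Sᶜ, fB d₁ (W.W x y / q)) := hB.iter Sᶜ
  have t2 : ∫ x in Sᶜ, zet θ (∫ y, YY W q b x y) ≤ C₂ * (3 * R ^ 2 * ln S ^ 2 +
      3 * L * (∫ x, ∫ y, fA d₁ (W.W x y / q)) +
      3 * L * (ε₁ / d₁) * ∫ x in Sᶜ, ∫ y in Sᶜ, fB d₁ (W.W x y / q)) := by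
    have i1 : BF (fun _ : unitInterval => C₂ * (3 * R ^ 2 * ln S ^ 2)) := BF.const _
    have i2 := BF.const_mul (C₂ * (3 * L)) hAi
    have i3 := BF.const_mul (C₂ * (3 * L * (ε₁ / d₁))) hBi
    have h1 : ∫ x in Sᶜ, zet θ (∫ y, YY W q b x y) ≤ ∫ x in Sᶜ,
        (C₂ * (3 * R ^ 2 * ln S ^ 2) + C₂ * (3 * L) * (∫ y, fA d₁ (W.W x y / q)) +
        C₂ * (3 * L * (ε₁ / d₁)) * ∫ y in Sᶜ, fB d₁ (W.W x y / q)) := by
      apply BF.mono (BF.zet hr hr0 hθ) ((i1.add i2).add i3) hS.compl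
      intro x hx
      have hx' : ∫ y, dn (W.W x y / q) ≤ ε₁ := by
        rw [hSdef] at hx
        unfold Sd at hx
        simp only [Set.mem_compl_iff, Set.mem_ofPred_eq, not_lt] at hx
        exact hx
      have h2 := row_sq (W := W) hq (b := b) hε hd hS hx'
      have h3 := zet_le hθ.le hθa hR1 (hr0 x) (hrR x)
      rw [← hC₂] at h3
      rw [← hL, ← hR] at h2
      have h4 := mul_le_mul_of_nonneg_left h2 hC₂0
      refine h3.trans (h4.trans (le_of_eq ?_))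
      ring
    refine h1.trans ?_
    rw [(i1.add i2).int_add i3, i1.int_add i2, set_const, BF.int_mul, BF.int_mul]
    have h5 := BF.int_subset hAi (fun x => integral_nonneg fun y => fA_nonneg) Sᶜ
    have h6 := ln_le_one Sᶜ
    have h7 : ln Sᶜ * (C₂ * (3 * R ^ 2 * ln S ^ 2)) ≤ C₂ * (3 * R ^ 2 * ln S ^ 2) :=
      mul_le_of_le_one_left (by positivity) h6
    have h8 : C₂ * (3 * L) * ∫ x in Sᶜ, ∫ y, fA d₁ (W.W x y / q) ≤
        C₂ * (3 * L) * ∫ x, ∫ y, fA d₁ (W.W x y / q) :=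
      mul_le_mul_of_nonneg_left h5 (by positivity)
    nlinarith
  -- the double integral
  have t3 : 1 / (a : ℝ) * (∫ x in Sᶜ, ∫ y in Sᶜ, fB d₁ (W.W x y / q)) ≤
      ∫ x in Sᶜ, ∫ y in Sᶜ, zet θ (YY W q b x y) := by
    have h1 : ∫ x in Sᶜ, ∫ y in Sᶜ, 1 / (a : ℝ) * fB d₁ (W.W x y / q) ≤
        ∫ x in Sᶜ, ∫ y in Sᶜ, zet θ (YY W q b x y) := by
      apply BK.mono (BK.const_mul _ hB) (BK.zet hY h0 hθ) hS.compl hS.compl
      intro x _ y _
      have h2 := zet_ge hb hba le_rfl (XX_nonneg (W := W) hq0 x y)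
      have h3 : fB d₁ (W.W x y / q) ≤ (W.W x y / q - 1) ^ 2 := by
        unfold fB
        split_ifs
        · positivity
        · exact le_rfl
      rw [hθe]
      exact (mul_le_mul_of_nonneg_left h3 (by positivity)).trans h2
    simp only [BF.int_mul] at h1
    exact h1
  have hBB : 0 ≤ ∫ x in Sᶜ, ∫ y in Sᶜ, fB d₁ (W.W x y / q) :=
    setIntegral_nonneg hS.compl fun x _ => setIntegral_nonneg hS.compl fun y _ => fB_nonneg
  have hAA : 0 ≤ ∫ x, ∫ y, fA d₁ (W.W x y / q) :=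
    integral_nonneg fun x => integral_nonneg fun y => fA_nonneg
  -- absorption
  have t4 : C₂ * (3 * L * (ε₁ / d₁)) ≤ 1 / 2 * (1 / (a : ℝ)) := by
    have h1 : ε₁ / d₁ ≤ 1 / (6 * a * C₂ * L + 1) := by
      rw [div_le_div_iff₀ hd (by positivity)]
      linarith
    have h2 : C₂ * (3 * L * (ε₁ / d₁)) ≤ C₂ * (3 * L * (1 / (6 * a * C₂ * L + 1))) := by
      apply mul_le_mul_of_nonneg_left _ hC₂0
      exact mul_le_mul_of_nonneg_left h1 (by positivity)
    refine h2.trans ?_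
    have h3 : 0 < 6 * a * C₂ * L + 1 := by positivity
    have e : C₂ * (3 * L * (1 / (6 * a * C₂ * L + 1))) = 3 * C₂ * L / (6 * a * C₂ * L + 1) := by
      field_simp
    rw [e, div_le_iff₀ h3]
    have e2 : 1 / 2 * (1 / (a : ℝ)) * (6 * a * C₂ * L + 1) = 3 * C₂ * L + 1 / (2 * a) := by
      field_simp
      ring
    rw [e2]
    have : 0 ≤ 1 / (2 * (a : ℝ)) := by positivity
    linarith
  have t5 := mul_le_mul_of_nonneg_right t4 hBB
  unfold Exc
  rw [← hθe]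
  refine hmain.trans ?_
  have hη : 0 ≤ ln S ^ 2 := sq_nonneg _
  have h9 : 0 ≤ (yc θ * R ^ θ + (θ - 1) + 3 * C₂ * R ^ 2) * ∫ x, ∫ y, fA d₁ (W.W x y / q) := by
    have h1 : 0 ≤ yc θ * R ^ θ := mul_nonneg hyc hRθ
    have h2 : 0 ≤ 3 * C₂ * R ^ 2 := by positivity
    exact mul_nonneg (by linarith) hAA
  have h10 : 0 ≤ 3 * C₂ * L * ln S ^ 2 := by positivity
  nlinarith

end Pool.Agent.W_bbc525_ends
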