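import Pool.Agent.W_bbc525_ends.L2

/-!
# The end `q → 1`: conclusion
-/

set_option autoImplicit false

namespace Pool.Agent.W_bbc525_ends

open MeasureTheory Finset Pool.Agent.W_MP_bbc525_pr Pool.Agent.W_bbc525_h89 Pool.Agent.W_bbc525_td

theorem BK.mono' {f g : unitInterval → unitInterval → ℝ} (hf : BK f) (hg : BK g)
    (h : ∀ x y, f x y ≤ g x y) : ∫ x, ∫ y, f x y ≤ ∫ x, ∫ y, g x y := by
  have := BK.mono hf hg (S := Set.univ) (T := Set.univ) MeasurableSet.univ MeasurableSet.univ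
    (fun x _ y _ => h x y)
  simpa only [Measure.restrict_univ] using this

theorem BK.int_add' {f g : unitInterval → unitInterval → ℝ} (hf : BK f) (hg : BK g) :
    ∫ x, ∫ y, (f x y + g x y) = (∫ x, ∫ y, f x y) + ∫ x, ∫ y, g x y := by
  have e1 : ∀ x, ∫ y, (f x y + g x y) = (∫ y, f x y) + ∫ y, g x y := by
    intro x
    have := (hf.row x).int_add (hg.row x) Set.univ
    simpa only [Measure.restrict_univ] using this
  simp only [e1]
  have := (hf.iter').int_add (hg.iter') Set.univ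
  simpa only [Measure.restrict_univ] using this

theorem BK.int_mul' (c : ℝ) (f : unitInterval → unitInterval → ℝ) :
    ∫ x, ∫ y, c * f x y = c * ∫ x, ∫ y, f x y := by
  simp only [integral_const_mul]

/-- the mean of squares -/
theorem BK.sq_le {f : unitInterval → unitInterval → ℝ} (hf : BK f) :
    (∫ x, ∫ y, f x y) ^ 2 ≤ ∫ x, ∫ y, f x y ^ 2 := by
  have hu : ln Set.univ = 1 := by
    unfold ln
    simp
  have h1 := sq_int_le hf.iter' (S := Set.univ) MeasurableSet.univ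
  rw [hu, one_mul] at h1
  simp only [Measure.restrict_univ] at h1
  refine h1.trans ?_
  have hf2 : BK (fun x y => f x y ^ 2) := hf.pow 2
  have h3 : BF (fun x => (∫ y, f x y) ^ 2) := by
    have := hf.iter'.mul hf.iter'
    simpa only [← pow_two] using this
  have h2 := BF.mono h3 hf2.iter' (S := Set.univ) MeasurableSet.univ (fun x _ => by
    have h4 := sq_int_le (hf.row x) (S := Set.univ) MeasurableSet.univ
    rw [hu, one_mul] at h4
    simpa only [Measure.restrict_univ] using h4)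
  simpa only [Measure.restrict_univ] using h2

/-! ### feasibility -/

theorem pow_le_up_dn {b : ℕ} (hb : 1 ≤ b) {X : ℝ} (hX : 0 ≤ X) (hX2 : X ≤ 2) :
    X ^ b ≤ 1 + b * 2 ^ b * up X - dn X := by
  unfold up dn
  rcases le_total X 1 with h | h
  · rw [max_eq_right (by linarith), max_eq_left (by linarith)]
    have := pow_le_of_le_one hX h (by omega : b ≠ 0)
    linarith
  · rw [max_eq_left (by linarith), max_eq_right (by linarith)]
    have h1 := abs_pow_sub_le b hX hX2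
    rw [abs_of_nonneg (by linarith : 0 ≤ X - 1)] at h1
    linarith [le_abs_self (X ^ b - 1)]

/-- the row functional -/
theorem row_feas {a b : ℕ} (hb : 1 ≤ b) (hba : b ≤ a) : ∃ C : ℝ, 0 ≤ C ∧
    ∀ (W : Graphon) (q : ℝ) (x : unitInterval), 1 / 2 ≤ q →
      (∫ y, YY W q b x y) ^ ((a : ℝ) / b) - 1 ≤
        C * (∫ y, up (W.W x y / q)) - ∫ y, dn (W.W x y / q) := by
  have hb0 : (0 : ℝ) < b := by exact_mod_cast hb
  have hba' : (b : ℝ) ≤ a := by exact_mod_cast hba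
  obtain ⟨θ, hθe⟩ : ∃ θ, θ = (a : ℝ) / b := ⟨_, rfl⟩
  have hθ : 1 ≤ θ := by
    rw [hθe, le_div_iff₀ hb0]
    linarith
  have hθa : θ ≤ a := by
    rw [hθe, div_le_iff₀ hb0]
    have : (1 : ℝ) ≤ b := by exact_mod_cast hb
    nlinarith
  obtain ⟨R, hR⟩ : ∃ R : ℝ, R = 2 ^ b := ⟨_, rfl⟩
  have hR1 : 1 ≤ R := hR ▸ one_le_pow₀ (by norm_num)
  obtain ⟨C₂, hC₂⟩ : ∃ C₂ : ℝ, C₂ = (2 * R) ^ a := ⟨_, rfl⟩
  have hC₂0 : 0 ≤ C₂ := hC₂ ▸ by positivity
  have hL : (0 : ℝ) ≤ b * 2 ^ b := by positivity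
  refine ⟨(θ + C₂ * R) * (b * 2 ^ b), by positivity, ?_⟩
  intro W q x hq
  have hq0 : 0 < q := by linarith
  have hY := BK.YY (W := W) hq0 b
  have h0 := YY_nonneg (W := W) hq0 b
  have hr0 : 0 ≤ ∫ y, YY W q b x y := integral_nonneg fun y => h0 x y
  have hrR : ∫ y, YY W q b x y ≤ R := by
    have h1 : ∫ y, YY W q b x y ≤ ∫ _ : unitInterval, R := by
      apply integral_mono (hY.row x).integrable (integrable_const _)
      intro y
      rw [hR]
      exact pow_le_pow_left₀ (XX_nonneg hq0 x y) (XX_le_two hq x y) b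
    simpa using h1
  have hu := (BK.up (W := W) hq).row x
  have hd := (BK.dn (W := W) hq).row x
  have hu0 : 0 ≤ ∫ y, up (W.W x y / q) := integral_nonneg fun y => up_nonneg
  have hd0 : 0 ≤ ∫ y, dn (W.W x y / q) := integral_nonneg fun y => dn_nonneg
  have hrz : ∫ y, YY W q b x y ≤ 1 + b * 2 ^ b * (∫ y, up (W.W x y / q)) -
      ∫ y, dn (W.W x y / q) := by
    have hku := BF.const_mul (b * 2 ^ b : ℝ) hu
    have h1 : ∫ y, YY W q b x y ≤ ∫ y, ((1 + b * 2 ^ b * up (W.W x y / q)) -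
        dn (W.W x y / q)) := by
      apply integral_mono (hY.row x).integrable (((BF.const 1).add hku).sub hd).integrable
      intro y
      exact pow_le_up_dn hb (XX_nonneg hq0 x y) (XX_le_two hq x y)
    have h2 := ((BF.const 1).add hku).int_sub hd Set.univ
    rw [(BF.const 1).int_add hku, BF.int_mul] at h2
    simp only [Measure.restrict_univ] at h2
    rw [h2] at h1
    simpa using h1
  rw [← hθe]
  obtain ⟨r, hr⟩ : ∃ r, r = ∫ y, YY W q b x y := ⟨_, rfl⟩
  rw [← hr] at hr0 hrR hrz ⊢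
  set U := ∫ y, up (W.W x y / q)
  set D := ∫ y, dn (W.W x y / q)
  have hC1 : 1 ≤ θ + C₂ * R := by
    have : 0 ≤ C₂ * R := by positivity
    linarith
  have hLU : 0 ≤ b * 2 ^ b * U := mul_nonneg hL hu0
  rcases le_or_gt r 1 with h | h
  · have h1 : r ^ θ ≤ r := by
      rcases hr0.eq_or_lt with h2 | h2
      · rw [← h2, Real.zero_rpow (by linarith)]
      · have := Real.rpow_le_rpow_of_exponent_ge h2 h hθ
        rwa [Real.rpow_one] at this
    have h2 : b * 2 ^ b * U ≤ (θ + C₂ * R) * (b * 2 ^ b * U) :=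
      le_mul_of_one_le_left hLU hC1
    nlinarith
  · have h1 := zet_le hθ hθa hR1 hr0 hrR
    rw [← hC₂] at h1
    unfold zet at h1
    have h2 : C₂ * (r - 1) ^ 2 ≤ C₂ * R * (r - 1) := by
      have h3 : (r - 1) ^ 2 ≤ R * (r - 1) := by nlinarith
      have := mul_le_mul_of_nonneg_left h3 hC₂0
      linarith
    have h3 : r ^ θ - 1 ≤ (θ + C₂ * R) * (r - 1) := by linarith
    have h4 : (θ + C₂ * R) * (r - 1) ≤ (θ + C₂ * R) * (b * 2 ^ b * U - D) :=
      mul_le_mul_of_nonneg_left (by linarith) (by linarith)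
    have h5 : D ≤ (θ + C₂ * R) * D := le_mul_of_one_le_left hd0 hC1
    nlinarith

theorem mix_eq {W : Graphon} {q : ℝ} (hq : 0 < q) {a b : ℕ} (hb : 0 < b) :
    ∫ x, (∫ y, YY W q b x y) ^ ((a : ℝ) / b) = mix W a b / q ^ a := by
  have hb' : (0 : ℝ) < b := by exact_mod_cast hb
  have e3 : ∀ x, (∫ y, YY W q b x y) ^ ((a : ℝ) / b) = inn W b x ^ ((a : ℝ) / b) / q ^ a := by
    intro x
    rw [YY_row, Real.div_rpow (inn_nonneg W b x) (by positivity), ← Real.rpow_natCast q b,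
      ← Real.rpow_mul hq.le, mul_div_cancel₀ _ hb'.ne', Real.rpow_natCast]
  simp only [e3]
  rw [integral_div]
  rfl

theorem mix_feas {a b : ℕ} (hb : 1 ≤ b) (hba : b ≤ a) : ∃ C : ℝ, 0 ≤ C ∧
    ∀ (W : Graphon) (q : ℝ), 1 / 2 ≤ q → mix W a b / q ^ a - 1 ≤
      C * (∫ x, ∫ y, up (W.W x y / q)) - ∫ x, ∫ y, dn (W.W x y / q) := by
  obtain ⟨C, hC, h⟩ := row_feas hb hba
  refine ⟨C, hC, fun W q hq => ?_⟩
  have hq0 : 0 < q := by linarith
  have hb0 : (0 : ℝ) < b := by exact_mod_cast hb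
  have hY := BK.YY (W := W) hq0 b
  have hr : BF (fun x => ∫ y, YY W q b x y) := hY.iter'
  have hr0 : ∀ x, 0 ≤ ∫ y, YY W q b x y := fun x =>
    integral_nonneg fun y => YY_nonneg (W := W) hq0 b x y
  have hrt := hr.rpow hr0 (by positivity : 0 ≤ (a : ℝ) / b)
  have hu := (BK.up (W := W) hq).iter'
  have hd := (BK.dn (W := W) hq).iter'
  rw [← mix_eq hq0 (by omega : 0 < b)]
  have h1 : ∫ x, ((∫ y, YY W q b x y) ^ ((a : ℝ) / b) - 1) ≤
      ∫ x, (C * (∫ y, up (W.W x y / q)) - ∫ y, dn (W.W x y / q)) := by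
    apply integral_mono (hrt.sub (BF.const 1)).integrable
      ((BF.const_mul C hu).sub hd).integrable
    intro x
    exact h W q x hq
  have h2 := hrt.int_sub (BF.const 1) Set.univ
  simp only [Measure.restrict_univ] at h2
  have h3 := (BF.const_mul C hu).int_sub hd Set.univ
  rw [BF.int_mul] at h3
  simp only [Measure.restrict_univ] at h3
  rw [h2, h3] at h1
  simpa using h1

section graph

variable {V : Type*} [Fintype V] [DecidableEq V] {H : SimpleGraph V} [DecidableRel H.Adj]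

/-- feasibility bounds the deficit by the surplus -/
theorem feas_dn (hE : 0 < H.edgeFinset.card) : ∃ C : ℝ, 0 ≤ C ∧
    ∀ (W : Graphon) (q : ℝ), 1 / 2 ≤ q → q ^ H.edgeFinset.card ≤ homDensity H W →
      ∫ x, ∫ y, dn (W.W x y / q) ≤ C * ∫ x, ∫ y, up (W.W x y / q) := by
  have hex : ∀ e : Sym2 V, ∃ C : ℝ, 0 ≤ C ∧ (e ∈ H.edgeFinset →
      ∀ (W : Graphon) (q : ℝ), 1 / 2 ≤ q → mix W (mdeg H e) (ndeg H e) / q ^ mdeg H e - 1 ≤
      C * (∫ x, ∫ y, up (W.W x y / q)) - ∫ x, ∫ y, dn (W.W x y / q)) := by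
    intro e
    by_cases he : e ∈ H.edgeFinset
    · obtain ⟨C, hC, h⟩ := mix_feas (a := mdeg H e) (b := ndeg H e) (ndeg_pos H he)
        (ndeg_le_mdeg H e)
      exact ⟨C, hC, fun _ => h⟩
    · exact ⟨0, le_rfl, fun h => absurd h he⟩
  choose C hC hCe using hex
  set c₀ : ℝ := ∑ e ∈ H.edgeFinset, 1 / (mdeg H e : ℝ) with hc₀
  have hc0 : 0 < c₀ := by
    obtain ⟨e, he⟩ := Finset.card_pos.1 hE
    refine Finset.sum_pos (fun e he => ?_) ⟨e, he⟩
    have : (0 : ℝ) < mdeg H e := by exact_mod_cast mdeg_pos H he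
    positivity
  refine ⟨(∑ e ∈ H.edgeFinset, C e) / c₀,
    div_nonneg (Finset.sum_nonneg fun e _ => hC e) hc0.le, fun W q hq hW => ?_⟩
  have hq0 : 0 < q := by linarith
  have h1 := feas_mix hq0 W hW
  set U := ∫ x, ∫ y, up (W.W x y / q)
  set D := ∫ x, ∫ y, dn (W.W x y / q)
  have hU : 0 ≤ U := integral_nonneg fun x => integral_nonneg fun y => up_nonneg
  have h2 : ∑ e ∈ H.edgeFinset,
      (mix W (mdeg H e) (ndeg H e) / q ^ mdeg H e - 1) / (mdeg H e : ℝ) ≤
      ∑ e ∈ H.edgeFinset, (C e * U - 1 / (mdeg H e : ℝ) * D) := by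
    refine Finset.sum_le_sum fun e he => ?_
    have ha : (1 : ℝ) ≤ mdeg H e := by exact_mod_cast mdeg_pos H he
    have ha0 : (0 : ℝ) < mdeg H e := by linarith
    have h3 := div_le_div_of_nonneg_right (hCe e he W q hq) ha0.le
    refine h3.trans ?_
    rw [sub_div]
    have h4 : C e * U / (mdeg H e : ℝ) ≤ C e * U := div_le_self (mul_nonneg (hC e) hU) ha
    have h5 : D / (mdeg H e : ℝ) = 1 / (mdeg H e : ℝ) * D := by ring
    rw [h5]
    linarith
  rw [Finset.sum_sub_distrib, ← Finset.sum_mul, ← Finset.sum_mul, ← hc₀] at h2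
  have h3 : c₀ * D ≤ (∑ e ∈ H.edgeFinset, C e) * U := by linarith
  rw [div_mul_eq_mul_div, le_div_iff₀ hc0]
  linarith

/-- the excess of all edges -/
theorem exc_all (H : SimpleGraph V) [DecidableRel H.Adj] : ∃ C K : ℝ, 0 ≤ C ∧ 1 ≤ K ∧
    ∀ (W : Graphon) (q ε₁ d₁ : ℝ), 1 / 2 ≤ q → 0 < ε₁ → 0 < d₁ → K * ε₁ ≤ d₁ →
      ∑ e ∈ H.edgeFinset, Exc W q (mdeg H e) (ndeg H e) / (mdeg H e : ℝ) ≤
        C * ((∫ x, ∫ y, fA d₁ (W.W x y / q)) + ln (Sd W q ε₁) ^ 2) := by
  have hex : ∀ e : Sym2 V, ∃ C K : ℝ, 0 ≤ C ∧ 1 ≤ K ∧ (e ∈ H.edgeFinset →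
      ∀ (W : Graphon) (q ε₁ d₁ : ℝ), 1 / 2 ≤ q → 0 < ε₁ → 0 < d₁ → K * ε₁ ≤ d₁ →
      Exc W q (mdeg H e) (ndeg H e) ≤
        C * ((∫ x, ∫ y, fA d₁ (W.W x y / q)) + ln (Sd W q ε₁) ^ 2)) := by
    intro e
    by_cases he : e ∈ H.edgeFinset
    swap
    · exact ⟨0, 1, le_rfl, le_rfl, fun h => absurd h he⟩
    rcases (ndeg_le_mdeg H e).eq_or_lt with h | h
    · refine ⟨0, 1, le_rfl, le_rfl, fun _ W q ε₁ d₁ _ _ _ _ => ?_⟩
      have hz : ∀ y : ℝ, zet 1 y = 0 := by
        intro y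
        unfold zet
        rw [Real.rpow_one]
        ring
      have ha : (mdeg H e : ℝ) ≠ 0 := by exact_mod_cast (mdeg_pos H he).ne'
      unfold Exc
      rw [h, div_self ha]
      simp only [hz]
      simp
    · obtain ⟨C, K, hC, hK, hh⟩ := exc_small' (ndeg_pos H he) h
      exact ⟨C, K, hC, hK, fun _ => hh⟩
  choose C K hC hK hh using hex
  refine ⟨∑ e ∈ H.edgeFinset, C e, 1 + ∑ e ∈ H.edgeFinset, K e,
    Finset.sum_nonneg fun e _ => hC e, ?_, ?_⟩
  · have : 0 ≤ ∑ e ∈ H.edgeFinset, K e := Finset.sum_nonneg fun e _ => by linarith [hK e]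
    linarith
  intro W q ε₁ d₁ hq hε hd hKK
  set Z := (∫ x, ∫ y, fA d₁ (W.W x y / q)) + ln (Sd W q ε₁) ^ 2
  have hZ : 0 ≤ Z := add_nonneg (integral_nonneg fun x => integral_nonneg fun y => fA_nonneg)
    (sq_nonneg _)
  rw [Finset.sum_mul]
  refine Finset.sum_le_sum fun e he => ?_
  have ha : (1 : ℝ) ≤ mdeg H e := by exact_mod_cast mdeg_pos H he
  have h1 : K e * ε₁ ≤ d₁ := by
    have h2 : K e ≤ ∑ e ∈ H.edgeFinset, K e :=
      Finset.single_le_sum (f := K) (fun e _ => by linarith [hK e]) he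
    nlinarith
  have h2 := hh e he W q ε₁ d₁ hq hε hd h1
  have h3 : Exc W q (mdeg H e) (ndeg H e) / (mdeg H e : ℝ) ≤ C e * Z / (mdeg H e : ℝ) :=
    div_le_div_of_nonneg_right h2 (by linarith)
  exact h3.trans (div_le_self (mul_nonneg (hC e) hZ) ha)

/-- the potential near `1` -/
theorem PsiV_le (hE : 0 < H.edgeFinset.card) : ∃ C : ℝ, 0 ≤ C ∧ ∀ X, 0 ≤ X → X ≤ 2 →
    PsiV H X ≤ C * (X - 1) ^ 2 := by
  have hE' : (0 : ℝ) < H.edgeFinset.card := by exact_mod_cast hE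
  refine ⟨1 / (2 * (H.edgeFinset.card : ℝ)) * ∑ v, (2 * 2 : ℝ) ^ H.degree v, by positivity, ?_⟩
  intro X hX hX2
  have e1 : PsiV H X = 1 / (2 * (H.edgeFinset.card : ℝ)) * ∑ v, pp (H.degree v) X := by
    unfold PsiV pp
    have e2 : ∑ v, (X ^ H.degree v - 1 - (H.degree v : ℝ) * (X - 1)) =
        (∑ v, (X ^ H.degree v - 1)) - 2 * H.edgeFinset.card * (X - 1) := by
      rw [Finset.sum_sub_distrib, ← Finset.sum_mul]
      have h := H.sum_degrees_eq_twice_card_edges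
      have h' : ∑ v, (H.degree v : ℝ) = 2 * H.edgeFinset.card := by exact_mod_cast h
      rw [h']
    rw [e2]
    field_simp
  rw [e1, mul_assoc]
  apply mul_le_mul_of_nonneg_left _ (by positivity)
  rw [Finset.sum_mul]
  exact Finset.sum_le_sum fun v _ => pp_le (by norm_num) _ hX hX2

/-- **The end `q → 1`.** -/
theorem large_end (hE : 0 < H.edgeFinset.card) (h0 : 0 < PsiV H 0) :
    ∃ c : ℝ, 0 < c ∧ c < 1 ∧ ∀ p q : ℝ, 0 < p → p ≤ q → 1 - c ≤ q → q < 1 → Ncond H p q →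
      UniqueMinimizer H p q := by
  have hE' : (0 : ℝ) < H.edgeFinset.card := by exact_mod_cast hE
  have hE1 : (1 : ℝ) ≤ H.edgeFinset.card := by exact_mod_cast hE
  obtain ⟨C₁, K₁, hC₁, hK₁, hexc⟩ := exc_all H
  obtain ⟨CΨ, hCΨ, hΨ⟩ := PsiV_le hE
  obtain ⟨Cf, hCf, hfeas⟩ := feas_dn hE
  set C₀ := 1 / PsiV H 0 with hC₀
  have hC₀0 : 0 < C₀ := by positivity
  obtain ⟨d₁, s₁, hd₁, hd₁1, hs₁, hdown⟩ := down_quad (K := (C₁ + CΨ + 1) * C₀)
    (mul_pos (by linarith) hC₀0)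
  set ε₁ := d₁ / K₁ with hε₁
  have hε₁0 : 0 < ε₁ := div_pos hd₁ (by linarith)
  have hKε : K₁ * ε₁ ≤ d₁ := by
    rw [hε₁, mul_div_cancel₀ _ (by linarith : K₁ ≠ 0)]
  set G := CΨ + C₁ + C₁ * (Cf / ε₁) ^ 2 with hG
  have hG0 : 0 ≤ G := by positivity
  obtain ⟨s₂, hs₂, hlog⟩ := log_pow_small (8 * C₀ * G) 1
  set s₀ := max s₁ s₂ with hs₀
  have hs₀1 : 1 ≤ s₀ := hs₁.trans (le_max_left _ _)
  refine ⟨1 / (1 + s₀), by positivity, ?_, ?_⟩
  · rw [div_lt_one (by linarith)]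
    linarith
  intro p q hp hpq hqc hq1 hN W hW hcost
  have hq : 0 < q := lt_of_lt_of_le hp hpq
  have hq1' : 0 < 1 - q := by linarith
  have hqs : s₀ / (1 + s₀) ≤ q := by
    have e : 1 - 1 / (1 + s₀) = s₀ / (1 + s₀) := by
      field_simp
      ring
    linarith
  have hqhalf : 1 / 2 ≤ q := by
    refine le_trans ?_ hqs
    rw [div_le_div_iff₀ (by norm_num) (by linarith)]
    linarith
  set s := q / (1 - q) with hs
  have hss : s₀ ≤ s := by
    rw [hs, le_div_iff₀ hq1']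
    rw [div_le_iff₀ (by linarith)] at hqs
    linarith
  have hs1 : 1 ≤ s := hs₀1.trans hss
  have hsq : (1 - q) * (1 + s) = 1 := by
    rw [hs]
    field_simp
    ring
  set T := q * (logit q - logit p) with hT
  have hT0 : 0 ≤ T := mul_nonneg hq.le (logit_mono hp hpq hq1)
  have hpsi := Ncond.psi hE hp hpq hq1 hN
  -- `T ≤ C₀ log (1 + s)`
  have hTl : T ≤ C₀ * Real.log (1 + s) := by
    have h1 := hpsi 0 le_rfl (by positivity)
    rw [dd_zero_eq hq1, ← hs, ← hT] at h1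
    rw [hC₀, div_mul_eq_mul_div, one_mul, le_div_iff₀ h0]
    exact h1
  have hl0 : 0 ≤ Real.log (1 + s) := Real.log_nonneg (by linarith)
  have hTG : T * G ≤ s / 8 := by
    have h1 := hlog s ((le_max_right _ _).trans hss)
    rw [pow_one] at h1
    have h2 : T * G ≤ C₀ * Real.log (1 + s) * G := mul_le_mul_of_nonneg_right hTl hG0
    linarith
  -- the pointwise inequality
  have hpt : ∀ X, 0 ≤ X → X ≤ 1 / q →
      C₁ * T * fA d₁ X + (s / 4 - T * (CΨ + C₁)) * up X ^ 2 ≤ dd q X - T * PsiV H X := by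
    intro X hX hX1
    have hX2 : X ≤ 2 := by
      refine hX1.trans ?_
      rw [div_le_iff₀ hq]
      linarith
    have hS0 := hpsi X hX hX1
    rw [← hT] at hS0
    have hPs := hΨ X hX hX2
    have hTP := mul_le_mul_of_nonneg_left hPs hT0
    rcases le_total 1 X with h | h
    · have h1 := dd_up hqhalf hq1 h hX1
      rw [← hs] at h1
      have e1 : fA d₁ X = (X - 1) ^ 2 := by
        unfold fA
        rw [if_pos (by linarith)]
      have e2 : up X = X - 1 := by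
        unfold up
        rw [max_eq_left (by linarith)]
      rw [e1, e2]
      nlinarith
    · have e2 : up X = 0 := by
        unfold up
        rw [max_eq_right (by linarith)]
      rw [e2]
      by_cases h3 : 1 - X ≤ d₁
      · have e1 : fA d₁ X = (X - 1) ^ 2 := by
          unfold fA
          rw [if_pos h3]
        rw [e1]
        have h4 := hdown s (1 - X) ((le_max_left _ _).trans hss) (by linarith) h3
        have h5 := dd_down hq hq1 (d := 1 - X) (by linarith)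
        rw [← hs] at h5
        have e3 : 1 - (1 - X) = X := by ring
        rw [e3] at h5
        have h6 := mul_le_mul_of_nonneg_left h4 hq1'.le
        have e4 : (1 - q) * ((C₁ + CΨ + 1) * C₀ * Real.log (1 + s) * (1 - X) ^ 2 * (1 + s)) =
            (C₁ + CΨ + 1) * (C₀ * Real.log (1 + s)) * (X - 1) ^ 2 := by
          linear_combination ((C₁ + CΨ + 1) * C₀ * Real.log (1 + s) * (1 - X) ^ 2) * hsq
        rw [e4] at h6
        have h7 : (C₁ + CΨ) * T * (X - 1) ^ 2 ≤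
            (C₁ + CΨ + 1) * (C₀ * Real.log (1 + s)) * (X - 1) ^ 2 := by
          apply mul_le_mul_of_nonneg_right _ (sq_nonneg _)
          have h8 : 0 ≤ C₀ * Real.log (1 + s) := mul_nonneg hC₀0.le hl0
          have h9 : (C₁ + CΨ) * T ≤ (C₁ + CΨ) * (C₀ * Real.log (1 + s)) :=
            mul_le_mul_of_nonneg_left hTl (by linarith)
          linarith
        nlinarith
      · have e1 : fA d₁ X = 0 := by
          unfold fA
          rw [if_neg h3]
        rw [e1]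
        nlinarith
  -- integration
  have hA := BK.fA (W := W) hqhalf d₁
  have hu := BK.up (W := W) hqhalf
  have hu2 : BK (fun x y => up (W.W x y / q) ^ 2) := hu.pow 2
  have hdn := BK.dn (W := W) hqhalf
  have hint : C₁ * T * (∫ x, ∫ y, fA d₁ (W.W x y / q)) +
      (s / 4 - T * (CΨ + C₁)) * (∫ x, ∫ y, up (W.W x y / q) ^ 2) ≤
      ∫ x, ∫ y, (dd q (W.W x y / q) - T * PsiV H (W.W x y / q)) := by
    have h1 := BK.mono' ((BK.const_mul (C₁ * T) hA).add
      (BK.const_mul (s / 4 - T * (CΨ + C₁)) hu2))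
      ((BK.dd hq hq1 W).sub (BK.const_mul T (BK.psiV (H := H) hq W)))
      (fun x y => hpt (W.W x y / q) (XX_nonneg hq x y) (XX_le hq x y))
    rw [BK.int_add' (BK.const_mul (C₁ * T) hA) (BK.const_mul (s / 4 - T * (CΨ + C₁)) hu2),
      BK.int_mul', BK.int_mul'] at h1
    exact h1
  have hstar := star_ineq hE hp hpq hq1 W hcost
  rw [← hT] at hstar
  have hfm := feas_mix hq W hW
  have hTE : 0 ≤ T / (H.edgeFinset.card : ℝ) := div_nonneg hT0 hE'.le
  have hsecond := mul_nonneg hTE hfm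
  have hexcW := hexc W q ε₁ d₁ hqhalf hε₁0 hd₁ hKε
  set A := ∫ x, ∫ y, fA d₁ (W.W x y / q)
  set η := ln (Sd W q ε₁) with hη
  set U := ∫ x, ∫ y, up (W.W x y / q) with hU
  set U2 := ∫ x, ∫ y, up (W.W x y / q) ^ 2 with hU2
  have hU0 : 0 ≤ U := integral_nonneg fun x => integral_nonneg fun y => up_nonneg
  have hU20 : 0 ≤ U2 := integral_nonneg fun x => integral_nonneg fun y => sq_nonneg _
  have hA0 : 0 ≤ A := integral_nonneg fun x => integral_nonneg fun y => fA_nonneg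
  have hUU : U ^ 2 ≤ U2 := hu.sq_le
  have hTZ : T / (H.edgeFinset.card : ℝ) * (C₁ * (A + η ^ 2)) ≤ T * (C₁ * (A + η ^ 2)) := by
    apply mul_le_mul_of_nonneg_right (div_le_self hT0 hE1)
    positivity
  have h1 := mul_le_mul_of_nonneg_left hexcW hTE
  have h2 : (s / 4 - T * (CΨ + C₁)) * U2 ≤ T * C₁ * η ^ 2 := by nlinarith
  -- the deficit
  have hdU := hfeas W q hqhalf hW
  rw [← hU] at hdU
  have hεη : ε₁ * η ≤ Cf * U := by
    refine le_trans ?_ hdU
    have hSm := measurableSet_Sd (W := W) hqhalf ε₁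
    have h3 : ∫ _ in Sd W q ε₁, ε₁ ≤ ∫ x in Sd W q ε₁, ∫ y, dn (W.W x y / q) :=
      BF.mono (BF.const _) hdn.iter' hSm (fun x hx => le_of_lt hx)
    rw [set_const] at h3
    have h4 := BF.int_subset hdn.iter' (fun x => integral_nonneg fun y => dn_nonneg) (Sd W q ε₁)
    rw [hη]
    linarith
  have hη2 : η ^ 2 ≤ (Cf / ε₁) ^ 2 * U2 := by
    have h3 : η ≤ Cf / ε₁ * U := by
      rw [div_mul_eq_mul_div, le_div_iff₀ hε₁0]
      linarith
    have h4 : η ^ 2 ≤ (Cf / ε₁ * U) ^ 2 := pow_le_pow_left₀ (ln_nonneg _) h3 2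
    rw [mul_pow] at h4
    exact h4.trans (mul_le_mul_of_nonneg_left hUU (sq_nonneg _))
  have h3 : T * C₁ * η ^ 2 ≤ T * C₁ * ((Cf / ε₁) ^ 2 * U2) :=
    mul_le_mul_of_nonneg_left hη2 (mul_nonneg hT0 hC₁)
  have h4 : (s / 4 - T * G) * U2 ≤ 0 := by
    rw [hG]
    nlinarith
  have h5 : U2 = 0 := by
    have h6 : 0 < s / 4 - T * G := by linarith
    by_contra hne
    have h7 : 0 < U2 := lt_of_le_of_ne hU20 (Ne.symm hne)
    have := mul_pos h6 h7
    linarith
  have h6 : U = 0 := by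
    rw [h5] at hUU
    nlinarith
  have h7 : ∫ x, ∫ y, dn (W.W x y / q) = 0 := by
    rw [h6, mul_zero] at hdU
    exact le_antisymm hdU (integral_nonneg fun x => integral_nonneg fun y => dn_nonneg)
  -- the conclusion
  have hsum := hu.add hdn
  have h8 : ∫ z : unitInterval × unitInterval,
      (up (W.W z.1 z.2 / q) + dn (W.W z.1 z.2 / q)) = 0 := by
    rw [hsum.prod, BK.int_add' hu hdn, ← hU, h6, h7, add_zero]
  have hintg : Integrable (fun z : unitInterval × unitInterval =>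
      up (W.W z.1 z.2 / q) + dn (W.W z.1 z.2 / q)) := by
    obtain ⟨C, hC⟩ := hsum.bdd
    exact Graphon.integrable_of_bdd hsum.meas (C := C) fun z => hC z.1 z.2
  have h9 := (integral_eq_zero_iff_of_nonneg
    (fun z : unitInterval × unitInterval => add_nonneg up_nonneg dn_nonneg) hintg).1 h8
  filter_upwards [h9] with z hz
  have h10 : up (W.W z.1 z.2 / q) + dn (W.W z.1 z.2 / q) = 0 := hz
  have h11 := up_nonneg (X := W.W z.1 z.2 / q)
  have h12 := dn_nonneg (X := W.W z.1 z.2 / q)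
  have h13 := up_sub_dn (X := W.W z.1 z.2 / q)
  have h14 : W.W z.1 z.2 / q = 1 := by linarith
  rwa [div_eq_one_iff_eq hq.ne'] at h14

end graph

end Pool.Agent.W_bbc525_ends
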