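import Pool.Agent.W_bbc525_ends.D0

/-!
# Pointwise product bound, exponent at most two

`theorem SA.dl_le_prod`: for `1 < θ ≤ 2` and `x, y ≥ 0`, with `n = θ / (θ - 1)`,
`(x^(θ-1) + y^(θ-1) - 1)₊ ^ n ≤ x ^ θ + y ^ θ - 1 + θ (x - 1) (y - 1)`.
(Numerically checked.)

PROOF. Write `k = 1 / (θ - 1) = n - 1 ≥ 1`, so `θ = n (θ - 1)`, `n = 1 + k`, `x = (x^(θ-1))^k`.
The claim is symmetric in `x, y` and continuous, so one may take `x > 0`, `y > 0` (or treat `0`
apart). Fix `x`, put `c = x^(θ-1) - 1 ≥ -1` and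
`F(y) = x^θ + y^θ - 1 + θ (x - 1)(y - 1) - (y^(θ-1) + c)₊^n`. Then `F(1) = 0`
(as `(1 + c)^n = x^θ`) and for `y > 0` with `y^(θ-1) + c > 0`
`F'(y) = θ y^(θ-1) + θ (x - 1) - n (θ-1) y^(θ-2) (y^(θ-1) + c)^k
       = θ y^(θ-1) { 1 - (1 + c w)^k + w (x - 1) }`, `w = y^(-(θ-1)) = y^(1-θ)`.
The function `t ↦ (1 + c t)^k` (`k ≥ 1`) is convex, equals `1` at `t = 0` and `x` at `t = 1`.
Hence for `w ≤ 1` (that is `y ≥ 1`): `(1 + c w)^k ≤ 1 - w + w x`, so `F'(y) ≥ 0`; and for
`w ≥ 1` (that is `y ≤ 1`): `(1 + c w)^k ≥ 1 - w + w x` (as long as `1 + c w ≥ 0`), so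
`F'(y) ≤ 0`. If `y^(θ-1) + c ≤ 0` (only possible if `x < 1`, `y < 1`) then
`F'(y) = θ (y^(θ-1) - (1 - x)) ≤ 0` because `y^(θ-1) ≤ 1 - x^(θ-1) ≤ 1 - x`
(`x ≤ x^(θ-1)` for `x ≤ 1`). So `F` decreases on `(0, 1]` and increases on `[1, ∞)`, `F ≥ 0`.
(Suggestion: treat the case `x^(θ-1) + y^(θ-1) ≤ 1` separately: for fixed `x` the function
`x^θ + y^θ - 1 + θ(1-x)(1-y)` is decreasing in `y` on `y^(θ-1) ≤ 1 - x^(θ-1)`, so it is at least
its value at `y0`, `y0^(θ-1) = 1 - x^(θ-1)`, where the other case applies by continuity.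
Use `antitoneOn_of_deriv_nonpos` / `monotoneOn_of_deriv_nonneg`, or the mean value theorem.)
-/

set_option autoImplicit false

namespace Pool.Agent.W_bbc525_ends

/-- the function in the variable `v` (valid for `u + v ≥ 1`) -/
private noncomputable def SAG (k u v : ℝ) : ℝ :=
  u ^ (k + 1) + v ^ (k + 1) - 1 + (k + 1) / k * (u ^ k - 1) * (v ^ k - 1) - (u + v - 1) ^ (k + 1)

/-- the function without the last term -/
private noncomputable def SAH (k u v : ℝ) : ℝ :=
  u ^ (k + 1) + v ^ (k + 1) - 1 + (k + 1) / k * (u ^ k - 1) * (v ^ k - 1)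

private theorem SA_jensen {k w t : ℝ} (hk : 1 ≤ k) (h0 : 0 ≤ w) (h1 : w ≤ 1) (ht : 0 ≤ t) :
    ((1 - w) + w * t) ^ k ≤ (1 - w) + w * t ^ k := by
  have h1' : (1 : ℝ) ∈ Set.Ici (0 : ℝ) := by simp
  have ht' : t ∈ Set.Ici (0 : ℝ) := ht
  have h := (convexOn_rpow hk).2 h1' ht' (by linarith : (0 : ℝ) ≤ 1 - w) h0 (by ring)
  simpa [smul_eq_mul] using h

private theorem SA_derivH {k u v : ℝ} (hk : 1 ≤ k) (hv : 0 < v) :
    HasDerivAt (SAH k u) ((k + 1) * (v ^ (k - 1) * (v + u ^ k - 1))) v := by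
  have e1 : HasDerivAt (fun v : ℝ => v ^ (k + 1)) ((k + 1) * v ^ (k + 1 - 1)) v :=
    Real.hasDerivAt_rpow_const (Or.inl hv.ne')
  have e2 : HasDerivAt (fun v : ℝ => v ^ k) (k * v ^ (k - 1)) v :=
    Real.hasDerivAt_rpow_const (Or.inl hv.ne')
  have e3 := ((e1.const_add (u ^ (k + 1))).sub_const 1).add
    ((e2.sub_const 1).const_mul ((k + 1) / k * (u ^ k - 1)))
  have hk0 : k ≠ 0 := by positivity
  have hvk : v ^ (k + 1 - 1) = v ^ (k - 1) * v := by
    rw [show k + 1 - 1 = (k - 1) + 1 by ring, Real.rpow_add hv, Real.rpow_one]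
  have e4 : (k + 1) * (v ^ (k - 1) * (v + u ^ k - 1))
      = (k + 1) * v ^ (k + 1 - 1) + (k + 1) / k * (u ^ k - 1) * (k * v ^ (k - 1)) := by
    rw [hvk]
    field_simp
    ring
  rw [e4]
  exact e3

private theorem SA_derivG {k u v : ℝ} (hk : 1 ≤ k) (hv : 0 < v) (huv : 0 < u + v - 1) :
    HasDerivAt (SAG k u) ((k + 1) * (v ^ (k - 1) * (v + u ^ k - 1))
      - (k + 1) * (u + v - 1) ^ k) v := by
  have e1 : HasDerivAt (fun v : ℝ => u + v - 1) 1 v := by
    simpa using ((hasDerivAt_id v).const_add u).sub_const 1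
  have e2 := e1.rpow_const (p := k + 1) (Or.inl huv.ne')
  have e3 := (SA_derivH (u := u) hk hv).sub e2
  have : (k + 1) * (v ^ (k - 1) * (v + u ^ k - 1)) - (k + 1) * (u + v - 1) ^ k
      = (k + 1) * (v ^ (k - 1) * (v + u ^ k - 1)) - 1 * (k + 1) * (u + v - 1) ^ (k + 1 - 1) := by
    rw [show k + 1 - 1 = k by ring]; ring
  rw [this]
  exact e3

private theorem SA_contH {k u : ℝ} (hk : 1 ≤ k) : Continuous (SAH k u) := by
  unfold SAH
  have h1 : Continuous fun v : ℝ => v ^ (k + 1) := Real.continuous_rpow_const (by linarith)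
  have h2 : Continuous fun v : ℝ => v ^ k := Real.continuous_rpow_const (by linarith)
  fun_prop

private theorem SA_contG {k u : ℝ} (hk : 1 ≤ k) : Continuous (SAG k u) := by
  have h3 : Continuous fun v : ℝ => (u + v - 1) ^ (k + 1) :=
    (Real.continuous_rpow_const (by linarith)).comp (by fun_prop)
  exact (SA_contH (u := u) hk).sub h3

private theorem SA_G1 {k u : ℝ} : SAG k u 1 = 0 := by
  unfold SAG
  simp

/-- `v ≥ 1` -/
private theorem SA_ge {k u v : ℝ} (hk : 1 ≤ k) (hu : 0 ≤ u) (hv : 1 ≤ v) : 0 ≤ SAG k u v := by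
  have hm : MonotoneOn (SAG k u) (Set.Ici 1) := by
    apply monotoneOn_of_deriv_nonneg (convex_Ici 1) (SA_contG hk).continuousOn
    · intro z hz
      rw [interior_Ici] at hz
      have hz' : (1 : ℝ) < z := hz
      exact (SA_derivG hk (by linarith) (by linarith)).differentiableAt.differentiableWithinAt
    · intro z hz
      rw [interior_Ici] at hz
      have hz' : (1 : ℝ) < z := hz
      have hz0 : 0 < z := by linarith
      rw [(SA_derivG hk hz0 (by linarith)).deriv]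
      have hj := SA_jensen (w := 1 / z) (t := u) hk (by positivity)
        ((div_le_one hz0).2 hz'.le) hu
      have h1 : u + z - 1 = z * ((1 - 1 / z) + 1 / z * u) := by field_simp; ring
      have h2 : (u + z - 1) ^ k = z ^ k * ((1 - 1 / z) + 1 / z * u) ^ k := by
        rw [h1, Real.mul_rpow hz0.le]
        have : 1 / z ≤ 1 := (div_le_one hz0).2 hz'.le
        have h0 : 0 ≤ 1 / z * u := by positivity
        linarith
      have h3 : z ^ k = z ^ (k - 1) * z := by
        rw [show z ^ k = z ^ ((k - 1) + 1) by ring_nf, Real.rpow_add hz0, Real.rpow_one]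
      have h4 : z ^ k * ((1 - 1 / z) + 1 / z * u ^ k) = z ^ (k - 1) * (z + u ^ k - 1) := by
        rw [h3]; field_simp; ring
      have h5 : (u + z - 1) ^ k ≤ z ^ (k - 1) * (z + u ^ k - 1) := by
        rw [h2, ← h4]
        exact mul_le_mul_of_nonneg_left hj (by positivity)
      nlinarith [h5, hk]
  have := hm (Set.mem_Ici.2 le_rfl) (Set.mem_Ici.2 hv) hv
  rwa [SA_G1] at this

/-- `v ≤ 1`, `u + v ≥ 1` -/
private theorem SA_le {k u v : ℝ} (hk : 1 ≤ k) (_hu : 0 ≤ u) (hv0 : 0 ≤ v) (hv : v ≤ 1)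
    (huv : 0 ≤ u + v - 1) : 0 ≤ SAG k u v := by
  have hm : AntitoneOn (SAG k u) (Set.Icc v 1) := by
    apply antitoneOn_of_deriv_nonpos (convex_Icc v 1) (SA_contG hk).continuousOn
    · intro z hz
      rw [interior_Icc] at hz
      exact (SA_derivG hk (by linarith [hz.1]) (by linarith [hz.1])).differentiableAt.differentiableWithinAt
    · intro z hz
      rw [interior_Icc] at hz
      have hz0 : 0 < z := by linarith [hz.1]
      have hz1 : z < 1 := hz.2
      have hp : 0 < u + z - 1 := by linarith [hz.1]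
      rw [(SA_derivG hk hz0 hp).deriv]
      have hj := SA_jensen (w := z) (t := (u + z - 1) / z) hk hz0.le hz1.le (by positivity)
      have h1 : (1 - z) + z * ((u + z - 1) / z) = u := by field_simp; ring
      rw [h1, Real.div_rpow hp.le hz0.le] at hj
      have h3 : z ^ k = z ^ (k - 1) * z := by
        rw [show z ^ k = z ^ ((k - 1) + 1) by ring_nf, Real.rpow_add hz0, Real.rpow_one]
      have hzk : 0 < z ^ (k - 1) := Real.rpow_pos_of_pos hz0 _
      have h4 : z ^ (k - 1) * (z * ((u + z - 1) ^ k / z ^ k)) = (u + z - 1) ^ k := by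
        rw [h3]; field_simp
      have h5 : z ^ (k - 1) * (z + u ^ k - 1) ≤ (u + z - 1) ^ k := by
        rw [← h4]
        exact mul_le_mul_of_nonneg_left (by linarith) hzk.le
      nlinarith [h5, hk]
  have := hm (Set.mem_Icc.2 ⟨le_rfl, hv⟩) (Set.mem_Icc.2 ⟨hv, le_rfl⟩) hv
  rwa [SA_G1] at this

/-- `u + v < 1` -/
private theorem SA_low {k u v : ℝ} (hk : 1 ≤ k) (hu : 0 ≤ u) (hv0 : 0 ≤ v)
    (huv : u + v - 1 < 0) : 0 ≤ SAH k u v := by
  have hu1 : u ≤ 1 := by linarith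
  have huk : u ^ k ≤ u := by
    have := Real.rpow_le_rpow_of_exponent_ge' hu hu1 (by norm_num : (0 : ℝ) ≤ 1) hk
    simpa using this
  have hm : AntitoneOn (SAH k u) (Set.Icc v (1 - u)) := by
    apply antitoneOn_of_deriv_nonpos (convex_Icc v (1 - u)) (SA_contH hk).continuousOn
    · intro z hz
      rw [interior_Icc] at hz
      exact (SA_derivH hk (by linarith [hz.1])).differentiableAt.differentiableWithinAt
    · intro z hz
      rw [interior_Icc] at hz
      have hz0 : 0 < z := by linarith [hz.1]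
      have hz1 : z < 1 - u := hz.2
      rw [(SA_derivH hk hz0).deriv]
      have hzk : 0 < z ^ (k - 1) := Real.rpow_pos_of_pos hz0 _
      have h1 : z ^ (k - 1) * (z + u ^ k - 1) ≤ 0 :=
        mul_nonpos_of_nonneg_of_nonpos hzk.le (by linarith)
      nlinarith [h1, hk]
  have h1 := hm (Set.mem_Icc.2 ⟨le_rfl, by linarith⟩) (Set.mem_Icc.2 ⟨by linarith, le_rfl⟩)
    (by linarith : v ≤ 1 - u)
  have h2 := SA_le (k := k) (u := u) (v := 1 - u) hk hu (by linarith) (by linarith) (by linarith)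
  have h3 : SAG k u (1 - u) = SAH k u (1 - u) := by
    unfold SAG SAH
    rw [show u + (1 - u) - 1 = 0 by ring, Real.zero_rpow (by linarith)]
    ring
  rw [h3] at h2
  exact h2.trans h1

private theorem SA_core {k u v : ℝ} (hk : 1 ≤ k) (hu : 0 ≤ u) (hv : 0 ≤ v) :
    max (u + v - 1) 0 ^ (k + 1) ≤ SAH k u v := by
  rcases lt_or_ge (u + v - 1) 0 with h | h
  · rw [max_eq_right h.le, Real.zero_rpow (by linarith)]
    exact SA_low hk hu hv h
  · rw [max_eq_left h]
    have hG : 0 ≤ SAG k u v := by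
      rcases le_total v 1 with h1 | h1
      · exact SA_le hk hu hv h1 h
      · exact SA_ge hk hu h1
    have : SAG k u v = SAH k u v - (u + v - 1) ^ (k + 1) := rfl
    linarith

theorem dl_le_prod {θ x y : ℝ} (h1 : 1 < θ) (h2 : θ ≤ 2) (hx : 0 ≤ x) (hy : 0 ≤ y) :
    Dl (θ / (θ - 1)) (x ^ (θ - 1)) (y ^ (θ - 1)) ≤ θ * (x - 1) * (y - 1) := by
  have hθ : 0 < θ - 1 := by linarith
  have hk : 1 ≤ 1 / (θ - 1) := (le_div_iff₀ hθ).2 (by linarith)
  have hn : θ / (θ - 1) = 1 / (θ - 1) + 1 := by field_simp; ring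
  have hc := SA_core (k := 1 / (θ - 1)) hk (Real.rpow_nonneg hx (θ - 1))
    (Real.rpow_nonneg hy (θ - 1))
  have ex : (x ^ (θ - 1)) ^ (1 / (θ - 1)) = x := by
    rw [← Real.rpow_mul hx, mul_one_div_cancel hθ.ne', Real.rpow_one]
  have ey : (y ^ (θ - 1)) ^ (1 / (θ - 1)) = y := by
    rw [← Real.rpow_mul hy, mul_one_div_cancel hθ.ne', Real.rpow_one]
  have eθ : (1 / (θ - 1) + 1) / (1 / (θ - 1)) = θ := by field_simp; ring
  unfold SAH at hc
  rw [ex, ey, eθ] at hc
  unfold Dl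
  rw [hn]
  linarith

end Pool.Agent.W_bbc525_ends
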