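import Pool.Agent.W_bbc525_ends.D0

/-!
# The dual inequality
-/

set_option autoImplicit false

namespace Pool.Agent.W_bbc525_ends

open MeasureTheory

theorem young_w {θ y w : ℝ} (hθ : 1 < θ) (hy : 0 ≤ y) :
    θ * w * y ≤ y ^ θ + (θ - 1) * (max w 0) ^ (θ / (θ - 1)) := by
  have h1 : 0 < θ - 1 := by linarith
  have hw : 0 ≤ max w 0 := le_max_right _ _
  have h2 := slk_nonneg (r := (max w 0) ^ (1 / (θ - 1))) hθ (Real.rpow_nonneg hw _) hy
  unfold slk at h2
  rw [← Real.rpow_mul hw, ← Real.rpow_mul hw, one_div_mul_cancel h1.ne', Real.rpow_one,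
    one_div_mul_eq_div] at h2
  have h3 : θ * w * y ≤ θ * max w 0 * y := by
    apply mul_le_mul_of_nonneg_right _ hy
    exact mul_le_mul_of_nonneg_left (le_max_left _ _) (by linarith)
  linarith

variable {Y : unitInterval → unitInterval → ℝ} {θ : ℝ}

/-- the kernel `max (u x + u y - c) 0 ^ n` is bounded -/
theorem BK.posp {u : unitInterval → ℝ} (hu : BF u) (c : ℝ) {n : ℝ} (hn : 0 ≤ n) :
    BK (fun x y => max (u x + u y - c) 0 ^ n) := by
  have h1 : BK (fun x y => u x + u y - c) := ((BK.left hu).add (BK.right hu)).sub (BK.const c)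
  have h2 : BK (fun x y => max (u x + u y - c) 0) := by
    obtain ⟨C, hC⟩ := h1.bdd
    refine ⟨h1.meas.max measurable_const, C, fun x y => ?_⟩
    rw [abs_of_nonneg (le_max_right _ _)]
    exact max_le ((le_abs_self _).trans (hC x y)) ((abs_nonneg _).trans (hC x y))
  exact h2.rpow (fun x y => le_max_right _ _) hn

theorem BK.int_add {f g : unitInterval → unitInterval → ℝ} (hf : BK f) (hg : BK g) :
    ∫ x, ∫ y, (f x y + g x y) = (∫ x, ∫ y, f x y) + ∫ x, ∫ y, g x y := by
  have e1 : ∀ x, ∫ y, (f x y + g x y) = (∫ y, f x y) + ∫ y, g x y := fun x =>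
    integral_add (hf.row x).integrable (hg.row x).integrable
  simp only [e1]
  exact integral_add hf.iter'.integrable hg.iter'.integrable

theorem BK.int_sub {f g : unitInterval → unitInterval → ℝ} (hf : BK f) (hg : BK g) :
    ∫ x, ∫ y, (f x y - g x y) = (∫ x, ∫ y, f x y) - ∫ x, ∫ y, g x y := by
  have e1 : ∀ x, ∫ y, (f x y - g x y) = (∫ y, f x y) - ∫ y, g x y := fun x =>
    integral_sub (hf.row x).integrable (hg.row x).integrable
  simp only [e1]
  exact integral_sub hf.iter'.integrable hg.iter'.integrable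

theorem BK.int_mul (c : ℝ) (f : unitInterval → unitInterval → ℝ) :
    ∫ x, ∫ y, c * f x y = c * ∫ x, ∫ y, f x y := by
  simp only [integral_const_mul]

theorem BK.int_mono {f g : unitInterval → unitInterval → ℝ} (hf : BK f) (hg : BK g)
    (h : ∀ x y, f x y ≤ g x y) : ∫ x, ∫ y, f x y ≤ ∫ x, ∫ y, g x y := by
  apply integral_mono hf.iter'.integrable hg.iter'.integrable
  intro x
  exact integral_mono (hf.row x).integrable (hg.row x).integrable (h x)

theorem BK.int_left {f : unitInterval → ℝ} : ∫ x, ∫ _ : unitInterval, f x = ∫ x, f x := by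
  simp

theorem BK.int_right {f : unitInterval → ℝ} : ∫ _ : unitInterval, ∫ y, f y = ∫ y, f y := by
  simp

theorem BK.int_prod {f g : unitInterval → ℝ} :
    ∫ x, ∫ y, f x * g y = (∫ x, f x) * ∫ y, g y := by
  simp only [integral_const_mul]
  rw [integral_mul_const]

/-- **The dual inequality.** -/
theorem dual_le (hY : BK Y) (h0 : ∀ x y, 0 ≤ Y x y) (hsym : ∀ x y, Y x y = Y y x) (hθ : 1 < θ)
    (c : ℝ) :
    θ * (∫ x, (∫ y, Y x y) ^ θ) ≤ (1 / 2) * (∫ x, ∫ y, Y x y ^ θ) +
      (1 / 2) * θ * c * (∫ x, ∫ y, Y x y) + (1 / 2) * (θ - 1) *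
      ∫ x, ∫ y, max ((∫ z, Y x z) ^ (θ - 1) + (∫ z, Y y z) ^ (θ - 1) - c) 0 ^ (θ / (θ - 1)) := by
  have h1 : 0 < θ - 1 := by linarith
  have hr : BF (fun x => ∫ y, Y x y) := hY.iter'
  have hr0 : ∀ x, 0 ≤ ∫ y, Y x y := fun x => integral_nonneg fun y => h0 x y
  have hu : BF (fun x => (∫ y, Y x y) ^ (θ - 1)) := hr.rpow hr0 h1.le
  have hYt : BK (fun x y => Y x y ^ θ) := hY.rpow h0 (by linarith)
  have hK := BK.posp hu c (n := θ / (θ - 1)) (by positivity)
  set u : unitInterval → ℝ := fun x => (∫ y, Y x y) ^ (θ - 1) with hudef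
  have hux : BK (fun x y => u x * Y x y) := (BK.left hu).mul hY
  have huy : BK (fun x y => u y * Y x y) := (BK.right hu).mul hY
  have e1 : ∫ x, ∫ y, u x * Y x y = ∫ x, (∫ y, Y x y) ^ θ := by
    simp only [integral_const_mul]
    congr 1
    ext x
    exact rpow_sub_mul hθ (hr0 x)
  have e2 : ∫ x, ∫ y, u y * Y x y = ∫ x, (∫ y, Y x y) ^ θ := by
    rw [← e1]
    have h2 := huy.swap Set.univ Set.univ
    simp only [Measure.restrict_univ] at h2
    rw [h2]
    simp only [hsym]
  have key : ∫ x, ∫ y, (θ * (u x * Y x y) + (θ * (u y * Y x y) - θ * c * Y x y)) ≤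
      ∫ x, ∫ y, (Y x y ^ θ + (θ - 1) * max (u x + u y - c) 0 ^ (θ / (θ - 1))) := by
    apply BK.int_mono
    · exact (BK.const_mul θ hux).add ((BK.const_mul θ huy).sub (BK.const_mul (θ * c) hY))
    · exact hYt.add (BK.const_mul (θ - 1) hK)
    · intro x y
      have h2 := young_w (w := u x + u y - c) hθ (h0 x y)
      linarith
  rw [BK.int_add (BK.const_mul θ hux) ((BK.const_mul θ huy).sub (BK.const_mul (θ * c) hY)),
    BK.int_sub (BK.const_mul θ huy) (BK.const_mul (θ * c) hY), BK.int_mul, BK.int_mul,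
    BK.int_mul, BK.int_add hYt (BK.const_mul (θ - 1) hK), BK.int_mul, e1, e2] at key
  linarith

end Pool.Agent.W_bbc525_ends
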