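import Pool.Agent.W_bbc525_ends.SA
import Pool.Agent.W_bbc525_ends.SB

/-!
# The inequality of an edge, degree ratio at most two
-/

set_option autoImplicit false

namespace Pool.Agent.W_bbc525_ends

open MeasureTheory

variable {Y : unitInterval → unitInterval → ℝ} {θ : ℝ}

theorem dl_scaled {θ x y m : ℝ} (h1 : 1 < θ) (h2 : θ ≤ 2) (hx : 0 ≤ x) (hy : 0 ≤ y)
    (hm : 0 < m) :
    max (x ^ (θ - 1) + y ^ (θ - 1) - m ^ (θ - 1)) 0 ^ (θ / (θ - 1)) ≤
      x ^ θ + y ^ θ - m ^ θ + θ * m ^ (θ - 2) * ((x - m) * (y - m)) := by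
  have h3 : 0 < θ - 1 := by linarith
  have h := dl_le_prod h1 h2 (div_nonneg hx hm.le) (div_nonneg hy hm.le)
  unfold Dl at h
  have hM : 0 < m ^ (θ - 1) := Real.rpow_pos_of_pos hm _
  have hMt : 0 < m ^ θ := Real.rpow_pos_of_pos hm _
  have e1 : max ((x / m) ^ (θ - 1) + (y / m) ^ (θ - 1) - 1) 0 =
      max (x ^ (θ - 1) + y ^ (θ - 1) - m ^ (θ - 1)) 0 / m ^ (θ - 1) := by
    rw [Real.div_rpow hx hm.le, Real.div_rpow hy hm.le, ← add_div]
    have : (x ^ (θ - 1) + y ^ (θ - 1)) / m ^ (θ - 1) - 1 =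
        (x ^ (θ - 1) + y ^ (θ - 1) - m ^ (θ - 1)) / m ^ (θ - 1) := by
      field_simp
    rw [this, ← max_div_div_right hM.le, zero_div]
  have e2 : (m ^ (θ - 1)) ^ (θ / (θ - 1)) = m ^ θ := by
    rw [← Real.rpow_mul hm.le, mul_div_cancel₀ _ h3.ne']
  have e3 : ∀ z : ℝ, 0 ≤ z → (z ^ (θ - 1)) ^ (θ / (θ - 1)) = z ^ θ := by
    intro z hz
    rw [← Real.rpow_mul hz, mul_div_cancel₀ _ h3.ne']
  rw [e1, Real.div_rpow (le_max_right _ _) hM.le, e2, e3 _ (div_nonneg hx hm.le),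
    e3 _ (div_nonneg hy hm.le), Real.div_rpow hx hm.le, Real.div_rpow hy hm.le] at h
  have h4 := mul_le_mul_of_nonneg_left h hMt.le
  have e4 : m ^ (θ - 2) = m ^ θ / m ^ 2 := by
    rw [Real.rpow_sub hm, Real.rpow_two]
  have e5 : m ^ θ * (θ * (x / m - 1) * (y / m - 1)) =
      θ * m ^ (θ - 2) * ((x - m) * (y - m)) := by
    rw [e4]
    field_simp
  rw [e5] at h4
  have e6 : m ^ θ * (max (x ^ (θ - 1) + y ^ (θ - 1) - m ^ (θ - 1)) 0 ^ (θ / (θ - 1)) / m ^ θ -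
      x ^ θ / m ^ θ - y ^ θ / m ^ θ + 1) =
      max (x ^ (θ - 1) + y ^ (θ - 1) - m ^ (θ - 1)) 0 ^ (θ / (θ - 1)) - x ^ θ - y ^ θ + m ^ θ := by
    field_simp
  rw [e6] at h4
  linarith

theorem zet_le_sq {m : ℝ} (h1 : 1 < θ) (h2 : θ ≤ 2) (hm : 0 ≤ m) :
    m ^ θ - 1 - θ * (m - 1) ≤ (1 - m) ^ 2 := by
  rcases hm.eq_or_lt with h | h
  · subst h
    rw [Real.zero_rpow (by linarith)]
    nlinarith
  · have h3 : m ^ (θ - 1) ≤ 1 + (θ - 1) * (m - 1) := by
      have := rpow_one_add_le_one_add_mul_self (s := m - 1) (by linarith)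
        (p := θ - 1) (by linarith) (by linarith)
      rwa [add_sub_cancel] at this
    have h4 : m ^ θ = m ^ (θ - 1) * m := (rpow_sub_mul h1 hm).symm
    have h5 := mul_le_mul_of_nonneg_right h3 hm
    rw [← h4] at h5
    nlinarith [mul_nonneg (by linarith : 0 ≤ 2 - θ) (sq_nonneg (m - 1))]

theorem rpow_mean_le {m : ℝ} (hY : BK Y) (h0 : ∀ x y, 0 ≤ Y x y) (hθ : 1 < θ)
    (hm : m = ∫ x, ∫ y, Y x y) : m ^ θ ≤ ∫ x, ∫ y, Y x y ^ θ := by
  have hm0 : 0 ≤ m := by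
    rw [hm]
    exact integral_nonneg fun x => integral_nonneg fun y => h0 x y
  have hYt : BK (fun x y => Y x y ^ θ) := hY.rpow h0 (by linarith)
  have key : ∫ x, ∫ y, (θ * m ^ (θ - 1) * Y x y - (θ - 1) * m ^ θ) ≤ ∫ x, ∫ y, Y x y ^ θ := by
    apply BK.int_mono ((BK.const_mul _ hY).sub (BK.const _)) hYt
    intro x y
    have := slk_nonneg hθ hm0 (h0 x y)
    unfold slk at this
    linarith
  rw [BK.int_sub (BK.const_mul _ hY) (BK.const _), BK.int_mul, ← hm] at key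
  simp only [integral_const, probReal_univ, smul_eq_mul, one_mul] at key
  have e1 : θ * m ^ (θ - 1) * m = θ * m ^ θ := by
    rw [mul_assoc, rpow_sub_mul hθ hm0]
  rw [e1] at key
  linarith

theorem rpow_mean_row_le {m : ℝ} (hY : BK Y) (h0 : ∀ x y, 0 ≤ Y x y) (hθ : 1 < θ)
    (hm : m = ∫ x, ∫ y, Y x y) : m ^ θ ≤ ∫ x, (∫ y, Y x y) ^ θ := by
  have hm0 : 0 ≤ m := by
    rw [hm]
    exact integral_nonneg fun x => integral_nonneg fun y => h0 x y
  have hr : BF (fun x => ∫ y, Y x y) := hY.iter'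
  have hr0 : ∀ x, 0 ≤ ∫ y, Y x y := fun x => integral_nonneg fun y => h0 x y
  have hrt : BF (fun x => (∫ y, Y x y) ^ θ) := hr.rpow hr0 (by linarith)
  have key : ∫ x, (θ * m ^ (θ - 1) * (∫ y, Y x y) - (θ - 1) * m ^ θ) ≤
      ∫ x, (∫ y, Y x y) ^ θ := by
    apply integral_mono ((BF.const_mul _ hr).sub (BF.const _)).integrable hrt.integrable
    intro x
    have := slk_nonneg hθ hm0 (hr0 x)
    unfold slk at this
    simp only
    linarith
  rw [integral_sub (BF.const_mul _ hr).integrable (BF.const _).integrable, integral_const_mul,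
    ← hm] at key
  simp only [integral_const, probReal_univ, smul_eq_mul, one_mul] at key
  have e1 : θ * m ^ (θ - 1) * m = θ * m ^ θ := by
    rw [mul_assoc, rpow_sub_mul hθ hm0]
  rw [e1] at key
  linarith

/-- subadditivity of the entropy of `y ^ θ` -/
theorem tensor_le {m : ℝ} (hY : BK Y) (h0 : ∀ x y, 0 ≤ Y x y) (hsym : ∀ x y, Y x y = Y y x)
    (h1 : 1 < θ) (h2 : θ ≤ 2) (hm : m = ∫ x, ∫ y, Y x y) (hm0 : 0 < m) :
    ∫ x, (∫ y, Y x y) ^ θ ≤ (1 / 2) * (∫ x, ∫ y, Y x y ^ θ) + (1 / 2) * m ^ θ := by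
  have h3 : 0 < θ - 1 := by linarith
  have hr : BF (fun x => ∫ y, Y x y) := hY.iter'
  have hr0 : ∀ x, 0 ≤ ∫ y, Y x y := fun x => integral_nonneg fun y => h0 x y
  have hrt : BF (fun x => (∫ y, Y x y) ^ θ) := hr.rpow hr0 (by linarith)
  have hu : BF (fun x => (∫ y, Y x y) ^ (θ - 1)) := hr.rpow hr0 h3.le
  have hd := dual_le hY h0 hsym h1 (m ^ (θ - 1))
  rw [← hm] at hd
  have hK := BK.posp hu (m ^ (θ - 1)) (n := θ / (θ - 1)) (by positivity)
  set R := ∫ x, (∫ y, Y x y) ^ θ with hR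
  have hrm : BF (fun x => (∫ y, Y x y) - m) := hr.sub (BF.const m)
  have key : ∫ x, ∫ y, max ((∫ z, Y x z) ^ (θ - 1) + (∫ z, Y y z) ^ (θ - 1) - m ^ (θ - 1)) 0 ^
      (θ / (θ - 1)) ≤ ∫ x, ∫ y, (((∫ z, Y x z) ^ θ + (∫ z, Y y z) ^ θ - m ^ θ) +
      θ * m ^ (θ - 2) * (((∫ z, Y x z) - m) * ((∫ z, Y y z) - m))) := by
    apply BK.int_mono hK
    · exact (((BK.left hrt).add (BK.right hrt)).sub (BK.const _)).add
        (BK.const_mul _ ((BK.left hrm).mul (BK.right hrm)))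
    · intro x y
      exact dl_scaled h1 h2 (hr0 x) (hr0 y) hm0
  rw [BK.int_add (((BK.left hrt).add (BK.right hrt)).sub (BK.const _))
        (BK.const_mul _ ((BK.left hrm).mul (BK.right hrm))),
    BK.int_sub ((BK.left hrt).add (BK.right hrt)) (BK.const _),
    BK.int_add (BK.left hrt) (BK.right hrt), BK.int_mul, BK.int_prod, BK.int_left,
    BK.int_right, ← hR] at key
  have e1 : ∫ x, ((∫ z, Y x z) - m) = 0 := by
    rw [integral_sub hr.integrable (BF.const m).integrable, ← hm]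
    simp
  rw [e1] at key
  simp only [integral_const, probReal_univ, smul_eq_mul, one_mul, mul_zero, add_zero] at key
  have e2 : m ^ (θ - 1) * m = m ^ θ := rpow_sub_mul h1 hm0.le
  have h4 := mul_le_mul_of_nonneg_left key (by linarith : 0 ≤ (1 / 2) * (θ - 1))
  have e3 : (1 / 2) * θ * m ^ (θ - 1) * m = (1 / 2) * θ * m ^ θ := by
    rw [mul_assoc, e2]
  rw [e3] at hd
  nlinarith

/-- **The inequality of an edge, ratio at most two.** -/
theorem key_le_two {m : ℝ} (hY : BK Y) (h0 : ∀ x y, 0 ≤ Y x y) (hsym : ∀ x y, Y x y = Y y x)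
    (h1 : 1 < θ) (h2 : θ ≤ 2) (hm : m = ∫ x, ∫ y, Y x y) (hm0 : 0 < m) {D : ℝ} (hD0 : 0 ≤ D)
    (hD : 1 - m ≤ D) :
    Real.log (∫ x, (∫ y, Y x y) ^ θ) ≤ (1 / 2) * ((∫ x, ∫ y, Y x y ^ θ) - 1) +
      (1 / 2) * θ * (m - 1) + (1 / 2) * D ^ 2 := by
  have hT := tensor_le hY h0 hsym h1 h2 hm hm0
  have hP := rpow_mean_le hY h0 h1 hm
  have hRm := rpow_mean_row_le hY h0 h1 hm
  have hmt : 0 < m ^ θ := Real.rpow_pos_of_pos hm0 _
  set R := ∫ x, (∫ y, Y x y) ^ θ with hR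
  set P := ∫ x, ∫ y, Y x y ^ θ with hPdef
  have hR0 : 0 < R := lt_of_lt_of_le hmt hRm
  rcases le_or_gt m 1 with h | h
  · have h3 : Real.log R ≤ R - 1 := Real.log_le_sub_one_of_pos hR0
    have h4 := zet_le_sq h1 h2 hm0.le
    have h5 : (1 - m) ^ 2 ≤ D ^ 2 := by
      apply pow_le_pow_left₀ (by linarith) hD
    linarith
  · have h3 : Real.log R = θ * Real.log m + Real.log (R / m ^ θ) := by
      rw [Real.log_div hR0.ne' hmt.ne', Real.log_rpow hm0]
      ring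
    have h4 : Real.log (R / m ^ θ) ≤ R / m ^ θ - 1 :=
      Real.log_le_sub_one_of_pos (div_pos hR0 hmt)
    have h5 : R / m ^ θ ≤ (1 / 2) * (P / m ^ θ) + 1 / 2 := by
      rw [div_le_iff₀ hmt]
      have : ((1 / 2) * (P / m ^ θ) + 1 / 2) * m ^ θ = (1 / 2) * P + (1 / 2) * m ^ θ := by
        field_simp
      rw [this]
      exact hT
    have h6 : Real.log m ≤ m - 1 := Real.log_le_sub_one_of_pos hm0
    have h7 : 1 + θ * (m - 1) ≤ m ^ θ := by
      have := one_add_mul_self_le_rpow_one_add (s := m - 1) (by linarith) h1.le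
      rwa [add_sub_cancel] at this
    have h8 : 1 ≤ m ^ θ := by nlinarith
    -- P (1 - m^{-θ}) ≥ m^θ - 1
    have h9 : m ^ θ - 1 ≤ P - P / m ^ θ := by
      have e1 : P - P / m ^ θ = (P / m ^ θ) * (m ^ θ - 1) := by
        field_simp
      rw [e1]
      have h10 : 1 ≤ P / m ^ θ := by
        rw [le_div_iff₀ hmt]
        linarith
      nlinarith
    nlinarith [sq_nonneg D]

end Pool.Agent.W_bbc525_ends
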