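import Pool.Agent.W_bbc525_ends.D0

/-!
# A scalar inequality

For `1 < n ≤ 2` and `v ≥ 1`:
`(1 / (2 (n-1))) Δ_n(v, v) + ((n-1)/(2n)) (1 - v^(-n))^2 ≤ v^n - 1 - n log v`.

PROOF. Put `k = n - 1`, `0 < k ≤ 1`. Here `Δ_n(v, v) = (2v-1)^n - 2 v^n + 1`. Let `σ(v)` be the
right side minus the left side; `σ(1) = 0`. For `v > 1`
`σ'(v) = n v^k - n / v - (n / k) ((2v-1)^k - v^k) - k (1 - v^(-n)) v^(-n-1)`.
(i) with `z = 1 - 1/v ∈ [0,1)`: `(2v-1)^k = v^k (1 + z)^k ≤ v^k (1 + k z)` (Bernoulli, `k ≤ 1`),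
so `(n / k) ((2v-1)^k - v^k) ≤ n v^k z`, and `n v^k - n v^k z = n v^(k-1)`.
(ii) so `σ'(v) ≥ n (v^(k-1) - v^(-1)) - k (1 - v^(-n)) v^(-n-1)`;
`v^k ≥ 1 + k log v ≥ 1 + k (1 - 1/v)`, hence `n (v^(k-1) - v^(-1)) = n v^(-1) (v^k - 1)
≥ n k (v - 1) / v^2`.
(iii) Bernoulli: `v^(-n) = (1 - z)^n ≥ 1 - n z`, so `1 - v^(-n) ≤ n (v-1)/v`, and
`k (1 - v^(-n)) v^(-n-1) ≤ k n ((v-1)/v) v^(-1) = k n (v-1)/v^2` (as `v^(-n-1) ≤ v^(-1)`).
Therefore `σ' ≥ 0` on `(1, ∞)`, `σ ≥ 0`.
-/

set_option autoImplicit false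

namespace Pool.Agent.W_bbc525_ends

/-- the difference of the two sides -/
noncomputable def SE_sig (n x : ℝ) : ℝ :=
  x ^ n - 1 - n * Real.log x - ((1 / (2 * (n - 1))) * ((2 * x - 1) ^ n - 2 * x ^ n + 1) +
    ((n - 1) / (2 * n)) * (1 - x ^ (-n)) ^ 2)

theorem SE_hasDeriv {n x : ℝ} (h1 : 1 < n) (hx : 1 < x) :
    HasDerivAt (SE_sig n) (n * x ^ (n - 1) - n / x -
      ((n / (n - 1)) * ((2 * x - 1) ^ (n - 1) - x ^ (n - 1)) +
        (n - 1) * (1 - x ^ (-n)) * x ^ (-n - 1))) x := by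
  have hx0 : x ≠ 0 := by linarith
  have d1 : HasDerivAt (fun x : ℝ => x ^ n) (n * x ^ (n - 1)) x :=
    Real.hasDerivAt_rpow_const (Or.inl hx0)
  have d2 : HasDerivAt (fun x : ℝ => Real.log x) (x⁻¹) x := Real.hasDerivAt_log hx0
  have d3 : HasDerivAt (fun x : ℝ => x ^ (-n)) (-n * x ^ (-n - 1)) x :=
    Real.hasDerivAt_rpow_const (Or.inl hx0)
  have d4 : HasDerivAt (fun x : ℝ => 2 * x - 1) 2 x := by
    simpa using ((hasDerivAt_id x).const_mul 2).sub_const 1
  have d5 : HasDerivAt (fun x : ℝ => (2 * x - 1) ^ n) (2 * n * (2 * x - 1) ^ (n - 1)) x :=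
    d4.rpow_const (Or.inl (by linarith))
  have d6 : HasDerivAt (fun x : ℝ => (1 - x ^ (-n)) ^ 2)
      (2 * (1 - x ^ (-n)) * (n * x ^ (-n - 1))) x :=
    ((d3.const_sub 1).fun_pow 2).congr_deriv (by push_cast; ring)
  have hn : n - 1 ≠ 0 := by linarith
  have hn0 : n ≠ 0 := by linarith
  have hd := ((d1.sub_const 1).sub (d2.const_mul n)).sub
    ((((d5.sub (d1.const_mul 2)).add_const 1).const_mul (1 / (2 * (n - 1)))).add
      (d6.const_mul ((n - 1) / (2 * n))))
  refine HasDerivAt.congr_deriv (f := SE_sig n) hd ?_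
  field_simp

theorem SE_deriv_nonneg {n x : ℝ} (h1 : 1 < n) (h2 : n ≤ 2) (hx : 1 < x) :
    0 ≤ n * x ^ (n - 1) - n / x -
      ((n / (n - 1)) * ((2 * x - 1) ^ (n - 1) - x ^ (n - 1)) +
        (n - 1) * (1 - x ^ (-n)) * x ^ (-n - 1)) := by
  have hx0 : 0 < x := by linarith
  have hk : 0 < n - 1 := by linarith
  have hn : 0 < n := by linarith
  set z : ℝ := 1 - 1 / x with hz
  have hxi : 1 / x < 1 := by rw [div_lt_one hx0]; exact hx
  have hxi0 : 0 < 1 / x := by positivity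
  have hz0 : 0 < z := by linarith
  have hz1 : z < 1 := by linarith
  have e1 : 2 * x - 1 = x * (1 + z) := by rw [hz]; field_simp; ring
  have a1 : (2 * x - 1) ^ (n - 1) ≤ x ^ (n - 1) * (1 + (n - 1) * z) := by
    rw [e1, Real.mul_rpow hx0.le (by linarith)]
    refine mul_le_mul_of_nonneg_left ?_ (Real.rpow_nonneg hx0.le _)
    exact rpow_one_add_le_one_add_mul_self (by linarith) hk.le (by linarith)
  have a2 : (n / (n - 1)) * ((2 * x - 1) ^ (n - 1) - x ^ (n - 1)) ≤ n * x ^ (n - 1) * z := by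
    have : (n / (n - 1)) * ((2 * x - 1) ^ (n - 1) - x ^ (n - 1)) ≤
        (n / (n - 1)) * (x ^ (n - 1) * ((n - 1) * z)) := by
      refine mul_le_mul_of_nonneg_left ?_ (by positivity)
      linarith
    refine this.trans (le_of_eq ?_)
    field_simp
  have a3 : 1 + (n - 1) * z ≤ x ^ (n - 1) := by
    have l1 : 1 - 1 / x ≤ Real.log x := by
      have := Real.one_sub_inv_le_log_of_pos hx0
      rwa [← one_div] at this
    have l2 : 1 + (n - 1) * Real.log x ≤ x ^ (n - 1) := by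
      rw [Real.rpow_def_of_pos hx0, mul_comm (Real.log x)]
      have := Real.add_one_le_exp ((n - 1) * Real.log x)
      linarith
    have := mul_le_mul_of_nonneg_left l1 hk.le
    linarith
  have a4 : 1 - x ^ (-n) ≤ n * z := by
    have e2 : x ^ (-n) = (1 + (-z)) ^ n := by
      have : 1 + -z = x⁻¹ := by rw [hz, one_div]; ring
      rw [this, Real.inv_rpow hx0.le, Real.rpow_neg hx0.le]
    have := one_add_mul_self_le_rpow_one_add (s := -z) (by linarith) h1.le
    rw [e2]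
    linarith
  have a5 : 0 ≤ 1 - x ^ (-n) := by
    have := Real.rpow_le_one_of_one_le_of_nonpos hx.le (by linarith : -n ≤ 0)
    linarith
  have a6 : x ^ (-n - 1) ≤ 1 / x := by
    have : x ^ (-n - 1) ≤ x ^ (-1 : ℝ) := Real.rpow_le_rpow_of_exponent_le hx.le (by linarith)
    rwa [Real.rpow_neg_one, ← one_div] at this
  have a7 : 0 ≤ x ^ (-n - 1) := Real.rpow_nonneg hx0.le _
  have a8 : (n - 1) * (1 - x ^ (-n)) * x ^ (-n - 1) ≤ (n - 1) * (n * z) * (1 / x) := by
    refine mul_le_mul ?_ a6 a7 (by positivity)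
    exact mul_le_mul_of_nonneg_left a4 hk.le
  have a9 : n * x ^ (n - 1) - n * x ^ (n - 1) * z = n * x ^ (n - 1) * (1 / x) := by
    rw [hz]; ring
  have a10 : n * (1 + (n - 1) * z) * (1 / x) ≤ n * x ^ (n - 1) * (1 / x) := by
    refine mul_le_mul_of_nonneg_right ?_ hxi0.le
    exact mul_le_mul_of_nonneg_left a3 hn.le
  have a11 : n / x = n * (1 / x) := by ring
  have a12 : n * (1 + (n - 1) * z) * (1 / x) = n * (1 / x) + (n - 1) * (n * z) * (1 / x) := by
    ring
  linarith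

theorem dl_slack {n v : ℝ} (h1 : 1 < n) (h2 : n ≤ 2) (hv : 1 ≤ v) :
    (1 / (2 * (n - 1))) * Dl n v v + ((n - 1) / (2 * n)) * (1 - v ^ (-n)) ^ 2 ≤
      v ^ n - 1 - n * Real.log v := by
  have hm : MonotoneOn (SE_sig n) (Set.Ici 1) := by
    refine monotoneOn_of_deriv_nonneg (convex_Ici 1) ?_ ?_ ?_
    · have c1 : ContinuousOn (fun x : ℝ => x ^ n) (Set.Ici 1) :=
        ContinuousOn.rpow_const continuousOn_id (fun x _ => Or.inr (by linarith))
      have c2 : ContinuousOn (fun x : ℝ => Real.log x) (Set.Ici 1) :=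
        Real.continuousOn_log.mono (fun x hx => by
          have : (1 : ℝ) ≤ x := hx
          simp only [Set.mem_compl_iff, Set.mem_singleton_iff]
          linarith)
      have c3 : ContinuousOn (fun x : ℝ => x ^ (-n)) (Set.Ici 1) :=
        ContinuousOn.rpow_const continuousOn_id (fun x hx => Or.inl (by
          have : (1 : ℝ) ≤ x := hx
          exact ne_of_gt (by linarith)))
      have c4 : ContinuousOn (fun x : ℝ => (2 * x - 1) ^ n) (Set.Ici 1) :=
        ContinuousOn.rpow_const (by fun_prop) (fun x _ => Or.inr (by linarith))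
      unfold SE_sig
      exact ((c1.sub continuousOn_const).sub (continuousOn_const.mul c2)).sub
        ((continuousOn_const.mul ((c4.sub (continuousOn_const.mul c1)).add
          continuousOn_const)).add (continuousOn_const.mul ((continuousOn_const.sub c3).pow 2)))
    · intro x hx
      rw [interior_Ici] at hx
      exact (SE_hasDeriv h1 hx).differentiableAt.differentiableWithinAt
    · intro x hx
      rw [interior_Ici] at hx
      rw [(SE_hasDeriv h1 hx).deriv]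
      exact SE_deriv_nonneg h1 h2 hx
  have h := hm (Set.mem_Ici.2 le_rfl) (Set.mem_Ici.2 hv) hv
  have h0 : SE_sig n 1 = 0 := by
    unfold SE_sig
    norm_num
  rw [h0] at h
  have e : Dl n v v = (2 * v - 1) ^ n - 2 * v ^ n + 1 := by
    unfold Dl
    rw [max_eq_left (by linarith : (0 : ℝ) ≤ v + v - 1)]
    ring_nf
  rw [e]
  unfold SE_sig at h
  linarith

end Pool.Agent.W_bbc525_ends
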