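import Pool.Agent.W_bbc525_ends.D0

/-!
# The weights of the edges, numerically

For `x ≥ 11`, `1 ≤ b ≤ a` and `a ≥ 2`:
`wgt a b (x - 1) log x < (g_a(x) + g_b(x)) / 2`, where `g_d(x) = (x^d - 1)/d - (x - 1)`,
`wgt a b = (a + b - 2)/2 + [b < a] 2 b^2 K(a/b) / a`, `K(θ) = 1/2` for `θ ≤ 2` and
`θ(θ^2 - θ + 2)/2` for `θ > 2`. (Checked numerically; the case `(3,1)`, `x = 11` is tight:
`9 * 10 * log 11 = 215.81 < 216.67`.)

PROOF. `(x^d - 1) = (x - 1) ∑_{i<d} x^i`, so after division by `x - 1 > 0` the claim is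
`wgt a b * log x < (1/2) (∑_{i<a} x^i / a - 1) + (1/2) (∑_{i<b} x^i / b - 1)`; the last bracket
is `≥ 0`. Use `log x ≤ log 11 + (x - 11)/11 ≤ 2.3980 + (x - 11)/11` (tangent; `log 11 < 2.3980`,
e.g. from `Real.log_two_lt_d9` and rational bounds, `11^10 < 2^35 * ...`, or
`11 < exp 2.398`), the true value is `2.397895`.
 `a = 2`: `wgt 2 1 = 1`, `wgt 2 2 = 1`: `log x < (x - 1)/4`.
 `a = 3`: `wgt 3 1 = 9`, `wgt 3 2 = 17/6`, `wgt 3 3 = 2`: `54 log x < x^2 + x - 2`.
 `a ≥ 4`: `wgt a b ≤ a^2 + a` (for `θ > 2`: `K(θ) ≤ θ^3 / 2` so `2 b^2 K / a ≤ a^2 / b ≤ a^2`;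
 for `θ ≤ 2`: `b^2/a ≤ a`; and `(a + b - 2)/2 ≤ a`), and
 `2 (a^2 + a) log x + 1 < x^(a-1) / a ≤ ∑_{i<a} x^i / a` for `a ≥ 4`, `x ≥ 11`
 (`log x ≤ x / 4`, and by induction on `a` starting at `a = 4`, `x^(a-1) ≥ 11^(a-2) x`).
-/

set_option autoImplicit false

namespace Pool.Agent.W_bbc525_ends

theorem SH_log11 : Real.log 11 < 2.4 := by
  have h1 : (11 : ℝ) ^ 13 < 2 ^ 45 := by norm_num
  have h2 := Real.log_lt_log (by positivity) h1
  rw [Real.log_pow, Real.log_pow] at h2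
  have h3 := Real.log_two_lt_d9
  push_cast at h2
  norm_num
  linarith

theorem SH_log {x : ℝ} (hx : 11 ≤ x) : Real.log x ≤ 2.4 + (x - 11) / 11 := by
  have h := Real.log_le_sub_one_of_pos (show 0 < x / 11 by linarith)
  rw [Real.log_div (by linarith) (by norm_num)] at h
  have h1 := SH_log11
  norm_num at h1 ⊢
  linarith

theorem SH_gg {d : ℕ} (hd : 1 ≤ d) (x : ℝ) :
    gg d x = (x - 1) * ((∑ i ∈ Finset.range d, x ^ i) / d - 1) := by
  have h0 : (d : ℝ) ≠ 0 := by positivity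
  unfold gg
  rw [← geom_sum_mul]
  field_simp

theorem SH_sum_ge (d : ℕ) {x : ℝ} (hx : 11 ≤ x) :
    (d : ℝ) ≤ ∑ i ∈ Finset.range d, x ^ i := by
  have h : ∑ i ∈ Finset.range d, (1 : ℝ) ≤ ∑ i ∈ Finset.range d, x ^ i :=
    Finset.sum_le_sum fun i _ => one_le_pow₀ (by linarith)
  simpa using h

theorem SH_gg_nonneg {d : ℕ} (hd : 1 ≤ d) {x : ℝ} (hx : 11 ≤ x) : 0 ≤ gg d x := by
  rw [SH_gg hd]
  have h0 : (0 : ℝ) < d := by positivity
  refine mul_nonneg (by linarith) ?_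
  rw [sub_nonneg, le_div_iff₀ h0, one_mul]
  exact SH_sum_ge d hx

/-- it suffices to compare after division by `x - 1` -/
theorem SH_red {a b : ℕ} (hb : 1 ≤ b) (ha : 1 ≤ a) {x w : ℝ} (hx : 11 ≤ x) (hw : wgt a b ≤ w)
    (h : w * Real.log x < ((∑ i ∈ Finset.range a, x ^ i) / a - 1) / 2) :
    wgt a b * ((x - 1) * Real.log x) < (gg a x + gg b x) / 2 := by
  have h1 := SH_gg_nonneg hb hx
  have h2 : 0 ≤ Real.log x := Real.log_nonneg (by linarith)
  have h3 : wgt a b * Real.log x ≤ w * Real.log x := mul_le_mul_of_nonneg_right hw h2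
  rw [SH_gg ha]
  have h4 : (x - 1) * (wgt a b * Real.log x) <
      (x - 1) * (((∑ i ∈ Finset.range a, x ^ i) / a - 1) / 2) :=
    mul_lt_mul_of_pos_left (lt_of_le_of_lt h3 h) (by linarith)
  linarith

theorem SH_wgt {a b : ℕ} (hb : 1 ≤ b) (hba : b ≤ a) : wgt a b ≤ (a : ℝ) ^ 2 + a := by
  have hB : (1 : ℝ) ≤ b := by exact_mod_cast hb
  have hBA : (b : ℝ) ≤ a := by exact_mod_cast hba
  have hA : (0 : ℝ) < a := by linarith
  unfold wgt
  have h1 : (if b < a then 2 * (b : ℝ) ^ 2 * Kt ((a : ℝ) / b) / a else 0) ≤ (a : ℝ) ^ 2 := by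
    split_ifs with h
    · unfold Kt
      rw [div_le_iff₀ hA]
      split_ifs with h2
      · nlinarith [mul_le_mul hBA hBA (by linarith) (by linarith), mul_pos hA hA]
      · have h3 : 2 < (a : ℝ) / b := not_le.1 h2
        have h4 : 2 * (b : ℝ) ≤ a := by
          rw [lt_div_iff₀ (by linarith)] at h3
          exact h3.le
        obtain ⟨t, ht⟩ : ∃ t : ℝ, t = (a : ℝ) / b := ⟨_, rfl⟩
        rw [← ht] at h3 ⊢
        have h5 : (a : ℝ) = t * b := by rw [ht]; field_simp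
        rw [h5]
        have h6 : t * (t ^ 2 - t + 2) ≤ t * t ^ 2 := by nlinarith
        have h7 : 2 * (b : ℝ) ^ 2 * (t * (t ^ 2 - t + 2) / 2) ≤ (b : ℝ) ^ 2 * (t * t ^ 2) := by
          have := mul_le_mul_of_nonneg_left h6 (by positivity : (0 : ℝ) ≤ (b : ℝ) ^ 2)
          linarith
        refine h7.trans ?_
        have h8 : (t * (b : ℝ)) ^ 2 * (t * b) = (b : ℝ) ^ 2 * (t * t ^ 2) * b := by ring
        rw [h8]
        exact le_mul_of_one_le_right (by positivity) hB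
    · positivity
  linarith

theorem SH_pow {a : ℕ} (ha : 4 ≤ a) : (a : ℝ) ^ 3 + a ^ 2 + a ≤ 2 * 11 ^ (a - 2) := by
  obtain ⟨k, rfl⟩ : ∃ k, a = k + 4 := ⟨a - 4, by omega⟩
  rw [show k + 4 - 2 = k + 2 by omega]
  push_cast
  induction k with
  | zero => norm_num
  | succ k ih =>
    have hk : (0 : ℝ) ≤ k := Nat.cast_nonneg k
    have h := ih (by omega)
    have e1 : (11 : ℝ) ^ (k + 1 + 2) = 11 ^ (k + 2) * 11 := by
      rw [show k + 1 + 2 = (k + 2) + 1 by omega, pow_succ]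
    rw [e1]
    push_cast
    generalize (11 : ℝ) ^ (k + 2) = P at h ⊢
    have h2 : (0 : ℝ) ≤ (k : ℝ) ^ 2 := by positivity
    have h3 : (0 : ℝ) ≤ (k : ℝ) ^ 3 := by positivity
    have h4 : ((k : ℝ) + 1 + 4) ^ 3 + (k + 1 + 4) ^ 2 + (k + 1 + 4) ≤
        11 * (((k : ℝ) + 4) ^ 3 + (k + 4) ^ 2 + (k + 4)) := by
      ring_nf
      linarith
    linarith

theorem wgt_lt {a b : ℕ} (hb : 1 ≤ b) (hba : b ≤ a) (ha : 2 ≤ a) {x : ℝ} (hx : 11 ≤ x) :
    wgt a b * ((x - 1) * Real.log x) < (gg a x + gg b x) / 2 := by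
  have hL := SH_log hx
  norm_num at hL
  rcases Nat.lt_or_ge a 4 with h4 | h4
  · interval_cases a
    · refine SH_red (w := 1) hb (by omega) hx ?_ ?_
      · interval_cases b
        · unfold wgt Kt
          norm_num
        · unfold wgt
          norm_num
      · simp only [Finset.sum_range_succ, Finset.sum_range_zero]
        norm_num
        linarith
    · refine SH_red (w := 9) hb (by omega) hx ?_ ?_
      · interval_cases b
        · unfold wgt Kt
          norm_num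
        · unfold wgt Kt
          norm_num
        · unfold wgt
          norm_num
      · simp only [Finset.sum_range_succ, Finset.sum_range_zero]
        norm_num
        nlinarith
  · refine SH_red (w := (a : ℝ) ^ 2 + a) hb (by omega) hx (SH_wgt hb hba) ?_
    have hA : (4 : ℝ) ≤ a := by exact_mod_cast h4
    have h1 : x ^ (a - 1) ≤ ∑ i ∈ Finset.range a, x ^ i :=
      Finset.single_le_sum (f := fun i => x ^ i) (fun i _ => by positivity)
        (Finset.mem_range.2 (by omega))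
    have h2 : (11 : ℝ) ^ (a - 2) * x ≤ x ^ (a - 1) := by
      rw [show a - 1 = (a - 2) + 1 by omega, pow_succ]
      exact mul_le_mul_of_nonneg_right (pow_le_pow_left₀ (by norm_num) hx _) (by linarith)
    have h3 := SH_pow h4
    have h5 : Real.log x ≤ x / 4 := by linarith
    have h6 : ((a : ℝ) ^ 2 + a) * Real.log x ≤ ((a : ℝ) ^ 2 + a) * (x / 4) :=
      mul_le_mul_of_nonneg_left h5 (by positivity)
    refine lt_of_le_of_lt h6 ?_
    have h7 : ((a : ℝ) ^ 3 + a ^ 2 + a) / 2 * x ≤ ∑ i ∈ Finset.range a, x ^ i := by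
      refine le_trans ?_ (h2.trans h1)
      exact mul_le_mul_of_nonneg_right (by linarith) (by linarith)
    have h8 : ((a : ℝ) ^ 3 + a ^ 2 + a) / 2 * x / a ≤ (∑ i ∈ Finset.range a, x ^ i) / a :=
      div_le_div_of_nonneg_right h7 (by linarith)
    have h9 : ((a : ℝ) ^ 3 + a ^ 2 + a) / 2 * x / a = ((a : ℝ) ^ 2 + a + 1) / 2 * x := by
      field_simp
    rw [h9] at h8
    linarith

end Pool.Agent.W_bbc525_ends
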