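import Pool.Agent.W_bbc525_ends.SC
import Pool.Agent.W_bbc525_ends.SG
import Pool.Agent.W_bbc525_ends.SH

/-!
# Small densities: the theorem
-/

set_option autoImplicit false

namespace Pool.Agent.W_bbc525_ends

open MeasureTheory Finset Pool.Agent.W_MP_bbc525_pr Pool.Agent.W_bbc525_h89 Pool.Agent.W_bbc525_td

section one

variable {W : Graphon} {q : ℝ}

/-- the deficit -/
noncomputable def dfc (W : Graphon) (q : ℝ) : ℝ := ∫ x, ∫ y, max (1 - W.W x y / q) 0

theorem BK.dfk (hq : 0 < q) : BK (fun x y => max (1 - W.W x y / q) 0) :=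
  ((BK.const 1).sub (BK.XX hq)).maxz

theorem dfc_nonneg : 0 ≤ dfc W q :=
  integral_nonneg fun _ => integral_nonneg fun _ => le_max_right _ _

theorem BK.sq_int {f : unitInterval → unitInterval → ℝ} (hf : BK f) :
    (∫ x, ∫ y, f x y) ^ 2 ≤ ∫ x, ∫ y, f x y ^ 2 := by
  have hf2 : BK (fun x y => f x y ^ 2) := hf.pow 2
  set c := ∫ x, ∫ y, f x y with hc
  have h := BK.int_mono ((BK.const_mul (2 * c) hf).sub (BK.const (c ^ 2))) hf2 (fun x y => by
    nlinarith [sq_nonneg (f x y - c)])
  rw [BK.int_sub (BK.const_mul (2 * c) hf) (BK.const (c ^ 2)), BK.int_mul, ← hc] at h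
  simp only [integral_const, probReal_univ, smul_eq_mul, one_mul] at h
  nlinarith

theorem mixS_eq (hq : 0 < q) {a b : ℕ} (hb : 0 < b) :
    ∫ x, (∫ y, YY W q b x y) ^ ((a : ℝ) / b) = mix W a b / q ^ a := by
  have hb' : (0 : ℝ) < b := by exact_mod_cast hb
  have e3 : ∀ x, (∫ y, YY W q b x y) ^ ((a : ℝ) / b) = inn W b x ^ ((a : ℝ) / b) / q ^ a := by
    intro x
    rw [YY_row, Real.div_rpow (inn_nonneg W b x) (by positivity), ← Real.rpow_natCast q b,
      ← Real.rpow_mul hq.le, mul_div_cancel₀ _ hb'.ne', Real.rpow_natCast]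
  simp only [e3]
  rw [integral_div]
  rfl

theorem dfk_pow {X : ℝ} (hX : 0 ≤ X) (b : ℕ) : max (1 - X ^ b) 0 ≤ b * max (1 - X) 0 := by
  have h := one_add_mul_le_pow (a := X - 1) (by linarith) b
  have e : (1 + (X - 1)) = X := by ring
  rw [e] at h
  have h1 := le_max_left (1 - X) 0
  have h2 := le_max_right (1 - X) 0
  apply max_le
  · have : (b : ℝ) * (1 - X) ≤ b * max (1 - X) 0 := mul_le_mul_of_nonneg_left h1 (Nat.cast_nonneg b)
    linarith
  · exact mul_nonneg (Nat.cast_nonneg b) h2

theorem dfk_int (hq : 0 < q) (b : ℕ) :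
    ∫ x, ∫ y, max (1 - YY W q b x y) 0 ≤ b * dfc W q := by
  have h := BK.int_mono ((BK.const 1).sub (BK.YY (W := W) hq b)).maxz
    (BK.const_mul (b : ℝ) (BK.dfk (W := W) hq)) (fun x y =>
      dfk_pow (div_nonneg (W.nonneg x y) hq.le) b)
  rw [BK.int_mul] at h
  exact h

/-- **The excess of an edge.** -/
theorem exc_om (hq : 0 < q) {a b : ℕ} (hb : 0 < b) (hba : b < a)
    (hR : 0 < mix W a b / q ^ a) :
    Exc W q a b ≤ mix W a b / q ^ a - 1 - Real.log (mix W a b / q ^ a) +
      Kt ((a : ℝ) / b) * (b * dfc W q) ^ 2 := by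
  have hb' : (0 : ℝ) < b := by exact_mod_cast hb
  have ha' : (0 : ℝ) < a := by exact_mod_cast lt_trans hb hba
  have hθ1 : 1 < (a : ℝ) / b := by
    rw [lt_div_iff₀ hb', one_mul]
    exact_mod_cast hba
  obtain ⟨θ, hθ⟩ : ∃ θ, θ = (a : ℝ) / b := ⟨_, rfl⟩
  rw [← hθ] at hθ1
  have hexc := exc_eq (W := W) hq hb hba.le
  have hY := BK.YY (W := W) hq b
  have h0 := YY_nonneg (W := W) hq b
  have hsym := YY_symm (W := W) (q := q) b
  have hD := dfk_int (W := W) hq b
  have hmix := mixS_eq (W := W) hq (a := a) hb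
  have hP : ∫ x, ∫ y, YY W q b x y ^ θ = W.mom a / q ^ a := by
    have e4 : ∀ x y, YY W q b x y ^ θ = YY W q a x y := fun x y => by
      rw [hθ]
      exact YY_rpow hq hb x y
    simp only [e4]
    exact YY_mom hq a
  have hm := YY_mom (W := W) hq b
  have hexc' : Exc W q a b = mix W a b / q ^ a - 1 - (1 / 2) * (W.mom a / q ^ a - 1) -
      (1 / 2) * θ * (W.mom b / q ^ b - 1) := by
    have h1 : a * ((mix W a b / q ^ a - 1) / a) = a * ((1 / 2) * ((W.mom a / q ^ a - 1) / a) +
      (1 / 2) * ((W.mom b / q ^ b - 1) / b) + Exc W q a b / a) := by rw [hexc]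
    rw [mul_div_cancel₀ _ ha'.ne'] at h1
    have h2 : a * ((1 / 2) * ((W.mom a / q ^ a - 1) / a) +
      (1 / 2) * ((W.mom b / q ^ b - 1) / b) + Exc W q a b / a) =
      (1 / 2) * (W.mom a / q ^ a - 1) + (1 / 2) * (a / b) * (W.mom b / q ^ b - 1) +
        Exc W q a b := by
      field_simp
    rw [h2, ← hθ] at h1
    linarith
  rw [← hθ] at hmix ⊢
  rcases le_or_gt θ 2 with h2 | h2
  · have hK : Kt θ = 1 / 2 := by
      unfold Kt
      rw [if_pos h2]
    -- positivity of the mean
    have hm0 : 0 < W.mom b / q ^ b := by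
      have hm1 : 0 ≤ W.mom b / q ^ b := by
        rw [← hm]
        exact integral_nonneg fun x => integral_nonneg fun y => h0 x y
      rcases hm1.eq_or_lt with h3 | h3
      · exfalso
        have hr : BF (fun x => ∫ y, YY W q b x y) := hY.iter'
        have hr0 : ∀ x, 0 ≤ ∫ y, YY W q b x y := fun x => integral_nonneg fun y => h0 x y
        obtain ⟨C, hC⟩ := hr.bdd
        have h4 : ∫ x, (∫ y, YY W q b x y) ^ θ ≤ ∫ x, C ^ (θ - 1) * ∫ y, YY W q b x y := by
          apply integral_mono (hr.rpow hr0 (by linarith)).integrable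
            (BF.const_mul _ hr).integrable
          intro x
          simp only
          rw [← rpow_sub_mul hθ1 (hr0 x)]
          apply mul_le_mul_of_nonneg_right _ (hr0 x)
          exact Real.rpow_le_rpow (hr0 x) ((le_abs_self _).trans (hC x)) (by linarith)
        rw [integral_const_mul, hm, ← h3, mul_zero, hmix] at h4
        linarith
      · exact h3
    have h3 : 1 - W.mom b / q ^ b ≤ b * dfc W q := by
      refine le_trans ?_ hD
      have h4 := BK.int_mono ((BK.const 1).sub hY) ((BK.const 1).sub hY).maxz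
        (fun x y => le_max_left _ _)
      rw [BK.int_sub (BK.const 1) hY, hm] at h4
      simpa using h4
    have h4 := key_le_two hY h0 hsym hθ1 h2 hm.symm hm0
      (mul_nonneg hb'.le dfc_nonneg) h3
    rw [hmix, hP] at h4
    rw [hexc', hK]
    linarith
  · have hK : Kt θ = θ * (θ ^ 2 - θ + 2) / 2 := by
      unfold Kt
      rw [if_neg (not_le.2 h2)]
    have hR' : 0 < ∫ x, (∫ y, YY W q b x y) ^ θ := by
      rw [hmix]
      exact hR
    have h4 := key_gt_two hY h0 hsym h2 hm.symm hR' hD
    rw [hmix, hP] at h4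
    rw [hexc', hK]
    linarith

theorem Exc_self (a : ℕ) (ha : 0 < a) : Exc W q a a = 0 := by
  have ha' : (a : ℝ) ≠ 0 := by exact_mod_cast ha.ne'
  have h : ∀ y : ℝ, zet 1 y = 0 := fun y => by
    unfold zet
    rw [Real.rpow_one]
    ring
  unfold Exc
  rw [div_self ha']
  simp [h]

/-- the relative entropy below `1`, small `q` -/
theorem dd_low (hq : 0 < q) (hq2 : q ≤ 1 / 2) {X : ℝ} (hX : 0 ≤ X) (hX1 : X ≤ 1) :
    (1 / 2) * (q / (1 - q)) * (1 - X) ^ 2 ≤ dd q X := by
  have hq1 : q < 1 := by linarith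
  have h1q : (1 : ℝ) < 1 / q := by
    rw [lt_div_iff₀ hq]
    linarith
  set s := q / (1 - q) with hs
  have h1q' : 0 < 1 - q := by linarith
  have hs0 : 0 < s := div_pos hq h1q'
  have hs1 : s ≤ 1 := by
    rw [hs, div_le_one h1q']
    linarith
  have hsq : s * (1 - q) = q := by
    rw [hs]
    field_simp
  have hanti : AntitoneOn (fun X => dd q X - (1 / 2) * s * (1 - X) ^ 2) (Set.Icc 0 1) := by
    apply antitoneOn_of_deriv_nonpos (convex_Icc 0 1)
    · apply ContinuousOn.sub
      · exact (continuousOn_dd hq hq1).mono (Set.Icc_subset_Icc_right h1q.le)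
      · fun_prop
    · intro x hx
      rw [interior_Icc] at hx
      have h1 := hasDerivAt_dd hq hq1 hx.1 (lt_trans hx.2 h1q)
      have h2 : HasDerivAt (fun X : ℝ => (1 / 2) * s * (1 - X) ^ 2)
          ((1 / 2) * s * (2 * (1 - x) ^ 1 * (-1))) x := by
        have := (((hasDerivAt_id x).const_sub 1).pow 2).const_mul ((1 / 2) * s)
        simpa using this
      exact (h1.sub h2).differentiableAt.differentiableWithinAt
    · intro x hx
      rw [interior_Icc] at hx
      have h1 := hasDerivAt_dd hq hq1 hx.1 (lt_trans hx.2 h1q)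
      have h2 : HasDerivAt (fun X : ℝ => (1 / 2) * s * (1 - X) ^ 2)
          ((1 / 2) * s * (2 * (1 - x) ^ 1 * (-1))) x := by
        have := (((hasDerivAt_id x).const_sub 1).pow 2).const_mul ((1 / 2) * s)
        simpa using this
      have h12 : HasDerivAt (fun X : ℝ => dd q X - (1 / 2) * s * (1 - X) ^ 2)
          (dd' q x - (1 / 2) * s * (2 * (1 - x) ^ 1 * (-1))) x := h1.sub h2
      rw [h12.deriv]
      unfold dd'
      -- logarithms
      have hqx : 0 < 1 - q * x := by nlinarith [hx.1, hx.2]
      have h3 : Real.log x ≤ -(1 - x) - (1 - x) ^ 2 / 2 := by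
        -- log (1 - d) ≤ -d - d^2/2
        have h4 := Real.sinh_log hx.1
        have h5 := Real.quadratic_le_exp_of_nonneg (x := -(Real.log x)) (by
          have := Real.log_nonpos hx.1.le hx.2.le
          linarith)
        rw [Real.exp_neg, Real.exp_log hx.1] at h5
        -- use the series bound through integration
        have hmono : AntitoneOn (fun t : ℝ => -(1 - t) - (1 - t) ^ 2 / 2 - Real.log t)
            (Set.Ioc 0 1) := by
          apply antitoneOn_of_deriv_nonpos (convex_Ioc 0 1)
          · intro t ht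
            exact (ContinuousAt.sub (by fun_prop)
              (Real.continuousAt_log ht.1.ne')).continuousWithinAt
          · intro t ht
            rw [interior_Ioc] at ht
            have ht0 : t ≠ 0 := ht.1.ne'
            apply DifferentiableAt.differentiableWithinAt
            fun_prop (disch := assumption)
          · intro t ht
            rw [interior_Ioc] at ht
            have ht0 : t ≠ 0 := ht.1.ne'
            have hd : HasDerivAt (fun t : ℝ => -(1 - t) - (1 - t) ^ 2 / 2 - Real.log t)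
                (-(-1) - (2 * (1 - t) ^ 1 * (-1)) / 2 - t⁻¹) t := by
              have a1 : HasDerivAt (fun t : ℝ => 1 - t) (-1) t := (hasDerivAt_id t).const_sub 1
              have a3 : HasDerivAt (fun t : ℝ => -(1 - t) - (1 - t) ^ 2 / 2 - Real.log t)
                  (-(-1) - (((2 : ℕ) : ℝ) * (1 - t) ^ (2 - 1) * (-1)) / 2 - t⁻¹) t :=
                (a1.neg.sub ((a1.pow 2).div_const 2)).sub (Real.hasDerivAt_log ht0)
              refine a3.congr_deriv ?_
              norm_num
            rw [hd.deriv]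
            have : -(-1) - (2 * (1 - t) ^ 1 * (-1)) / 2 - t⁻¹ = -(1 - t) ^ 2 / t := by
              field_simp
              ring
            rw [this]
            apply div_nonpos_of_nonpos_of_nonneg _ ht.1.le
            nlinarith [sq_nonneg (1 - t)]
        have := hmono ⟨hx.1, hx.2.le⟩ ⟨one_pos, le_rfl⟩ hx.2.le
        simp only [Real.log_one] at this
        linarith
      have h4 : s * (1 - x) - (s * (1 - x)) ^ 2 / 2 ≤
          Real.log (1 - q * x) - Real.log (1 - q) := by
        rw [← Real.log_div hqx.ne' h1q'.ne']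
        have e : (1 - q * x) / (1 - q) = 1 + s * (1 - x) := by
          rw [div_eq_iff h1q'.ne']
          linear_combination (-(1 - x)) * hsq
        rw [e]
        have hu0 : 0 ≤ s * (1 - x) := mul_nonneg hs0.le (by linarith [hx.2])
        have h6 := Real.le_log_one_add_of_nonneg hu0
        refine le_trans ?_ h6
        rw [le_div_iff₀ (by linarith)]
        nlinarith [pow_nonneg hu0 3]
      have h5 : 0 ≤ (1 - x) := by linarith [hx.2]
      -- q (log x - log(1-qx) + log(1-q)) + s (1 - x) ≤ 0
      have h6 : q * (Real.log x - Real.log (1 - q * x) + Real.log (1 - q)) ≤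
          q * ((-(1 - x) - (1 - x) ^ 2 / 2) - (s * (1 - x) - (s * (1 - x)) ^ 2 / 2)) :=
        mul_le_mul_of_nonneg_left (by linarith) hq.le
      have h7 : q * ((-(1 - x) - (1 - x) ^ 2 / 2) - (s * (1 - x) - (s * (1 - x)) ^ 2 / 2)) +
          s * (1 - x) ≤ 0 := by
        have e : s = q * (1 + s) := by linear_combination hsq
        have h8 : q * ((-(1 - x) - (1 - x) ^ 2 / 2) - (s * (1 - x) - (s * (1 - x)) ^ 2 / 2)) +
            s * (1 - x) = - (q * (1 - s ^ 2) * (1 - x) ^ 2 / 2) := by
          have e2 : s * (1 - x) = q * (1 + s) * (1 - x) := by rw [← e]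
          linear_combination e2
        rw [h8]
        have : 0 ≤ q * (1 - s ^ 2) * (1 - x) ^ 2 / 2 := by
          have : 0 ≤ 1 - s ^ 2 := by nlinarith
          positivity
        linarith
      linarith
  have h := hanti ⟨hX, hX1⟩ ⟨zero_le_one, le_rfl⟩ hX1
  simp only [dd_one hq hq1, sub_self] at h
  norm_num at h
  linarith

end one

end Pool.Agent.W_bbc525_ends
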